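import Pool.Agent.H.MP_b2d7dd_lc.TV.Snd
import Pool.Agent.H.MP_b2d7dd_lc.TI.Read
import Pool.Agent.H.MP_b2d7dd_lc.TQ.Acc

/-!
# Module Acc: the test on strings

Compare TQ, TD/Acc.
-/

namespace Pool.Agent.TV

open Pool.Agent.TI (Tm Tok names tokz Valid)
open Pool.Agent.TE (bl)
open Pool.Agent.TC (eN eP uu vv Kc Qw Rr kk SS AA KK)
open Pool.Agent.H.MP_5be563_lc.PT

private theorem Acc_can (s t : Tm) : ∀ q ∈ s.toks ++ t.toks, Pool.Agent.TI.Can q := by
  intro q hq
  rcases List.mem_append.1 hq with h | h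
  · exact s.can_toks q h
  · exact t.can_toks q h

private theorem Acc_tokz {s t : Tm} {x : List Bool} (hx : x = s.code ++ t.code) :
    tokz x = some (s.toks ++ t.toks) := by
  have hT : x = (s.toks ++ t.toks).flatMap Pool.Agent.TI.tokCode := by
    rw [hx, s.code_eq, t.code_eq, List.flatMap_append]
  rw [hT]
  exact Pool.Agent.TI.tokz_toks (Acc_can s t)

private theorem Acc_all {n : ℕ} {T : List Tok} {r : List Bool} (h : shapeG n T = true) :
    acceptT n T r = true ↔ ∀ j < KK n, test1 n T (bl (AA n) r j) = true := by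
  unfold acceptT
  rw [h, Bool.true_and, List.all_eq_true]
  simp only [List.mem_range]

/-- The test on the string of an identity. -/
theorem accept_code {k : ℕ} {s t : Tm} {x : List Bool}
    (hx : x = s.code ++ t.code) (hn : wg s 0 + wg t 0 ≤ x.length ^ k) (r : List Bool) :
    accept k x r = true ↔
      ∀ j < KK (x.length ^ k), test1 (x.length ^ k) (s.toks ++ t.toks)
        (bl (AA (x.length ^ k)) r j) = true := by
  have hsh : shapeG (x.length ^ k) (s.toks ++ t.toks) = true :=
    (shapeG_iff (Acc_can s t)).2 ⟨s, t, hn, rfl⟩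
  have hacc : accept k x r = acceptT (x.length ^ k) (s.toks ++ t.toks) r := by
    unfold accept
    rw [Acc_tokz hx]
  rw [hacc, Acc_all hsh]

theorem accept_imp {k : ℕ} {x r : List Bool} (h : accept k x r = true) :
    ∃ s t : Tm, wg s 0 + wg t 0 ≤ x.length ^ k ∧ x = s.code ++ t.code := by
  rcases htk : tokz x with _ | T
  · unfold accept at h
    rw [htk] at h
    exact absurd h Bool.false_ne_true
  obtain ⟨hx, hcan⟩ := Pool.Agent.TI.tokz_some htk
  have hacc : accept k x r = acceptT (x.length ^ k) T r := by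
    unfold accept
    rw [htk]
  rw [hacc] at h
  have hsh : shapeG (x.length ^ k) T = true := by
    unfold acceptT at h
    exact (Bool.and_eq_true_iff.1 h).1
  obtain ⟨s, t, hw, h1⟩ := (shapeG_iff hcan).1 hsh
  refine ⟨s, t, hw, ?_⟩
  have h2 : x = T.flatMap Pool.Agent.TI.tokCode := hx
  rw [h1, List.flatMap_append] at h2
  rw [h2, s.code_eq, t.code_eq]

theorem accept_valid {k : ℕ} {x : List Bool} (h : x ∈ identitiesG k) (r : List Bool) :
    accept k x r = true := by
  obtain ⟨s, t, hv, hn, hx⟩ := h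
  rw [accept_code hx hn]
  intro j _
  exact test0_valid hn hv _ _

end Pool.Agent.TV
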