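import Pool.Agent.H.MP_b2d7dd_lc.TV.StgC
import Pool.Agent.H.MP_b2d7dd_lc.TQ.Chn

/-!
# Module Chn: the error probability of the stages

Compare TQ, TD/Chn.
-/

namespace Pool.Agent.TV

open Pool.Agent.TI (Tm Tok names Valid)
open Pool.Agent.TE (bl)
open Pool.Agent.TW (SI irow cnt)
open Pool.Agent.TC (Pt rf rf_pos evl Mo Su nrm Pr Gx Lx h1 h2 al ga lcP MB Vn Coh Fai Eqv Bas crd chi)
open Pool.Agent.TC (muB Pb Stk subs exF cob eN eP uu vv Kc Qw Rr kk SS AA KK)
open Pool.Agent.TD hiding nxt tabI fin1 test0 test1 accept acceptT lv h0 nxt_coh tabI_bound tabI_coh fin1_iff test0_valid stage_cnt tabI_append chain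
open Pool.Agent.H.MP_5be563_lc.PT Finset

theorem tabI_append (n : ℕ) (e : List Bool) (N B : List (List Bool))
    (T : List (Tok × Bool)) (x y : List Bool) (i : ℕ) (hx : i * SS n ≤ x.length) :
    tabI n e N B T (x ++ y) i = tabI n e N B T x i := by
  induction i with
  | zero => rfl
  | succ i ih =>
    rw [Nat.succ_mul] at hx
    have h1 : bl (SS n) (x ++ y) i = bl (SS n) x i := by
      unfold bl
      rw [List.drop_append_of_le_length (by omega),
        List.take_append_of_le_length (by rw [List.length_drop]; omega)]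
    show nxt n e N B T i (tabI n e N B T (x ++ y) i) (bl (SS n) (x ++ y) i) =
      nxt n e N B T i (tabI n e N B T x i) (bl (SS n) x i)
    rw [h1, ih (by omega)]

private theorem Chn_cnt_false {m : ℕ} {P : List Bool → Prop} (h : ∀ z, ¬ P z) : cnt m P = 0 := by
  unfold cnt
  have : IsEmpty {r : Fin m → Bool // P (List.ofFn r)} := ⟨fun r => h _ r.2⟩
  exact Nat.card_of_isEmpty

private theorem Chn_bl (w : ℕ) (k : ℕ) (x y : List Bool) (hx : x.length = k * w)
    (hy : y.length = w) : bl w (x ++ y) k = y := by
  unfold bl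
  rw [List.drop_append_of_le_length (by omega), List.drop_of_length_le (by omega),
    List.nil_append, List.take_of_length_le (by omega)]

theorem chain {n : ℕ} {s t : Tm} (hn : wg s 0 + wg t 0 ≤ n) {i : ℕ}
    (hi : i ≤ s.sz + t.sz) {e : List Bool} (he : 2 ^ vv n ≤ bval e)
    (he2 : bval e < 2 ^ (2 * vv n)) (hp : (bval e + 2).Prime) :
    8 * (n + 1) * cnt (i * SS n) (fun z => ¬ Fai (lv n s t) i
      ((tabI n e (names (s.toks ++ t.toks)) (baseV n (zf n (s.toks ++ t.toks)))
        (zf n (s.toks ++ t.toks)) z i).map irow)) ≤ i * 2 ^ (i * SS n) := by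
  induction i with
  | zero =>
    rw [Chn_cnt_false, mul_zero]
    · exact Nat.zero_le _
    · intro z hz
      apply hz
      intro k _
      simp
  | succ i ih =>
    set N := names (s.toks ++ t.toks) with hN
    set T := zf n (s.toks ++ t.toks) with hT
    set B := baseV n T with hB
    have h1 := ih (by omega)
    have h2 := TW.cnt_append (a := i * SS n) (b := SS n) (K := 8 * (n + 1)) (c := 1)
      (fun z => ¬ Fai (lv n s t) (i + 1) ((tabI n e N B T z (i + 1)).map irow))
      (fun z => ¬ Fai (lv n s t) i ((tabI n e N B T z i).map irow)) (by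
        intro x hx hA
        have hf : Fai (lv n s t) i ((tabI n e N B T x i).map irow) := not_not.1 hA
        have hb := tabI_bound n e N B T x i
        have h3 := stage_cnt hn (i := i) (by omega) he he2 hp
          (tabI_coh hn he N x i (by omega)) hf hb.2
          (hb.1.trans (by have := sz_le_wg s 0; have := sz_le_wg t 0; omega))
        rw [one_mul]
        refine le_trans (Nat.mul_le_mul_left _ (TW.cnt_mono ?_)) h3
        intro y hy hP
        have h4 : tabI n e N B T (x ++ y) (i + 1) = nxt n e N B T i (tabI n e N B T x i) y := by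
          show nxt n e N B T i (tabI n e N B T (x ++ y) i) (bl (SS n) (x ++ y) i) = _
          rw [Chn_bl (SS n) i x y hx hy, tabI_append n e N B T x y i (by omega)]
        rw [h4] at hP
        exact hP)
    have h5 : (i + 1) * SS n = i * SS n + SS n := Nat.succ_mul _ _
    rw [h5]
    refine h2.trans ?_
    rw [pow_add, one_mul, Nat.add_mul, one_mul]
    have h6 := Nat.mul_le_mul_right (2 ^ SS n) h1
    calc 8 * (n + 1) * (cnt (i * SS n)
            (fun z => ¬ Fai (lv n s t) i ((tabI n e N B T z i).map irow)) * 2 ^ SS n) +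
          2 ^ (i * SS n) * 2 ^ SS n
        = 8 * (n + 1) * cnt (i * SS n)
            (fun z => ¬ Fai (lv n s t) i ((tabI n e N B T z i).map irow)) * 2 ^ SS n +
          2 ^ (i * SS n) * 2 ^ SS n := by rw [mul_assoc (8 * (n + 1))]
      _ ≤ i * 2 ^ (i * SS n) * 2 ^ SS n +
          2 ^ (i * SS n) * 2 ^ SS n := Nat.add_le_add_right h6 _
      _ = _ := by rw [mul_assoc]

end Pool.Agent.TV
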