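import Pool.Agent.H.MP_b2d7dd_lc.TV.Hz
import Pool.Agent.H.MP_b2d7dd_lc.TD.Cmb

/-!
# Module Cmb: linear combinations of hash values are rarely zero

Compare TD/Cmb (`laur` is there).
-/

namespace Pool.Agent.TV

open Pool.Agent.TI (Tm)
open Pool.Agent.TE (bl)
open Pool.Agent.TW (SI irow wun zv cnt cnt_fam laurent_zeros wun_val)
open Pool.Agent.TC (Pt rf rf_pos evl Mo Su nrm Pr Gx Lx h1 h2 al ga lcP MB Vn Coh Fai Eqv Bas crd chi)
open Pool.Agent.TC (muB Pb comb_ne evl_mul)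
open Pool.Agent.TD hiding par_cn cnt_comb
open Pool.Agent.H.MP_5be563_lc.PT Finset

/-- The exponents with good parameters. -/
private def Cmb_T (W : Finset (List Bool)) (κ : ℕ) : AddSubmonoid (Gx W) where
  carrier := {g | ∀ x, g.2.2 x ≠ 0 → Sum.elim (fun w => w ∈ W) (fun k => k < κ) x}
  zero_mem' := fun _ hx => absurd rfl hx
  add_mem' := by
    intro g h hg hh x hx
    by_cases h0 : g.2.2 x = 0
    · refine hh x fun h1 => hx ?_
      show g.2.2 x + h.2.2 x = 0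
      rw [h0, h1]
    · exact hg x h0

private theorem Cmb_T0 {W : Finset (List Bool)} {κ : ℕ} (v v' : Pt W → ℝ) :
    ((v, v', 0) : Gx W) ∈ Cmb_T W κ := fun _ hx => absurd rfl hx

private theorem Cmb_T1 {W : Finset (List Bool)} {κ : ℕ} {y : List Bool ⊕ ℕ}
    (hy : Sum.elim (fun w => w ∈ W) (fun k => k < κ) y) :
    ((0, 0, Finsupp.single y 1) : Gx W) ∈ Cmb_T W κ := by
  intro x hx
  by_cases h : y = x
  · rw [← h]
    exact hy
  · exact absurd (Finsupp.single_eq_of_ne' h) hx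

private theorem Cmb_pow {W : Finset (List Bool)} {κ : ℕ} {P : Lx W} (h : Su (Cmb_T W κ) P)
    (m : ℕ) : Su (Cmb_T W κ) (P ^ m) := by
  induction m with
  | zero =>
    rw [pow_zero]
    exact Su.one
  | succ m ih =>
    rw [pow_succ]
    exact Su.mul ih h

private theorem Cmb_nat {W : Finset (List Bool)} {κ : ℕ} (m : ℕ) :
    Su (Cmb_T W κ) ((m : ℕ) : Lx W) := by
  have e : ((m : ℕ) : Lx W) = (m : ℤ) • (1 : Lx W) := by
    rw [zsmul_eq_mul, mul_one, Int.cast_natCast]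
  rw [e]
  exact Su.zsmul Su.one _

private theorem Cmb_sub {W : Finset (List Bool)} {κ : ℕ} {P Q : Lx W} (h : Su (Cmb_T W κ) P)
    (h' : Su (Cmb_T W κ) Q) : Su (Cmb_T W κ) (P - Q) := by
  have e : P - Q = P + (-1 : ℤ) • Q := by
    rw [neg_smul, one_smul, sub_eq_add_neg]
  rw [e]
  exact Su.add h (Su.zsmul h' _)

private theorem Cmb_ite {W : Finset (List Bool)} {κ : ℕ} {P Q : Lx W} (c : Prop) [Decidable c]
    (h : Su (Cmb_T W κ) P) (h' : Su (Cmb_T W κ) Q) : Su (Cmb_T W κ) (if c then P else Q) := by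
  by_cases hc : c
  · rw [if_pos hc]
    exact h
  · rw [if_neg hc]
    exact h'

private theorem Cmb_hr {W : Finset (List Bool)} {κ : ℕ} (t : Tm) :
    Su (Cmb_T W κ) (hP W t) ∧ Su (Cmb_T W κ) (rP W t) := by
  induction t with
  | one => exact ⟨Su.one, Su.one⟩
  | var w => exact ⟨Su.single (Cmb_T0 _ _) 1, Su.single (Cmb_T0 _ _) 1⟩
  | add s t hs ht => exact ⟨Su.add hs.1 ht.1, Su.add hs.2 ht.2⟩
  | mul s t hs ht => exact ⟨Su.mul hs.1 ht.1, Su.mul hs.2 ht.2⟩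
  | pow s t hs _ =>
    exact ⟨Su.mul (Cmb_ite _ (Su.single (Cmb_T0 _ _) 1) Su.one) (Cmb_pow hs.1 _),
      Su.mul (Cmb_ite _ (Su.single (Cmb_T0 _ _) 1) Su.one) (Cmb_pow hs.2 _)⟩

private theorem Cmb_lc {W : Finset (List Bool)} {κ : ℕ} (mu : ℕ → ℕ → ℕ) (n : ℕ) :
    Su (Cmb_T W κ) (lcP W κ mu n) :=
  Su.sum _ _ fun k hk =>
    Su.zsmul (Su.single (Cmb_T1 (y := Sum.inr k) (Finset.mem_range.1 hk)) 1) _

/-- The logarithms of the constants. -/
private theorem Cmb_lcQ {W : Finset (List Bool)} {κ : ℕ} (mu : ℕ → ℕ → ℕ) (t : Tm) :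
    Su (Cmb_T W κ) (lcQ W κ mu t) := by
  induction t with
  | one => exact Su.zero
  | var w => exact Su.zero
  | add s t _ _ => exact Cmb_lc mu _
  | mul s t hs ht => exact Su.add hs ht
  | pow a b ha _ => exact Su.mul (Cmb_nat _) ha

/-- The denominators. -/
private theorem Cmb_dq {W : Finset (List Bool)} {κ : ℕ} (t : Tm) :
    Su (Cmb_T W κ) (dq W t).1 ∧ Su (Cmb_T W κ) (dq W t).2 := by
  induction t with
  | one => exact ⟨Su.one, Su.one⟩
  | var w => exact ⟨Su.one, Su.one⟩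
  | add s t hs ht =>
    exact ⟨Su.mul hs.1 ht.1, Su.mul (Su.mul hs.1 ht.1) (Cmb_hr (.add s t)).1⟩
  | mul s t hs ht => exact ⟨Su.mul hs.1 ht.1, Su.mul hs.2 ht.2⟩
  | pow a b ha _ => exact ⟨ha.2, ha.2⟩

/-- The numerators. -/
private theorem Cmb_nq {W : Finset (List Bool)} {κ : ℕ} {mu : ℕ → ℕ → ℕ} {A : Set Tm}
    (hv : ∀ w, Tm.var w ∈ A → w ∈ W) {t : Tm} (ht : ats t ⊆ A) :
    Su (Cmb_T W κ) (nq W κ mu t).1 ∧ Su (Cmb_T W κ) (nq W κ mu t).2 := by
  induction t with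
  | one => exact ⟨Su.zero, Su.zero⟩
  | var w =>
    have h1 : Su (Cmb_T W κ) (al W w) :=
      Su.single (Cmb_T1 (y := Sum.inl w) (hv w (ht (Set.mem_singleton _)))) 1
    exact ⟨Su.mul (Su.single (Cmb_T0 _ _) 1) h1, h1⟩
  | add s t hs ht' =>
    have a1 := hs (fun x hx => ht (Or.inl hx))
    have b1 := ht' (fun x hx => ht (Or.inr hx))
    have h1 : Su (Cmb_T W κ) ((nq W κ mu s).1 * dm W t + dm W s * (nq W κ mu t).1) :=
      Su.add (Su.mul a1.1 (Cmb_dq t).1) (Su.mul (Cmb_dq s).1 b1.1)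
    exact ⟨h1, h1⟩
  | mul s t hs ht' =>
    have a1 := hs (fun x hx => ht (Or.inl hx))
    have b1 := ht' (fun x hx => ht (Or.inr hx))
    exact ⟨Su.add (Su.mul (Su.mul a1.1 (Cmb_hr t).1) (Cmb_dq t).1)
      (Su.mul (Su.mul (Cmb_hr s).1 (Cmb_dq s).1) b1.1),
      Su.add (Su.mul a1.2 (Cmb_dq t).2) (Su.mul (Cmb_dq s).2 b1.2)⟩
  | pow a b ha _ =>
    have a1 := ha (fun x hx => ht (Or.inr hx))
    have h1 : Su (Cmb_T W κ) ((if Tr a b then (rP W b - cs b) *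
        ((nq W κ mu a).2 + lcQ W κ mu a * qd W a) else 0) + cs b * (nq W κ mu a).2) :=
      Su.add (Cmb_ite _ (Su.mul (Cmb_sub (Cmb_hr b).2 (Cmb_nat _))
        (Su.add a1.2 (Su.mul (Cmb_lcQ mu a) (Cmb_dq a).2))) Su.zero)
        (Su.mul (Cmb_nat _) a1.2)
    exact ⟨Su.mul (Cmb_hr (.pow a b)).1 h1, h1⟩

/-- Which parameters occur in the numerators. -/
theorem par_cw {W : Finset (List Bool)} {n' L : ℕ} {ex : ℕ → Tm} (h : FamR W n' L ex) {κ : ℕ}
    {mu : ℕ → ℕ → ℕ} {i : ℕ} (hi : i < L) {a : ℕ} (ha : a ≤ i) :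
    ∀ g ∈ (cw W κ mu ex (i + 1) a * Dw W ex (i + 1)).coeff.support, ∀ x, g.2.2 x ≠ 0 →
      Sum.elim (fun w => w ∈ W) (fun k => k < κ) x := by
  have hph : Su (Cmb_T W κ) (pN W κ mu (ex a)) := by
    cases hx : ex a with
    | one => exact Su.zero
    | var w =>
      exact Su.single (Cmb_T1 (y := Sum.inl w) (h.var a (lt_of_le_of_lt ha hi) w hx)) 1
    | add s t => exact Su.zero
    | mul s t => exact Su.zero
    | pow s t =>
      have haL : a < L := lt_of_le_of_lt ha hi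
      have hd : Su (Cmb_T W κ) (qn W κ mu s) := by
        refine (Cmb_nq ?_ (h.at2 a haL s t hx).1).2
        rintro w ⟨b, hb, h1, -⟩
        exact h.var b (lt_trans hb haL) w h1.symm
      exact Cmb_ite _ (Su.mul (Cmb_sub (Cmb_hr t).2 (Cmb_nat _))
        (Su.add hd (Su.mul (Cmb_lcQ mu s) (Cmb_dq s).2))) Su.zero
  have h1 : Su (Cmb_T W κ) (cw W κ mu ex (i + 1) a * Dw W ex (i + 1)) :=
    Su.mul (Su.mul hph (Su.prod _ _ fun b _ => (Cmb_dq _).2))
      (Su.prod _ _ fun b _ => (Cmb_dq _).2)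
  exact fun g hg => h1 g hg

theorem cnt_comb {W : Finset (List Bool)} {L : ℕ} {ex : ℕ → Tm} {n : ℕ}
    (hF : FamR W n L ex) {e : List Bool} {v P Q : ℕ} (hp : (bval e + 2).Prime)
    (hr : 2 ^ v ≤ bval e + 2) (hr2 : 2 ^ (n + 1) < bval e + 2) {N : List (List Bool)}
    (hN : N.length ≤ n) (hNW : ∀ w ∈ W, w ∈ N) {i : ℕ} (hi : i < L) {ν : List (ℕ → ℤ)}
    (hc : Coh (fun a => lr W (ex a)) i ν) (hf : Fai (fun a => lr W (ex a)) i ν)
    (hP : ∀ row ∈ ν, ∀ a, |row a| ≤ P) (hP1 : 1 ≤ P) (hl : ν.length ≤ n)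
    {B : List (List Bool)} (hQ : 3 * (n + 1) + B.length ≤ Q) (S : Finset ℕ)
    (hS : S ⊆ range (i + 1)) (θ : ℕ → ZMod (bval e + 2))
    (hθ : ∃ g, ∑ j ∈ S, θ j *
      (((cw W B.length (muB B) ex (i + 1) j).coeff g : ℤ) : ZMod (bval e + 2)) ≠ 0) :
    2 ^ v * cnt (Q * v) (fun Z => ∑ j ∈ S, θ j * hw W e v (n + 1) N B ν ex i Z j = 0) ≤
      (2 * (2 ^ (4 * (n + 3)) * P) * Q + Q) * (2 ^ v) ^ Q := by
  classical
  have := Fact.mk hp
  obtain ⟨X, hX⟩ : ∃ X : Gx W → ZMod (bval e + 2), X = fun g => ∑ j ∈ S, θ j *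
      (((cw W B.length (muB B) ex (i + 1) j * Dw W ex (i + 1)).coeff g : ℤ) :
        ZMod (bval e + 2)) := ⟨_, rfl⟩
  obtain ⟨g0, hg0⟩ := comb_ne S θ (fun j => cw W B.length (muB B) ex (i + 1) j)
    (Dw W ex (i + 1)) hθ (Dw_ne hF.wt hr2 (i + 1))
  have hS' : ∀ j ∈ S, j ≤ i := fun j hj => Nat.lt_succ_iff.1 (Finset.mem_range.1 (hS hj))
  obtain ⟨G, hG⟩ : ∃ G : Finset (Gx W), G = S.biUnion fun j =>
    (cw W B.length (muB B) ex (i + 1) j * Dw W ex (i + 1)).coeff.support := ⟨_, rfl⟩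
  have hGsub : ∀ j ∈ S,
      (cw W B.length (muB B) ex (i + 1) j * Dw W ex (i + 1)).coeff.support ⊆ G := by
    intro j hj g hg
    rw [hG]
    exact Finset.mem_biUnion.2 ⟨j, hj, hg⟩
  have hGs : ∀ g ∈ G, ∃ j ∈ S,
      g ∈ (cw W B.length (muB B) ex (i + 1) j * Dw W ex (i + 1)).coeff.support := by
    intro g hg
    rw [hG] at hg
    exact Finset.mem_biUnion.1 hg
  have hC : ∃ g ∈ G, X g ≠ 0 := by
    refine ⟨g0, ?_, by rw [hX]; exact hg0⟩
    obtain ⟨j, hj, h1⟩ := Finset.exists_ne_zero_of_sum_ne_zero hg0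
    refine hGsub j hj (Finsupp.mem_support_iff.2 fun h2 => h1 ?_)
    rw [h2, Int.cast_zero, mul_zero]
  have hmain := laur hp hr hN hc hf hP hl (κ := B.length) hQ hP1 G X hC
    (m := 2 ^ (4 * (n + 3))) (fun g hg => by
      obtain ⟨j, hj, h1⟩ := hGs g hg
      exact dg_cw hF hi (hS' j hj) g h1) (fun g hg x hx => by
      obtain ⟨j, hj, h1⟩ := hGs g hg
      have h2 := par_cw hF hi (hS' j hj) g h1 x hx
      rcases x with w | k
      · exact hNW w h2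
      · exact h2)
  refine le_trans (Nat.mul_le_mul_left _ (Pool.Agent.TW.cnt_mono fun Z _ hZ => ?_)) hmain
  obtain ⟨F, hFz⟩ : ∃ F : Gx W → ZMod (bval e + 2), F = fz W e v (n + 1) N ν ex i Z := ⟨_, rfl⟩
  have hmo : Mo (Sg W (exA ex i)) F := by
    rw [hFz]
    exact (fit_z (B := B) hc).mo
  have suc : ∀ j ∈ S, Su (Sg W (exA ex i)) (cw W B.length (muB B) ex (i + 1) j) := by
    intro j hj
    refine Su.mul (su_cw hF hi (hS' j hj)).1 (Su.prod _ _ fun b hb => ?_)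
    exact (su_cw (κ := B.length) (mu := muB B) hF hi
      (Nat.lt_succ_iff.1 (Finset.mem_range.1 (Finset.mem_of_mem_erase hb)))).2
  have suD : Su (Sg W (exA ex i)) (Dw W ex (i + 1)) := Su.prod _ _ fun b hb =>
    (su_cw (κ := B.length) (mu := muB B) hF hi
      (Nat.lt_succ_iff.1 (Finset.mem_range.1 hb))).2
  have key : ∑ g ∈ G, X g * F g = ∑ j ∈ S, θ j *
      evl F (cw W B.length (muB B) ex (i + 1) j * Dw W ex (i + 1)) := by
    rw [hX]
    simp only [Finset.sum_mul]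
    rw [Finset.sum_comm]
    refine Finset.sum_congr rfl fun j hj => ?_
    unfold evl
    rw [Finsupp.sum_of_support_subset _ (hGsub j hj) _ (fun g _ => by
      rw [Int.cast_zero, zero_mul]), Finset.mul_sum]
    refine Finset.sum_congr rfl fun g _ => ?_
    rw [mul_assoc]
  rw [← hFz, key]
  by_cases h0 : evl F (Dw W ex (i + 1)) = 0
  · refine Finset.sum_eq_zero fun j hj => ?_
    rw [evl_mul hmo (suc j hj) suD, h0, mul_zero, mul_zero]
  · have hok : OkV W e v (n + 1) N B ν ex i Z := ok_of_Dw (B := B) hF hi hc hp (by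
      rw [← hFz]
      exact h0)
    have h3 : ∀ j ∈ S, θ j * evl F (cw W B.length (muB B) ex (i + 1) j * Dw W ex (i + 1)) =
        (θ j * hw W e v (n + 1) N B ν ex i Z j) *
          (evl F (Dw W ex (i + 1)) * evl F (Dw W ex (i + 1))) := by
      intro j hj
      have h4 := evl_cw hF hi hc hok (hS' j hj)
      rw [← hFz] at h4
      rw [evl_mul hmo (suc j hj) suD, h4]
      ring
    rw [Finset.sum_congr rfl h3, ← Finset.sum_mul, hZ, zero_mul]

end Pool.Agent.TV
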