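import Pool.Agent.H.MP_b2d7dd_lc.TD.Defs

/-!
# Definitions used in the statement

The weight of a term of high-school arithmetic in three modes. `cst`, `cs`, `lg` and `SumFree` are
defined in `Pool.Agent.TD` (module TD/Defs); the terms, their values, their strings and the class coRP
in `Pool.Agent.TI` (module TI/Defs).
-/

namespace Pool.Agent.TV

open Pool.Agent.TI Pool.Agent.TD

/-- The weight in the mode `m` (`0` = outside, `1` = in a base, `2` = inside): the number of symbols,
plus `cs t * lg s` for every power `s ^ t` in mode `2`. The exponents are in mode `2`. The summands of a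
sum are in mode `2`, but outside if the sum is outside. The factors of a product are in the mode of the
product. The bases are in mode `1`, but the base of a power with a constant exponent which is outside
is outside. -/
def wg : Tm → ℕ → ℕ
  | .one, _ => 1
  | .var _, _ => 1
  | .add s t, m => wg s (if m = 0 then 0 else 2) + wg t (if m = 0 then 0 else 2) + 1
  | .mul s t, m => wg s m + wg t m + 1
  | .pow s t, m => wg s (if m = 0 ∧ cst t = true then 0 else 1) + wg t 2 + 1 +
      if m = 2 then cs t * lg s else 0

/-- In every power `s ^ t` in mode `2` there is no addition in `s` outside of exponents, or `t` has no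
constant summand. -/
def SimG : Tm → ℕ → Prop
  | .one, _ => True
  | .var _, _ => True
  | .add s t, m => SimG s (if m = 0 then 0 else 2) ∧ SimG t (if m = 0 then 0 else 2)
  | .mul s t, m => SimG s m ∧ SimG t m
  | .pow s t, m => SimG s (if m = 0 ∧ cst t = true then 0 else 1) ∧ SimG t 2 ∧
      (m = 2 → SumFree s ∨ cs t = 0)

/-- The strings `x` of the identities `s = t` which hold in `N_HS`, where the sum of the weights of `s`
and `t` (outside) is at most the power with exponent `k` of the length of `x`. -/
def identitiesG (k : ℕ) : Set (List Bool) :=
  {x | ∃ s t : Tm, Valid s t ∧ wg s 0 + wg t 0 ≤ x.length ^ k ∧ x = s.code ++ t.code}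

end Pool.Agent.TV
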