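import Pool.Agent.H.MP_b2d7dd_lc.TD.Dl
import Pool.Agent.H.MP_b2d7dd_lc.TD.Fx
import Pool.Agent.H.MP_b2d7dd_lc.TV.Defs

/-!
# Module Dd: first order data by structure

`lcS` = the logarithm of the constant `e1`, computed from the sums. `dd P t` = the derivation and the
logarithmic derivative of a term, `pw` = the logarithmic derivative of a variable or a virtual power. If
the values are invertible and `lc` is a logarithm, then they are `dl` and `ph` of TD/Dl.
-/

namespace Pool.Agent.TV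

open Pool.Agent.TI (Tm)
open Pool.Agent.TC (Pt rf rf_pos evl Mo Su nrm Pr)
open Pool.Agent.TD

variable {K : Type} [CommRing K]

/-- The logarithm of the constant. -/
def lcS (P : Pr K) : Tm → K
  | .one => 0
  | .var _ => 0
  | .add s t => P.lc (e1 (.add s t))
  | .mul s t => lcS P s + lcS P t
  | .pow s t => cs t * lcS P s

/-- The derivation and the logarithmic derivative. -/
def dd (P : Pr K) : Tm → K × K
  | .one => (0, 0)
  | .var w => (P.f (.var w) * P.α w, P.α w)
  | .add s t => ((dd P s).1 + (dd P t).1,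
      ((dd P s).1 + (dd P t).1) * P.iv (av P.f (.add s t)))
  | .mul s t => ((dd P s).1 * av P.f t + av P.f s * (dd P t).1, (dd P s).2 + (dd P t).2)
  | .pow a b => (av P.f (.pow a b) * ((if Tr a b then (av P.g b - cs b) *
      ((dd P a).2 + lcS P a) else 0) + cs b * (dd P a).2),
      (if Tr a b then (av P.g b - cs b) * ((dd P a).2 + lcS P a) else 0) + cs b * (dd P a).2)

/-- The logarithmic derivative of a variable or of a virtual power. -/
def pw (P : Pr K) : Tm → K
  | .var w => P.α w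
  | .pow a b => if Tr a b then (av P.g b - cs b) * ((dd P a).2 + lcS P a) else 0
  | _ => 0

theorem pw_pow (P : Pr K) {a b : Tm} (h : Tr a b) :
    pw P (.pow a b) = (av P.g b - cs b) * ((dd P a).2 + lcS P a) := if_pos h

theorem pw_ntr (P : Pr K) {a b : Tm} (h : ¬ Tr a b) : pw P (.pow a b) = 0 := if_neg h

theorem dd_eq {F : Type} [Field F] {P : Pr F} (hiv : P.iv = fun x => x⁻¹)
    (hne : ∀ t : Tm, av P.f t ≠ 0)
    (hlc : ∀ m n : ℕ, m ≠ 0 → n ≠ 0 → P.lc (m * n) = P.lc m + P.lc n) (t : Tm) :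
    (dd P t).1 = dl P t ∧ (dd P t).2 = dl P t * (av P.f t)⁻¹ ∧ lcS P t = P.lc (e1 t) := by
  have hl1 : P.lc 1 = 0 := by
    have h1 := hlc 1 1 one_ne_zero one_ne_zero
    rw [mul_one] at h1
    exact left_eq_add.1 h1
  have hlp : ∀ m : ℕ, m ≠ 0 → ∀ c : ℕ, P.lc (m ^ c) = c * P.lc m := by
    intro m hm c
    induction c with
    | zero => rw [pow_zero, hl1, Nat.cast_zero, zero_mul]
    | succ c ih =>
      rw [pow_succ, hlc _ _ (pow_ne_zero _ hm) hm, ih, Nat.cast_succ]
      ring
  induction t with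
  | one => exact ⟨rfl, (zero_mul _).symm, hl1.symm⟩
  | var w =>
    refine ⟨rfl, ?_, hl1.symm⟩
    have h1 : P.f (.var w) ≠ 0 := hne (.var w)
    show P.α w = P.f (.var w) * P.α w * (P.f (.var w))⁻¹
    rw [mul_comm (P.f (.var w)), mul_assoc, mul_inv_cancel₀ h1, mul_one]
  | add s t ihs iht =>
    refine ⟨?_, ?_, rfl⟩
    · show (dd P s).1 + (dd P t).1 = dl P s + dl P t
      rw [ihs.1, iht.1]
    · show ((dd P s).1 + (dd P t).1) * P.iv (av P.f (.add s t)) =
        (dl P s + dl P t) * (av P.f (.add s t))⁻¹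
      rw [ihs.1, iht.1, hiv]
  | mul s t ihs iht =>
    refine ⟨?_, ?_, ?_⟩
    · show (dd P s).1 * av P.f t + av P.f s * (dd P t).1 =
        dl P s * av P.f t + av P.f s * dl P t
      rw [ihs.1, iht.1]
    · show (dd P s).2 + (dd P t).2 =
        (dl P s * av P.f t + av P.f s * dl P t) * (av P.f s * av P.f t)⁻¹
      have h1 := hne s
      have h2 := hne t
      rw [ihs.2.1, iht.2.1]
      field_simp
    · show lcS P s + lcS P t = P.lc (e1 s * e1 t)
      rw [hlc _ _ (Nat.one_le_iff_ne_zero.1 (e1_pos s)) (Nat.one_le_iff_ne_zero.1 (e1_pos t)),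
        ihs.2.2, iht.2.2]
  | pow a b iha _ =>
    have h1 := hne a
    have h2 : av P.f (.pow a b) ≠ 0 := hne (.pow a b)
    have h3 : av P.f (.pow a b) = (if Tr a b then P.f (.pow a b) else 1) * av P.f a ^ cs b := rfl
    have h4 : (dd P (.pow a b)).1 = av P.f (.pow a b) * (dd P (.pow a b)).2 := rfl
    have h5 : (cs b : F) * av P.f a ^ cs b * (av P.f a)⁻¹ = cs b * av P.f a ^ (cs b - 1) := by
      rcases Nat.eq_zero_or_pos (cs b) with h6 | h6
      · rw [h6, Nat.cast_zero, zero_mul, zero_mul]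
      · have h7 : av P.f a ^ cs b = av P.f a ^ (cs b - 1) * av P.f a := by
          rw [← pow_succ, Nat.sub_add_cancel h6]
        rw [h7, mul_assoc, mul_assoc, mul_inv_cancel₀ h1, mul_one]
    have h6 : (dd P (.pow a b)).1 = dl P (.pow a b) := by
      show av P.f (.pow a b) * ((if Tr a b then (av P.g b - cs b) *
        ((dd P a).2 + lcS P a) else 0) + cs b * (dd P a).2) =
        (if Tr a b then P.f (.pow a b) else 1) *
      ((if Tr a b then (av P.g b - cs b) * (dl P a * P.iv (av P.f a) + P.lc (e1 a)) else 0) *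
        av P.f a ^ cs b + cs b * av P.f a ^ (cs b - 1) * dl P a)
      rw [h3, iha.2.1, iha.2.2, hiv, ← h5]
      ring
    refine ⟨h6, ?_, ?_⟩
    · rw [← h6, h4, mul_comm (av P.f (.pow a b)), mul_assoc, mul_inv_cancel₀ h2, mul_one]
    · show (cs b : F) * lcS P a = P.lc (e1 a ^ cs b)
      rw [hlp _ (Nat.one_le_iff_ne_zero.1 (e1_pos a)), iha.2.2]

theorem pw_eq {F : Type} [Field F] {P : Pr F} (hiv : P.iv = fun x => x⁻¹)
    (hne : ∀ t : Tm, av P.f t ≠ 0)
    (hlc : ∀ m n : ℕ, m ≠ 0 → n ≠ 0 → P.lc (m * n) = P.lc m + P.lc n) (t : Tm) :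
    pw P t = ph P t := by
  cases t with
  | one => rfl
  | var w => rfl
  | add s t => rfl
  | mul s t => rfl
  | pow a b =>
    obtain ⟨-, h1, h2⟩ := dd_eq hiv hne hlc a
    show (if Tr a b then (av P.g b - cs b) * ((dd P a).2 + lcS P a) else 0) =
      if Tr a b then (av P.g b - cs b) * (dl P a * P.iv (av P.f a) + P.lc (e1 a)) else 0
    rw [h1, h2, hiv]

end Pool.Agent.TV
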