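import Pool.Agent.H.MP_b2d7dd_lc.TV.Snd
import Pool.Agent.H.MP_b2d7dd_lc.TQ.FinC

/-!
# Module FinC: the last comparison

Compare TQ, TD/FinC. The exponents of `rp u` are sums of at most `2 ^ wg u 0` logarithms of atoms; the
coefficients may be doubly exponential, so the prime number must not divide all differences.
-/

namespace Pool.Agent.TV

open Pool.Agent.TI (Tm Tok names Valid)
open Pool.Agent.TE (bl)
open Pool.Agent.TW (SI irow cnt)
open Pool.Agent.TC (Pt rf rf_pos evl Mo Su nrm Pr Gx Lx h1 h2 al ga lcP MB Vn Coh Fai Eqv Bas crd chi)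
open Pool.Agent.TC (muB Pb Stk subs exF cob eN eP uu vv Kc Qw Rr kk SS AA KK)
open Pool.Agent.TD hiding nxt tabI fin1 test0 test1 accept acceptT lv h0 nxt_coh tabI_bound tabI_coh fin1_iff test0_valid final_cnt
open Pool.Agent.H.MP_5be563_lc.PT Finset

/-- The terms are different modulo `r`. -/
def Dif (s t : Tm) (r : ℕ) : Prop :=
  ∃ g, (((rp (Wn s t) s).coeff g : ℤ) : ZMod r) ≠ (((rp (Wn s t) t).coeff g : ℤ) : ZMod r)

private theorem FinC_names (T : List Tok) : (names T).length ≤ T.length := by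
  unfold names
  rw [List.length_map]
  exact List.length_filter_le _ _

/-- Exponents which are sums of at most `m` logarithms. -/
private def FinC_D (W : Finset (List Bool)) (A : Set Tm) (m : ℕ)
    (P : AddMonoidAlgebra ℤ (Pt W → ℝ)) : Prop :=
  ∀ g ∈ P.coeff.support, ∃ l : List (Pt W → ℝ), l.length ≤ m ∧
    (∀ v ∈ l, v ∈ lr W '' A) ∧ g = l.sum

private theorem FinC_mono {W : Finset (List Bool)} {A : Set Tm} {m m' : ℕ}
    {P : AddMonoidAlgebra ℤ (Pt W → ℝ)} (h : FinC_D W A m P) (hm : m ≤ m') :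
    FinC_D W A m' P := by
  intro g hg
  obtain ⟨l, h1, h2, h3⟩ := h g hg
  exact ⟨l, h1.trans hm, h2, h3⟩

private theorem FinC_add {W : Finset (List Bool)} {A : Set Tm} {m : ℕ}
    {P Q : AddMonoidAlgebra ℤ (Pt W → ℝ)} (hP : FinC_D W A m P) (hQ : FinC_D W A m Q) :
    FinC_D W A m (P + Q) := by
  classical
  intro g hg
  rw [AddMonoidAlgebra.coeff_add] at hg
  rcases Finset.mem_union.1 (Finsupp.support_add hg) with h | h
  · exact hP g h
  · exact hQ g h

private theorem FinC_mul {W : Finset (List Bool)} {A : Set Tm} {m m' : ℕ}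
    {P Q : AddMonoidAlgebra ℤ (Pt W → ℝ)} (hP : FinC_D W A m P) (hQ : FinC_D W A m' Q) :
    FinC_D W A (m + m') (P * Q) := by
  classical
  intro g hg
  obtain ⟨a, ha, b, hb, rfl⟩ :=
    Finset.mem_add.1 (AddMonoidAlgebra.support_coeff_mul_subset _ _ hg)
  obtain ⟨l, h1, h2, h3⟩ := hP a ha
  obtain ⟨k, i1, i2, i3⟩ := hQ b hb
  refine ⟨l ++ k, ?_, ?_, ?_⟩
  · rw [List.length_append]
    exact Nat.add_le_add h1 i1
  · intro v hv
    rcases List.mem_append.1 hv with h | h
    · exact h2 v h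
    · exact i2 v h
  · rw [List.sum_append, ← h3, ← i3]

private theorem FinC_one {W : Finset (List Bool)} {A : Set Tm} {m : ℕ} :
    FinC_D W A m (1 : AddMonoidAlgebra ℤ (Pt W → ℝ)) := by
  intro g hg
  rw [AddMonoidAlgebra.one_def, AddMonoidAlgebra.coeff_single] at hg
  have e := Finset.mem_singleton.1 (Finsupp.support_single_subset hg)
  exact ⟨[], Nat.zero_le _, by simp, by rw [e, List.sum_nil]⟩

private theorem FinC_lr {W : Finset (List Bool)} {A : Set Tm} {u : Tm} (hu : u ∈ A) :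
    FinC_D W A 1 (AddMonoidAlgebra.single (lr W u) 1) := by
  intro g hg
  rw [AddMonoidAlgebra.coeff_single] at hg
  have e := Finset.mem_singleton.1 (Finsupp.support_single_subset hg)
  refine ⟨[lr W u], le_refl 1, ?_, by rw [e, List.sum_singleton]⟩
  intro v hv
  rw [List.mem_singleton.1 hv]
  exact Set.mem_image_of_mem _ hu

private theorem FinC_pow {W : Finset (List Bool)} {A : Set Tm} {m : ℕ}
    {P : AddMonoidAlgebra ℤ (Pt W → ℝ)} (hP : FinC_D W A m P) (k : ℕ) :
    FinC_D W A (k * m) (P ^ k) := by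
  induction k with
  | zero =>
    rw [pow_zero]
    exact FinC_one
  | succ k ih =>
    rw [pow_succ]
    exact FinC_mono (FinC_mul ih hP) (le_of_eq (by ring))

private theorem FinC_le {x y : ℕ} (h : x ≤ y) : 2 ^ x ≤ 2 ^ y :=
  Nat.pow_le_pow_right (by norm_num) h

/-- The exponents of the element of the monoid ring are sums of at most `2 ^ wg u 0` logarithms. -/
private theorem FinC_dg {W : Finset (List Bool)} {A : Set Tm} {u : Tm} (hu : ats u ⊆ A) :
    FinC_D W A (2 ^ wg u 0) (rp W u) := by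
  classical
  induction u with
  | one => exact FinC_one
  | var w => exact FinC_mono (FinC_lr (hu (Set.mem_singleton _))) Nat.one_le_two_pow
  | add s t ihs iht =>
    exact FinC_add (FinC_mono (ihs (Set.subset_union_left.trans hu))
      (FinC_le (by show wg s 0 ≤ wg s 0 + wg t 0 + 1; omega)))
      (FinC_mono (iht (Set.subset_union_right.trans hu))
        (FinC_le (by show wg t 0 ≤ wg s 0 + wg t 0 + 1; omega)))
  | mul s t ihs iht =>
    refine FinC_mono (FinC_mul (ihs (Set.subset_union_left.trans hu))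
      (iht (Set.subset_union_right.trans hu))) ?_
    have h1 : 2 ^ wg s 0 ≤ 2 ^ (wg s 0 + wg t 0) := FinC_le (by omega)
    have h2 : 2 ^ wg t 0 ≤ 2 ^ (wg s 0 + wg t 0) := FinC_le (by omega)
    show 2 ^ wg s 0 + 2 ^ wg t 0 ≤ 2 ^ (wg s 0 + wg t 0 + 1)
    rw [pow_succ]
    omega
  | pow s t ihs _ =>
    have hs : FinC_D W A (2 ^ wg s 0) (rp W s) := ihs fun x hx => hu (Or.inr hx)
    have h1 : FinC_D W A 1 (AddMonoidAlgebra.single (lr W (.pow s t)) 1) := by
      by_cases hT : Tr s t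
      · exact FinC_lr (hu (Or.inl ⟨rfl, hT⟩))
      · rw [lr_zero hT]
        exact FinC_one
    refine FinC_mono (FinC_mul h1 (FinC_pow hs (cs t))) ?_
    have h2 : cs t ≤ 2 ^ wg t 2 := cs_le2 t
    have h3 : cs t * 2 ^ wg s 0 ≤ 2 ^ (wg s 0 + wg t 2) := by
      rw [pow_add, mul_comm]
      exact Nat.mul_le_mul_left _ h2
    have h4 : 1 ≤ 2 ^ (wg s 0 + wg t 2) := Nat.one_le_two_pow
    have h5 : 2 ^ (wg s 0 + wg t 2 + 1) ≤ 2 ^ wg (.pow s t) 0 := by
      refine FinC_le ?_
      have h6 := wg01 s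
      have h7 : wg s 0 ≤ wg s (if (0 : ℕ) = 0 ∧ cst t = true then 0 else 1) := by
        split_ifs
        · exact le_rfl
        · exact h6
      show wg s 0 + wg t 2 + 1 ≤ wg s (if (0 : ℕ) = 0 ∧ cst t = true then 0 else 1) + wg t 2 + 1 +
        if (0 : ℕ) = 2 then cs t * lg s else 0
      omega
    rw [pow_succ] at h5
    omega

private theorem FinC_evl {M : Type} [AddCommMonoid M] {K : Type} [CommRing K] (f : M → K)
    (P : AddMonoidAlgebra ℤ M) {s : Finset M} (h : P.coeff.support ⊆ s) :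
    evl f P = ∑ g ∈ s, (P.coeff g : K) * f g := by
  unfold evl
  exact Finsupp.sum_of_support_subset _ h _ (fun g _ => by rw [Int.cast_zero, zero_mul])

theorem final_cnt {n : ℕ} {s t : Tm} (hn : wg s 0 + wg t 0 ≤ n)
    {e : List Bool} (hd : Dif s t (bval e + 2)) (he : 2 ^ vv n ≤ bval e)
    (hp : (bval e + 2).Prime) {tab : List (List SI)}
    (hc : Coh (lv n s t) (s.sz + t.sz) (tab.map irow))
    (hf : Fai (lv n s t) (s.sz + t.sz) (tab.map irow))
    (hP : ∀ row ∈ tab.map irow, ∀ a, |row a| ≤ (2 ^ eP n : ℕ)) (hl : tab.length ≤ n) :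
    8 * cnt (SS n) (fun zz => fin1 n e (names (s.toks ++ t.toks))
      (baseV n (zf n (s.toks ++ t.toks))) (zf n (s.toks ++ t.toks)) tab zz = true) ≤
        2 ^ SS n := by
  classical
  have hs2 := sz_le_wg s 0
  have ht2 := sz_le_wg t 0
  have hN : (names (s.toks ++ t.toks)).length ≤ n := by
    refine (FinC_names _).trans ?_
    rw [List.length_append, Tm.length_toks, Tm.length_toks]
    omega
  have hvn := Pool.Agent.TC.vv_ge n
  obtain ⟨g0, hg0⟩ := hd
  obtain ⟨G0, hG0⟩ : ∃ G0, G0 = (rp (Wn s t) s).coeff.support ∪ (rp (Wn s t) t).coeff.support :=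
    ⟨_, rfl⟩
  have hinj : Function.Injective (fun g : Pt (Wn s t) → ℝ => ((g, 0, 0) : Gx (Wn s t))) := by
    intro a b h
    exact congrArg Prod.fst h
  have key := laur (W := Wn s t) (ex := exT n s t) (i := s.sz + t.sz) (e := e) (v := vv n) (n := n)
    (P := 2 ^ eP n) (m := 2 ^ n) (Q := Qw n) hp (by omega) hN (ν := tab.map irow) hc hf hP
    (by rw [List.length_map]; exact hl) (κ := 0) (by unfold Qw; omega) Nat.one_le_two_pow
    (G0.image fun g => (g, 0, 0))
    (fun g => (((rp (Wn s t) s).coeff g.1 : ℤ) : ZMod (bval e + 2)) -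
      (((rp (Wn s t) t).coeff g.1 : ℤ) : ZMod (bval e + 2)))
    (by
      refine ⟨(g0, 0, 0), Finset.mem_image_of_mem _ ?_, sub_ne_zero.2 hg0⟩
      rw [hG0, Finset.mem_union]
      by_contra h
      rw [not_or] at h
      apply hg0
      rw [Finsupp.notMem_support_iff.1 h.1, Finsupp.notMem_support_iff.1 h.2])
    (by
      intro g hg
      obtain ⟨g', hg', rfl⟩ := Finset.mem_image.1 hg
      have h1 : ∃ l : List (Pt (Wn s t) → ℝ), l.length ≤ 2 ^ n ∧
          (∀ v ∈ l, v ∈ lr (Wn s t) '' exA (exT n s t) (s.sz + t.sz)) ∧ g' = l.sum := by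
        rw [hG0] at hg'
        rcases Finset.mem_union.1 hg' with h | h
        · obtain ⟨l, h1, h2, h3⟩ := FinC_dg (ats_exT hn (Or.inl rfl)) g' h
          exact ⟨l, h1.trans (FinC_le (by omega)), h2, h3⟩
        · obtain ⟨l, h1, h2, h3⟩ := FinC_dg (ats_exT hn (Or.inr rfl)) g' h
          exact ⟨l, h1.trans (FinC_le (by omega)), h2, h3⟩
      obtain ⟨l, h2, h3, h4⟩ := h1
      exact ⟨l, [], h2, Nat.zero_le _, h3, by simp, h4, by rw [List.sum_nil],
        fun x => Nat.zero_le _⟩)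
    (by
      intro g hg x hx
      obtain ⟨g', hg', rfl⟩ := Finset.mem_image.1 hg
      exact absurd rfl hx)
  obtain ⟨A, hA⟩ : ∃ A, A = Qw n * vv n := ⟨_, rfl⟩
  obtain ⟨C, hC⟩ : ∃ C, C = cnt A (fun Z => h0 n e s t (tab) Z s = h0 n e s t tab Z t) :=
    ⟨_, rfl⟩
  have e1' : C ≤ cnt (Qw n * vv n) (fun Z => ∑ g ∈ G0.image (fun g => ((g, 0, 0) : Gx (Wn s t))),
      ((((rp (Wn s t) s).coeff g.1 : ℤ) : ZMod (bval e + 2)) -
        (((rp (Wn s t) t).coeff g.1 : ℤ) : ZMod (bval e + 2))) *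
        fz (Wn s t) e (vv n) (n + 1) (names (s.toks ++ t.toks)) (tab.map irow) (exT n s t)
          (s.sz + t.sz) Z g = 0) := by
    rw [hC, hA]
    refine Pool.Agent.TW.cnt_mono fun Z _ hZ => ?_
    rw [Finset.sum_image (fun a _ b _ h => hinj h)]
    have h1 : ∀ g ∈ G0, ((((rp (Wn s t) s).coeff g : ℤ) : ZMod (bval e + 2)) -
        (((rp (Wn s t) t).coeff g : ℤ) : ZMod (bval e + 2))) *
        fz (Wn s t) e (vv n) (n + 1) (names (s.toks ++ t.toks)) (tab.map irow) (exT n s t)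
          (s.sz + t.sz) Z (g, 0, 0) =
        (((rp (Wn s t) s).coeff g : ℤ) : ZMod (bval e + 2)) *
          chi (fun b => Pool.Agent.TW.wun e (bl (vv n) Z b)) (tab.map irow) (lv n s t)
            (s.sz + t.sz) g -
        (((rp (Wn s t) t).coeff g : ℤ) : ZMod (bval e + 2)) *
          chi (fun b => Pool.Agent.TW.wun e (bl (vv n) Z b)) (tab.map irow) (lv n s t)
            (s.sz + t.sz) g := by
      intro g _
      have h2 : fz (Wn s t) e (vv n) (n + 1) (names (s.toks ++ t.toks)) (tab.map irow) (exT n s t)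
          (s.sz + t.sz) Z (g, 0, 0) = chi (fun b => Pool.Agent.TW.wun e (bl (vv n) Z b))
            (tab.map irow) (lv n s t) (s.sz + t.sz) g := by
        show chi _ (tab.map irow) (fun a => lr (Wn s t) (exT n s t a)) (s.sz + t.sz) g *
          chi _ (tab.map irow) (fun a => lr (Wn s t) (exT n s t a)) (s.sz + t.sz) 0 *
          (0 : (List Bool ⊕ ℕ) →₀ ℕ).prod _ = _
        rw [Pool.Agent.TC.chi_zero _ hc, Finsupp.prod_zero_index, mul_one, mul_one]
      rw [h2]
      ring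
    rw [Finset.sum_congr rfl h1, Finset.sum_sub_distrib, sub_eq_zero]
    have h3 : h0 n e s t tab Z s = _ := FinC_evl _ (rp (Wn s t) s) (s := G0) (by
      rw [hG0]
      exact Finset.subset_union_left)
    have h4 : h0 n e s t tab Z t = _ := FinC_evl _ (rp (Wn s t) t) (s := G0) (by
      rw [hG0]
      exact Finset.subset_union_right)
    rw [← h3, ← h4]
    exact hZ
  have hAa : 2 * (2 ^ n * 2 ^ eP n) * Qw n + Qw n ≤ Aa n := by
    unfold Aa Ee
    have h1 : 2 ^ n ≤ 2 ^ (4 * (n + 3)) := FinC_le (by omega)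
    have h2 := Nat.mul_le_mul_right (2 ^ eP n) h1
    exact Nat.add_le_add_right (Nat.mul_le_mul_right _ (Nat.mul_le_mul_left _ h2)) _
  have e2 : 2 ^ vv n * C ≤ Aa n * 2 ^ A := by
    refine (Nat.mul_le_mul_left _ e1').trans (key.trans ?_)
    rw [hA, ← pow_mul, mul_comm (vv n)]
    exact Nat.mul_le_mul_right _ hAa
  have e3 : 8 * C ≤ 2 ^ A := by
    have h1 : 2 ^ vv n * (8 * C) ≤ 2 ^ vv n * 2 ^ A := by
      calc 2 ^ vv n * (8 * C) = 8 * (2 ^ vv n * C) := by ring
        _ ≤ 8 * (Aa n * 2 ^ A) := Nat.mul_le_mul_left _ e2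
        _ = (8 * Aa n) * 2 ^ A := by ring
        _ ≤ 2 ^ vv n * 2 ^ A := Nat.mul_le_mul_right _ (par_fin n)
    exact Nat.le_of_mul_le_mul_left h1 (by positivity)
  have e4 : SS n = A + (Rr n - 1) * A := by
    unfold SS Rr
    rw [← hA]
    have : 6 * (n + 1) = 1 + (6 * (n + 1) - 1) := by omega
    conv_lhs => rw [this, add_mul, one_mul]
  have e5 : cnt (SS n) (fun zz => fin1 n e (names (s.toks ++ t.toks))
      (baseV n (zf n (s.toks ++ t.toks)))
      (zf n (s.toks ++ t.toks)) tab zz = true) ≤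
      C * 2 ^ ((Rr n - 1) * A) := by
    rw [hC, ← Pool.Agent.TW.cnt_take, e4]
    refine Pool.Agent.TW.cnt_mono fun zz _ hz => ?_
    have h1 := (fin1_iff hn e (names (s.toks ++ t.toks)) hc zz).1 hz
    unfold bl at h1
    rw [zero_mul, List.drop_zero] at h1
    rw [hA]
    exact h1
  calc 8 * cnt (SS n) (fun zz => fin1 n e (names (s.toks ++ t.toks))
        (baseV n (zf n (s.toks ++ t.toks)))
      (zf n (s.toks ++ t.toks)) tab zz = true)
      ≤ 8 * (C * 2 ^ ((Rr n - 1) * A)) := Nat.mul_le_mul_left _ e5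
    _ = (8 * C) * 2 ^ ((Rr n - 1) * A) := by ring
    _ ≤ 2 ^ A * 2 ^ ((Rr n - 1) * A) := Nat.mul_le_mul_right _ e3
    _ = 2 ^ SS n := by rw [e4, pow_add]

end Pool.Agent.TV
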