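import Pool.Agent.H.MP_b2d7dd_lc.TC.Stk
import Pool.Agent.H.MP_b2d7dd_lc.TD.Hp
import Pool.Agent.H.MP_b2d7dd_lc.TV.Defs

/-!
# Module Wg: the weights

`ad t` = the sums in `t` outside of exponents. `thr n u` = `u` if its weight in mode `1` is at most `n`,
otherwise `1`. `exT n s t` = the family of these subterms of an identity. `Gd n u`: what is used about
the subterms of the terms of weight at most `n` (mode `0`).
-/

namespace Pool.Agent.TV

open Pool.Agent.TI (Tm Tok names Tm.toks)
open Pool.Agent.TC (Stk subs exF length_subs stk_pair)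
open Pool.Agent.TD (cs lg wt big cst SumFree Sim Tr ats e1)

/-- The sums outside of exponents. -/
def ad : Tm → Set Tm
  | .one => ∅
  | .var _ => ∅
  | .add s t => insert (.add s t) (ad s ∪ ad t)
  | .mul s t => ad s ∪ ad t
  | .pow s _ => ad s

/-- The term if its weight in mode `1` is at most `n`, otherwise `1`. -/
def thr (n : ℕ) (u : Tm) : Tm := if wg u 1 ≤ n then u else .one

/-- The subterms of small weight. -/
def exT (n : ℕ) (s t : Tm) (a : ℕ) : Tm := thr n (exF s t a)

/-- Properties of the subterms. -/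
def Gd (n : ℕ) (u : Tm) : Prop :=
  wg u 0 ≤ n ∧ ∀ a b, u = .pow a b → wg b 2 ≤ n ∧ (Tr a b → wg u 1 ≤ n)

private theorem Wg_add (s t : Tm) (m : ℕ) : wg (.add s t) m =
    wg s (if m = 0 then 0 else 2) + wg t (if m = 0 then 0 else 2) + 1 := rfl

private theorem Wg_add0 (s t : Tm) : wg (.add s t) 0 = wg s 0 + wg t 0 + 1 := rfl

private theorem Wg_add1 (s t : Tm) : wg (.add s t) 1 = wg s 2 + wg t 2 + 1 := rfl

private theorem Wg_add2 (s t : Tm) : wg (.add s t) 2 = wg s 2 + wg t 2 + 1 := rfl

private theorem Wg_mul (s t : Tm) (m : ℕ) : wg (.mul s t) m = wg s m + wg t m + 1 := rfl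

private theorem Wg_pow (s t : Tm) (m : ℕ) : wg (.pow s t) m =
    wg s (if m = 0 ∧ cst t = true then 0 else 1) + wg t 2 + 1 +
      if m = 2 then cs t * lg s else 0 := rfl

private theorem Wg_pow0 {t : Tm} (s : Tm) (h : cst t = true) :
    wg (.pow s t) 0 = wg s 0 + wg t 2 + 1 := by
  rw [Wg_pow, if_pos ⟨rfl, h⟩, if_neg (by norm_num)]

private theorem Wg_pow0' {t : Tm} (s : Tm) (h : ¬ cst t = true) :
    wg (.pow s t) 0 = wg s 1 + wg t 2 + 1 := by
  rw [Wg_pow, if_neg (fun hh => h hh.2), if_neg (by norm_num)]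

private theorem Wg_pow1 (s t : Tm) : wg (.pow s t) 1 = wg s 1 + wg t 2 + 1 := by
  rw [Wg_pow, if_neg (fun hh => absurd hh.1 (by norm_num)), if_neg (by norm_num)]

private theorem Wg_pow2 (s t : Tm) :
    wg (.pow s t) 2 = wg s 1 + wg t 2 + 1 + cs t * lg s := by
  rw [Wg_pow, if_neg (fun hh => absurd hh.1 (by norm_num)), if_pos rfl]

private theorem Wg_both (t : Tm) : wg t 0 ≤ wg t 1 ∧ wg t 1 ≤ wg t 2 := by
  induction t with
  | one => exact ⟨le_rfl, le_rfl⟩
  | var w => exact ⟨le_rfl, le_rfl⟩
  | add s t hs ht =>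
    rw [Wg_add0, Wg_add1, Wg_add2]
    omega
  | mul s t hs ht =>
    rw [Wg_mul, Wg_mul, Wg_mul]
    omega
  | pow s t hs ht =>
    refine ⟨?_, ?_⟩
    · by_cases hc : cst t = true
      · rw [Wg_pow0 s hc, Wg_pow1]
        omega
      · rw [Wg_pow0' s hc, Wg_pow1]
    · rw [Wg_pow1, Wg_pow2]
      omega

private theorem Wg_sumFree {t : Tm} (h : SumFree t) : lg t = 0 := by
  induction t with
  | one => rfl
  | var w => rfl
  | add s t _ _ => exact absurd h (fun hh => hh)
  | mul s t hs ht =>
    show lg s + lg t = 0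
    rw [hs h.1, ht h.2]
  | pow s t hs _ =>
    have h' : SumFree s := h
    show cs t * lg s = 0
    rw [hs h', mul_zero]

theorem wg01 (t : Tm) : wg t 0 ≤ wg t 1 := (Wg_both t).1

theorem wg12 (t : Tm) : wg t 1 ≤ wg t 2 := (Wg_both t).2

theorem wg_le (t : Tm) (m : ℕ) : wg t m ≤ wt t := by
  induction t generalizing m with
  | one => exact le_rfl
  | var w => exact le_rfl
  | add s t hs ht =>
    rw [Wg_add]
    have h1 := hs (if m = 0 then 0 else 2)
    have h2 := ht (if m = 0 then 0 else 2)
    have e : wt (.add s t) = wt s + wt t + 1 := rfl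
    omega
  | mul s t hs ht =>
    rw [Wg_mul]
    have h1 := hs m
    have h2 := ht m
    have e : wt (.mul s t) = wt s + wt t + 1 := rfl
    omega
  | pow s t hs ht =>
    rw [Wg_pow]
    have h1 := hs (if m = 0 ∧ cst t = true then 0 else 1)
    have h2 := ht 2
    have h3 : (if m = 2 then cs t * lg s else 0) ≤ cs t * lg s := by
      split_ifs
      · exact le_rfl
      · exact Nat.zero_le _
    have e : wt (.pow s t) = wt s + wt t + 1 + cs t * lg s := rfl
    rw [e]
    omega

theorem sz_le_wg (t : Tm) (m : ℕ) : t.sz ≤ wg t m := by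
  induction t generalizing m with
  | one => exact le_rfl
  | var w => exact le_rfl
  | add s t hs ht =>
    rw [Wg_add]
    have h1 := hs (if m = 0 then 0 else 2)
    have h2 := ht (if m = 0 then 0 else 2)
    have e : (Tm.add s t).sz = s.sz + t.sz + 1 := rfl
    omega
  | mul s t hs ht =>
    rw [Wg_mul]
    have h1 := hs m
    have h2 := ht m
    have e : (Tm.mul s t).sz = s.sz + t.sz + 1 := rfl
    omega
  | pow s t hs ht =>
    rw [Wg_pow]
    have h1 := hs (if m = 0 ∧ cst t = true then 0 else 1)
    have h2 := ht 2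
    have e : (Tm.pow s t).sz = s.sz + t.sz + 1 := rfl
    omega

theorem wg_pos (t : Tm) (m : ℕ) : 1 ≤ wg t m := by
  cases t with
  | one => exact le_rfl
  | var w => exact le_rfl
  | add s t =>
    rw [Wg_add]
    omega
  | mul s t =>
    rw [Wg_mul]
    omega
  | pow s t =>
    rw [Wg_pow]
    omega

theorem sim_simG {t : Tm} (h : Sim t) (m : ℕ) : SimG t m := by
  induction t generalizing m with
  | one => exact trivial
  | var w => exact trivial
  | add s t hs ht => exact ⟨hs h.1 _, ht h.2 _⟩
  | mul s t hs ht => exact ⟨hs h.1 _, ht h.2 _⟩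
  | pow s t hs ht => exact ⟨hs h.2.1 _, ht h.2.2 _, fun _ => h.1⟩

theorem simG_wg {t : Tm} {m : ℕ} (h : SimG t m) : wg t m = t.sz := by
  induction t generalizing m with
  | one => rfl
  | var w => rfl
  | add s t hs ht =>
    rw [Wg_add, hs h.1, ht h.2]
    rfl
  | mul s t hs ht =>
    rw [Wg_mul, hs h.1, ht h.2]
    rfl
  | pow s t hs ht =>
    have h3 : (if m = 2 then cs t * lg s else 0) = 0 := by
      split_ifs with hm
      · rcases h.2.2 hm with h4 | h4
        · rw [Wg_sumFree h4, mul_zero]
        · rw [h4, zero_mul]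
      · rfl
    rw [Wg_pow, hs h.1, ht h.2.1, h3]
    rfl

theorem lg_le2 (t : Tm) : lg t ≤ wg t 2 := by
  induction t with
  | one => exact Nat.zero_le _
  | var w => exact Nat.zero_le _
  | add s t hs ht =>
    rw [Wg_add2]
    have e : lg (.add s t) = lg s + lg t + 1 := rfl
    omega
  | mul s t hs ht =>
    rw [Wg_mul]
    have e : lg (.mul s t) = lg s + lg t := rfl
    omega
  | pow s t _ _ =>
    rw [Wg_pow2]
    have e : lg (.pow s t) = cs t * lg s := rfl
    rw [e]
    omega

/-- The number of summands is at most doubly exponential. -/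
theorem lg_le0 (t : Tm) : lg t ≤ 2 ^ wg t 0 := by
  have key : ∀ a b : ℕ, 1 ≤ a → 1 ≤ b → 2 ^ a + 2 ^ b + 1 ≤ 2 ^ (a + b + 1) := by
    intro a b ha hb
    have h1 : 2 * 2 ^ a ≤ 2 ^ (a + b) := by
      rw [mul_comm, ← pow_succ]
      exact Nat.pow_le_pow_right two_pos (by omega)
    have h2 : 2 * 2 ^ b ≤ 2 ^ (a + b) := by
      rw [mul_comm, ← pow_succ]
      exact Nat.pow_le_pow_right two_pos (by omega)
    have h3 : 1 ≤ 2 ^ (a + b) := Nat.one_le_two_pow
    rw [pow_succ]
    omega
  induction t with
  | one => exact Nat.zero_le _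
  | var w => exact Nat.zero_le _
  | add s t hs ht =>
    show lg s + lg t + 1 ≤ 2 ^ (wg s 0 + wg t 0 + 1)
    have := key _ _ (wg_pos s 0) (wg_pos t 0)
    omega
  | mul s t hs ht =>
    show lg s + lg t ≤ 2 ^ (wg s 0 + wg t 0 + 1)
    have := key _ _ (wg_pos s 0) (wg_pos t 0)
    omega
  | pow s t hs _ =>
    have h1 : cs t ≤ 2 ^ wg t 2 :=
      (Pool.Agent.TD.cs_le t).trans (Nat.pow_le_pow_right two_pos (lg_le2 t))
    show cs t * lg s ≤ _
    refine (Nat.mul_le_mul h1 hs).trans ?_
    rw [← pow_add]
    have h2 := wg01 s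
    by_cases hc : cst t = true
    · rw [Wg_pow0 s hc]
      exact Nat.pow_le_pow_right two_pos (by omega)
    · rw [Wg_pow0' s hc]
      exact Nat.pow_le_pow_right two_pos (by omega)

theorem cs_le2 (t : Tm) : cs t ≤ 2 ^ wg t 2 :=
  (Pool.Agent.TD.cs_le t).trans (Nat.pow_le_pow_right two_pos (lg_le2 t))

/-- Sums have the same weight in modes `1` and `2`. -/
theorem wg_add (s t : Tm) : wg (.add s t) 1 = wg s 2 + wg t 2 + 1 ∧
    wg (.add s t) 2 = wg s 2 + wg t 2 + 1 := ⟨rfl, rfl⟩

private theorem Wg_gd1 {t u : Tm} {n : ℕ} (ht : wg t 1 ≤ n) (h : u ∈ subs t) : Gd n u := by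
  induction t with
  | one =>
    rw [List.mem_singleton.1 h]
    exact ⟨ht, fun a b hab => absurd hab (by simp)⟩
  | var w =>
    rw [List.mem_singleton.1 h]
    exact ⟨ht, fun a b hab => absurd hab (by simp)⟩
  | add s t hs ht' =>
    rw [Wg_add1] at ht
    have h1 := wg12 s
    have h2 := wg12 t
    have h3 := wg01 s
    have h4 := wg01 t
    simp only [subs, List.mem_append, List.mem_singleton] at h
    rcases h with (h | h) | h
    · exact ht' (by omega) h
    · exact hs (by omega) h
    · rw [h]
      refine ⟨?_, fun a b hab => absurd hab (by simp)⟩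
      rw [Wg_add0]
      omega
  | mul s t hs ht' =>
    rw [Wg_mul] at ht
    have h3 := wg01 s
    have h4 := wg01 t
    simp only [subs, List.mem_append, List.mem_singleton] at h
    rcases h with (h | h) | h
    · exact ht' (by omega) h
    · exact hs (by omega) h
    · rw [h]
      refine ⟨?_, fun a b hab => absurd hab (by simp)⟩
      rw [Wg_mul]
      omega
  | pow s t hs ht' =>
    have h0 := wg01 (.pow s t)
    have ht2 := ht
    rw [Wg_pow1] at ht
    have h1 := wg12 t
    simp only [subs, List.mem_append, List.mem_singleton] at h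
    rcases h with (h | h) | h
    · exact ht' (by omega) h
    · exact hs (by omega) h
    · rw [h]
      refine ⟨h0.trans ht2, fun a b hab => ?_⟩
      injection hab with e1 e2
      rw [← e2]
      exact ⟨by omega, fun _ => ht2⟩

theorem gd_subs {t u : Tm} {n : ℕ} (ht : wg t 0 ≤ n) (h : u ∈ subs t) : Gd n u := by
  induction t with
  | one =>
    rw [List.mem_singleton.1 h]
    exact ⟨ht, fun a b hab => absurd hab (by simp)⟩
  | var w =>
    rw [List.mem_singleton.1 h]
    exact ⟨ht, fun a b hab => absurd hab (by simp)⟩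
  | add s t hs ht' =>
    have e := Wg_add0 s t
    simp only [subs, List.mem_append, List.mem_singleton] at h
    rcases h with (h | h) | h
    · exact ht' (by omega) h
    · exact hs (by omega) h
    · rw [h]
      exact ⟨ht, fun a b hab => absurd hab (by simp)⟩
  | mul s t hs ht' =>
    have e := Wg_mul s t 0
    simp only [subs, List.mem_append, List.mem_singleton] at h
    rcases h with (h | h) | h
    · exact ht' (by omega) h
    · exact hs (by omega) h
    · rw [h]
      exact ⟨ht, fun a b hab => absurd hab (by simp)⟩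
  | pow s t hs ht' =>
    have h1 := wg12 t
    by_cases hc : cst t = true
    · have e := Wg_pow0 s hc
      simp only [subs, List.mem_append, List.mem_singleton] at h
      rcases h with (h | h) | h
      · exact Wg_gd1 (by omega) h
      · exact hs (by omega) h
      · rw [h]
        refine ⟨ht, fun a b hab => ?_⟩
        injection hab with e1 e2
        rw [← e1, ← e2]
        refine ⟨by omega, fun hT => ?_⟩
        have h2 := hT.2
        rw [hc] at h2
        exact absurd h2 (by simp)
    · have e := Wg_pow0' s hc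
      have e' := Wg_pow1 s t
      exact Wg_gd1 (t := .pow s t) (by omega) h

theorem ad_wg {t u : Tm} (h : u ∈ ad t) : wg u 1 ≤ wg t 1 ∧ u ∈ subs t ∧ ∃ a b, u = .add a b := by
  induction t with
  | one => exact absurd h (Set.notMem_empty u)
  | var w => exact absurd h (Set.notMem_empty u)
  | add s t hs ht =>
    have e := Wg_add1 s t
    have w1 := wg12 s
    have w2 := wg12 t
    simp only [subs, List.mem_append, List.mem_singleton]
    rcases h with h | h | h
    · rw [h]
      exact ⟨le_rfl, Or.inr rfl, s, t, rfl⟩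
    · obtain ⟨h1, h2, h3⟩ := hs h
      exact ⟨by omega, Or.inl (Or.inr h2), h3⟩
    · obtain ⟨h1, h2, h3⟩ := ht h
      exact ⟨by omega, Or.inl (Or.inl h2), h3⟩
  | mul s t hs ht =>
    have e := Wg_mul s t 1
    simp only [subs, List.mem_append, List.mem_singleton]
    rcases h with h | h
    · obtain ⟨h1, h2, h3⟩ := hs h
      exact ⟨by omega, Or.inl (Or.inr h2), h3⟩
    · obtain ⟨h1, h2, h3⟩ := ht h
      exact ⟨by omega, Or.inl (Or.inl h2), h3⟩
  | pow s t hs _ =>
    have e := Wg_pow1 s t
    simp only [subs, List.mem_append, List.mem_singleton]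
    have h' : u ∈ ad s := h
    obtain ⟨h1, h2, h3⟩ := hs h'
    exact ⟨by omega, Or.inl (Or.inr h2), h3⟩

theorem ats_wg {t u : Tm} {n : ℕ} (ht : wg t 0 ≤ n) (h : u ∈ ats t) : wg u 1 ≤ n := by
  induction t with
  | one => exact absurd h (Set.notMem_empty u)
  | var w =>
    have h1 : u = .var w := h
    rw [h1]
    exact ht
  | add s t hs ht' =>
    have e := Wg_add0 s t
    rcases h with h | h
    · exact hs (by omega) h
    · exact ht' (by omega) h
  | mul s t hs ht' =>
    have e := Wg_mul s t 0
    rcases h with h | h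
    · exact hs (by omega) h
    · exact ht' (by omega) h
  | pow s t hs _ =>
    by_cases hc : cst t = true
    · have e := Wg_pow0 s hc
      rcases h with h | h
      · have h2 := h.2.2
        rw [hc] at h2
        exact absurd h2 (by simp)
      · exact hs (by omega) h
    · have e := Wg_pow0' s hc
      rcases h with h | h
      · rw [h.1, Wg_pow1, ← e]
        exact ht
      · have h2 := wg01 s
        exact hs (by omega) h

theorem ats_wg1 {t u : Tm} (h : u ∈ ats t) : wg u 1 ≤ wg t 1 := by
  induction t with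
  | one => exact absurd h (Set.notMem_empty u)
  | var w =>
    have h1 : u = .var w := h
    rw [h1]
  | add s t hs ht =>
    have e := Wg_add1 s t
    have w1 := wg12 s
    have w2 := wg12 t
    rcases h with h | h
    · have h1 := hs h
      omega
    · have h1 := ht h
      omega
  | mul s t hs ht =>
    have e := Wg_mul s t 1
    rcases h with h | h
    · have h1 := hs h
      omega
    · have h1 := ht h
      omega
  | pow s t hs _ =>
    have e := Wg_pow1 s t
    rcases h with h | h
    · rw [h.1]
    · have h1 := hs h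
      omega

private theorem Wg_one (n : ℕ) : thr n .one = .one := by
  unfold thr
  split_ifs <;> rfl

theorem exT_eq (n : ℕ) (s t : Tm) (a : ℕ) :
    exT n s t a = ((subs t ++ subs s).map (thr n)).getD a .one := by
  unfold exT exF
  rw [List.getD_eq_getElem?_getD, List.getD_eq_getElem?_getD, List.getElem?_map]
  cases (subs t ++ subs s)[a]? with
  | none => exact Wg_one n
  | some x => rfl

end Pool.Agent.TV
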