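import Pool.Agent.H.MP_b2d7dd_lc.TD.Wt
import Pool.Agent.H.MP_b2d7dd_lc.TV.Wg

/-!
# Module Fl: recognition of the pairs of terms of small weight

Compare TD/Wt, TQ/Fl. The data of a term `u` (while ok is true): the flags `big u`, `cst u`; the numbers
`cs u` modulo `bval (Mw n) + 2` and `lg u` (exact); the flags `wg u 1 ≤ n` and `wg u 2 ≤ n`; the weights
`wg u 0` (exact), `wg u 1` and `wg u 2` (exact if at most `n`). `flags n T` = for every token of `T`: the
weight in mode `1` of the subterm which begins there is at most `n`.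
-/

namespace Pool.Agent.TV

open Pool.Agent.TI Pool.Agent.H.MP_5be563_lc.PT
open Pool.Agent.TW (pow2 md rad rmu)
open Pool.Agent.TC (Stk subs exF)
open Pool.Agent.TD (Mw nb cs lg wt big cst Tr)

variable {α : Type} [Enc α]

/-- The data of a term. -/
abbrev Gt : Type := (Bool × Bool) × (List Bool × List Bool) × (Bool × Bool) ×
  (List Bool × List Bool × List Bool)

/-- The data of `1`. -/
def gt0 : Gt := ((false, true), ([true], []), (true, true), ([true], [true], [true]))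

/-- `x + y + 1`. -/
def add3 (n : ℕ) (x y : List Bool) : List Bool := rad (Mw n) (rad (Mw n) x y) [true]

/-- The flags of the next term. -/
def fnw (q : Tok) (a b : Gt) : Bool × Bool :=
  bif decide (q.1 = 0) then (false, true)
  else bif decide (q.1 = 4) then (true, false)
  else bif decide (q.1 = 1) then (true, a.1.2 && b.1.2)
  else bif decide (q.1 = 2) then (a.1.1 || b.1.1, a.1.2 && b.1.2)
  else (a.1.1, (a.1.2 && b.1.2) || !a.1.1)

/-- The numbers `cs` and `lg` of the next term. -/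
def cnw (n : ℕ) (q : Tok) (a b : Gt) : List Bool × List Bool :=
  bif decide (q.1 = 0) then ([true], [])
  else bif decide (q.1 = 4) then ([], [])
  else bif decide (q.1 = 1) then (rad (Mw n) a.2.1.1 b.2.1.1, add3 n a.2.1.2 b.2.1.2)
  else bif decide (q.1 = 2) then (rmu (Mw n) a.2.1.1 b.2.1.1, rad (Mw n) a.2.1.2 b.2.1.2)
  else (bif b.1.2 || !a.1.1 then bpw a.2.1.1 b.2.1.1 (md (Mw n)) else [],
    rmu (Mw n) b.2.1.1 a.2.1.2)

/-- The weights of the next term. -/
def wnw (n : ℕ) (q : Tok) (a b : Gt) : List Bool × List Bool × List Bool :=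
  bif decide (q.1 = 0) || decide (q.1 = 4) then ([true], [true], [true])
  else bif decide (q.1 = 1) then (add3 n a.2.2.2.1 b.2.2.2.1, add3 n a.2.2.2.2.2 b.2.2.2.2.2,
    add3 n a.2.2.2.2.2 b.2.2.2.2.2)
  else bif decide (q.1 = 2) then (add3 n a.2.2.2.1 b.2.2.2.1, add3 n a.2.2.2.2.1 b.2.2.2.2.1,
    add3 n a.2.2.2.2.2 b.2.2.2.2.2)
  else (bif b.1.2 then add3 n a.2.2.2.1 b.2.2.2.2.2 else add3 n a.2.2.2.2.1 b.2.2.2.2.2,
    add3 n a.2.2.2.2.1 b.2.2.2.2.2,
    rad (Mw n) (add3 n a.2.2.2.2.1 b.2.2.2.2.2) (rmu (Mw n) b.2.1.1 a.2.1.2))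

/-- The weights in the modes `1`, `2` of the next term are at most `n`. -/
def snw (n : ℕ) (q : Tok) (a b : Gt) : Bool × Bool :=
  bif decide (q.1 = 0) || decide (q.1 = 4) then (ble [true] (nb n), ble [true] (nb n))
  else bif decide (q.1 = 1) then
    (a.2.2.1.2 && b.2.2.1.2 && ble (wnw n q a b).2.1 (nb n),
      a.2.2.1.2 && b.2.2.1.2 && ble (wnw n q a b).2.2 (nb n))
  else bif decide (q.1 = 2) then
    (a.2.2.1.1 && b.2.2.1.1 && ble (wnw n q a b).2.1 (nb n),
      a.2.2.1.2 && b.2.2.1.2 && ble (wnw n q a b).2.2 (nb n))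
  else
    (a.2.2.1.1 && b.2.2.1.2 && ble (wnw n q a b).2.1 (nb n),
      a.2.2.1.1 && b.2.2.1.2 && ble (wnw n q a b).2.2 (nb n))

/-- The data of the next term. -/
def gnw (n : ℕ) (q : Tok) (a b : Gt) : Gt := (fnw q a b, cnw n q a b, snw n q a b, wnw n q a b)

/-- The weight in mode `0` of the next term is at most `n`. -/
def okn (n : ℕ) (q : Tok) (a b : Gt) : Bool :=
  ble (wnw n q a b).1 (nb n) &&
    (!decide (q.1 = 3) || (b.2.2.1.2 && (b.1.2 || a.2.2.1.1)))

/-- One step: the stack, the flags, ok. -/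
def gStep (n : ℕ) (q : Tok) (s : List Gt × List Bool × Bool) : List Gt × List Bool × Bool :=
  (gnw n q (s.1.headD gt0) (s.1.tail.headD gt0) ::
      (bif decide (q.1 = 0) || decide (q.1 = 4) then s.1 else s.1.tail.tail),
    (snw n q (s.1.headD gt0) (s.1.tail.headD gt0)).1 :: s.2.1,
    s.2.2 && (decide (q.1 = 0) || decide (q.1 = 4) || decide (2 ≤ s.1.length)) &&
      okn n q (s.1.headD gt0) (s.1.tail.headD gt0))

/-- The run on the tokens. -/
def grn (n : ℕ) (T : List Tok) : List Gt × List Bool × Bool := T.foldr (gStep n) ([], [], true)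

/-- The tokens are the tokens of two terms, the sum of their weights is at most `n`. -/
def shapeG (n : ℕ) (T : List Tok) : Bool :=
  (grn n T).2.2 && decide ((grn n T).1.length = 2) &&
    ble (badd ((grn n T).1.headD gt0).2.2.2.1 ((grn n T).1.tail.headD gt0).2.2.2.1) (nb n)

/-- The subterms of small weight. -/
def flags (n : ℕ) (T : List Tok) : List Bool := (grn n T).2.1

/-- The tokens with the flags. -/
def zf (n : ℕ) (T : List Tok) : List (Tok × Bool) := T.zip (flags n T)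

private theorem Fl_nb_succ (n : ℕ) : nb (n + 1) = btrim (badd (nb n) [true]) := by
  unfold nb
  rw [Function.iterate_succ_apply']

private theorem Fl_nb_length (n : ℕ) : (nb n).length ≤ n := by
  cases n with
  | zero => exact le_rfl
  | succ n =>
    have h1 := Pool.Agent.TD.bval_nb (n + 1)
    rw [Fl_nb_succ] at h1 ⊢
    rw [bval_btrim] at h1
    refine length_btrim_le ?_
    rw [h1]
    exact Nat.lt_two_pow_self

private theorem Fl_bval_Mw (n : ℕ) : bval (Mw n) = 2 ^ (3 * n + 6) := Pool.Agent.TW.bval_pow2 _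

private theorem Fl_one : bval [true] = 1 := rfl

private theorem Fl_radm (n : ℕ) (x y : List Bool) :
    bval (rad (Mw n) x y) = (bval x + bval y) % (2 ^ (3 * n + 6) + 2) := by
  rw [rad, Pool.Agent.TW.bval_bmod_md, bval_badd, Fl_bval_Mw]

private theorem Fl_rmum (n : ℕ) (x y : List Bool) :
    bval (rmu (Mw n) x y) = (bval x * bval y) % (2 ^ (3 * n + 6) + 2) := by
  rw [rmu, Pool.Agent.TW.bval_bmod_md, bval_bmul, Fl_bval_Mw]

private theorem Fl_bpwm (n : ℕ) (x y : List Bool) :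
    bval (bpw x y (md (Mw n))) = (bval x ^ bval y) % (2 ^ (3 * n + 6) + 2) := by
  rw [bval_bpw, Pool.Agent.TW.bval_md, Fl_bval_Mw]

private theorem Fl_rad {n : ℕ} {x y : List Bool} (h : bval x + bval y < 2 ^ (3 * n + 6)) :
    bval (rad (Mw n) x y) = bval x + bval y := by
  rw [Fl_radm]
  exact Nat.mod_eq_of_lt (by omega)

private theorem Fl_rmu {n : ℕ} {x y : List Bool} (h : bval x * bval y < 2 ^ (3 * n + 6)) :
    bval (rmu (Mw n) x y) = bval x * bval y := by
  rw [Fl_rmum]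
  exact Nat.mod_eq_of_lt (by omega)

private theorem Fl_add3 {n : ℕ} {x y : List Bool} (h : bval x + bval y + 1 < 2 ^ (3 * n + 6)) :
    bval (add3 n x y) = bval x + bval y + 1 := by
  have h1 : bval (rad (Mw n) x y) = bval x + bval y := Fl_rad (by omega)
  show bval (rad (Mw n) (rad (Mw n) x y) [true]) = _
  rw [Fl_rad (by rw [h1, Fl_one]; exact h), h1, Fl_one]

private theorem Fl_pw (n : ℕ) : n < 2 ^ n ∧ 2 ^ n ≤ 2 ^ n * 2 ^ n ∧
    64 * (2 ^ n * 2 ^ n) ≤ 2 ^ (3 * n + 6) := by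
  have h0 : 0 < 2 ^ n := Nat.two_pow_pos n
  refine ⟨Nat.lt_two_pow_self, Nat.le_mul_of_pos_left _ h0, ?_⟩
  have h1 : 2 ^ (3 * n + 6) = 64 * (2 ^ n * 2 ^ n) * 2 ^ n := by
    rw [show 3 * n + 6 = n + n + n + 6 by omega, pow_add, pow_add, pow_add]
    norm_num
    ring
  rw [h1]
  exact Nat.le_mul_of_pos_right _ h0

private theorem Fl_ble (n : ℕ) (x : List Bool) : ble x (nb n) = decide (bval x ≤ n) := by
  rw [Bool.eq_iff_iff, ble_iff, Pool.Agent.TD.bval_nb, decide_eq_true_eq]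

private theorem Fl_lg {n : ℕ} {t : Tm} (h : wg t 0 ≤ n) : lg t ≤ 2 ^ n :=
  (lg_le0 t).trans (Nat.pow_le_pow_right (by norm_num) h)

private theorem Fl_cs {n : ℕ} {t : Tm} (h : wg t 2 ≤ n) : cs t ≤ 2 ^ n :=
  (cs_le2 t).trans (Nat.pow_le_pow_right (by norm_num) h)

private theorem Fl_wadd (s t : Tm) : wg (.add s t) 0 = wg s 0 + wg t 0 + 1 ∧
    wg (.add s t) 1 = wg s 2 + wg t 2 + 1 ∧ wg (.add s t) 2 = wg s 2 + wg t 2 + 1 :=
  ⟨rfl, rfl, rfl⟩

private theorem Fl_wmul (s t : Tm) (m : ℕ) : wg (.mul s t) m = wg s m + wg t m + 1 := rfl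

private theorem Fl_wpow (s t : Tm) (m : ℕ) : wg (.pow s t) m =
    wg s (if m = 0 ∧ cst t = true then 0 else 1) + wg t 2 + 1 +
      if m = 2 then cs t * lg s else 0 := rfl

private theorem Fl_wpow0 {t : Tm} (s : Tm) (h : cst t = true) :
    wg (.pow s t) 0 = wg s 0 + wg t 2 + 1 := by
  rw [Fl_wpow, if_pos ⟨rfl, h⟩, if_neg (by norm_num)]

private theorem Fl_wpow0' {t : Tm} (s : Tm) (h : ¬ cst t = true) :
    wg (.pow s t) 0 = wg s 1 + wg t 2 + 1 := by
  rw [Fl_wpow, if_neg (fun hh => h hh.2), if_neg (by norm_num)]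

private theorem Fl_wpow1 (s t : Tm) : wg (.pow s t) 1 = wg s 1 + wg t 2 + 1 := by
  rw [Fl_wpow, if_neg (fun hh => absurd hh.1 (by norm_num)), if_neg (by norm_num)]

private theorem Fl_wpow2 (s t : Tm) :
    wg (.pow s t) 2 = wg s 1 + wg t 2 + 1 + cs t * lg s := by
  rw [Fl_wpow, if_neg (fun hh => absurd hh.1 (by norm_num)), if_pos rfl]

/-- The data `d` is the data of the term `t`. -/
private def Fl_D (n : ℕ) (d : Gt) (t : Tm) : Prop :=
  (d.1 = (big t, cst t) ∧ bval d.2.1.1 = cs t % (2 ^ (3 * n + 6) + 2) ∧ bval d.2.1.2 = lg t) ∧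
    d.2.2.1 = (decide (wg t 1 ≤ n), decide (wg t 2 ≤ n)) ∧
    bval d.2.2.2.1 = wg t 0 ∧ (wg t 1 ≤ n → bval d.2.2.2.2.1 = wg t 1) ∧
    (wg t 2 ≤ n → bval d.2.2.2.2.2 = wg t 2)

private theorem Fl_Dmk {n : ℕ} {f sm : Bool × Bool} {c1 c2 u0 u1 u2 : List Bool} {t : Tm}
    (h1 : f = (big t, cst t)) (h2 : bval c1 = cs t % (2 ^ (3 * n + 6) + 2))
    (h3 : bval c2 = lg t) (h4 : sm = (decide (wg t 1 ≤ n), decide (wg t 2 ≤ n)))
    (h5 : bval u0 = wg t 0) (h6 : wg t 1 ≤ n → bval u1 = wg t 1)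
    (h7 : wg t 2 ≤ n → bval u2 = wg t 2) : Fl_D n (f, (c1, c2), sm, (u0, u1, u2)) t :=
  ⟨⟨h1, h2, h3⟩, h4, h5, h6, h7⟩

private theorem Fl_sf {n p r W : ℕ} {v : List Bool} (h1 : p ≤ n → r ≤ n → bval v = W)
    (h2 : W ≤ n → p ≤ n ∧ r ≤ n) :
    (decide (p ≤ n) && decide (r ≤ n) && ble v (nb n)) = decide (W ≤ n) := by
  by_cases hs : p ≤ n ∧ r ≤ n
  · rw [decide_eq_true hs.1, decide_eq_true hs.2, Fl_ble, h1 hs.1 hs.2]
    rfl
  · have h5 : ¬ W ≤ n := fun h => hs (h2 h)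
    rw [decide_eq_false h5]
    by_cases hs1 : p ≤ n
    · have hs2 : ¬ r ≤ n := fun h => hs ⟨hs1, h⟩
      rw [decide_eq_false hs2, Bool.and_false, Bool.false_and]
    · rw [decide_eq_false hs1, Bool.false_and, Bool.false_and]

private theorem Fl_add (n : ℕ) (w : List Bool) {a b : Gt} {x y : Tm} (ha : Fl_D n a x)
    (hb : Fl_D n b y) (hx : wg x 0 ≤ n) (hy : wg y 0 ≤ n) :
    Fl_D n (gnw n (1, w) a b) (.add x y) := by
  obtain ⟨⟨a1, a2, a3⟩, a4, a5, a6, a7⟩ := ha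
  obtain ⟨⟨b1, b2, b3⟩, b4, b5, b6, b7⟩ := hb
  obtain ⟨p1, p2, p3⟩ := Fl_pw n
  have lx := Fl_lg hx
  have ly := Fl_lg hy
  have e0 : gnw n (1, w) a b = ((true, a.1.2 && b.1.2),
      (rad (Mw n) a.2.1.1 b.2.1.1, add3 n a.2.1.2 b.2.1.2),
      (a.2.2.1.2 && b.2.2.1.2 && ble (add3 n a.2.2.2.2.2 b.2.2.2.2.2) (nb n),
        a.2.2.1.2 && b.2.2.1.2 && ble (add3 n a.2.2.2.2.2 b.2.2.2.2.2) (nb n)),
      (add3 n a.2.2.2.1 b.2.2.2.1, add3 n a.2.2.2.2.2 b.2.2.2.2.2,
        add3 n a.2.2.2.2.2 b.2.2.2.2.2)) := rfl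
  obtain ⟨w0, w1, w2⟩ := Fl_wadd x y
  have w3 : wg x 2 ≤ n → wg y 2 ≤ n →
      bval (add3 n a.2.2.2.2.2 b.2.2.2.2.2) = wg x 2 + wg y 2 + 1 := fun h1 h2 => by
    rw [Fl_add3 (by rw [a7 h1, b7 h2]; omega), a7 h1, b7 h2]
  have w4 : (a.2.2.1.2 && b.2.2.1.2 && ble (add3 n a.2.2.2.2.2 b.2.2.2.2.2) (nb n)) =
      decide (wg x 2 + wg y 2 + 1 ≤ n) := by
    rw [a4, b4]
    exact Fl_sf w3 (by omega)
  rw [e0]
  refine Fl_Dmk ?_ ?_ ?_ ?_ ?_ ?_ ?_
  · rw [a1, b1]
    rfl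
  · show _ = (cs x + cs y) % (2 ^ (3 * n + 6) + 2)
    rw [Fl_radm, a2, b2, ← Nat.add_mod]
  · show _ = lg x + lg y + 1
    rw [Fl_add3 (by rw [a3, b3]; omega), a3, b3]
  · rw [w1, w2, w4]
  · rw [w0, Fl_add3 (by rw [a5, b5]; omega), a5, b5]
  · rw [w1]
    exact fun h => w3 (by omega) (by omega)
  · rw [w2]
    exact fun h => w3 (by omega) (by omega)

private theorem Fl_mul (n : ℕ) (w : List Bool) {a b : Gt} {x y : Tm} (ha : Fl_D n a x)
    (hb : Fl_D n b y) (hx : wg x 0 ≤ n) (hy : wg y 0 ≤ n) :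
    Fl_D n (gnw n (2, w) a b) (.mul x y) := by
  obtain ⟨⟨a1, a2, a3⟩, a4, a5, a6, a7⟩ := ha
  obtain ⟨⟨b1, b2, b3⟩, b4, b5, b6, b7⟩ := hb
  obtain ⟨p1, p2, p3⟩ := Fl_pw n
  have lx := Fl_lg hx
  have ly := Fl_lg hy
  have e0 : gnw n (2, w) a b = ((a.1.1 || b.1.1, a.1.2 && b.1.2),
      (rmu (Mw n) a.2.1.1 b.2.1.1, rad (Mw n) a.2.1.2 b.2.1.2),
      (a.2.2.1.1 && b.2.2.1.1 && ble (add3 n a.2.2.2.2.1 b.2.2.2.2.1) (nb n),
        a.2.2.1.2 && b.2.2.1.2 && ble (add3 n a.2.2.2.2.2 b.2.2.2.2.2) (nb n)),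
      (add3 n a.2.2.2.1 b.2.2.2.1, add3 n a.2.2.2.2.1 b.2.2.2.2.1,
        add3 n a.2.2.2.2.2 b.2.2.2.2.2)) := rfl
  have v3 : wg x 1 ≤ n → wg y 1 ≤ n →
      bval (add3 n a.2.2.2.2.1 b.2.2.2.2.1) = wg x 1 + wg y 1 + 1 := fun h1 h2 => by
    rw [Fl_add3 (by rw [a6 h1, b6 h2]; omega), a6 h1, b6 h2]
  have w3 : wg x 2 ≤ n → wg y 2 ≤ n →
      bval (add3 n a.2.2.2.2.2 b.2.2.2.2.2) = wg x 2 + wg y 2 + 1 := fun h1 h2 => by
    rw [Fl_add3 (by rw [a7 h1, b7 h2]; omega), a7 h1, b7 h2]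
  have v4 : (a.2.2.1.1 && b.2.2.1.1 && ble (add3 n a.2.2.2.2.1 b.2.2.2.2.1) (nb n)) =
      decide (wg x 1 + wg y 1 + 1 ≤ n) := by
    rw [a4, b4]
    exact Fl_sf v3 (by omega)
  have w4 : (a.2.2.1.2 && b.2.2.1.2 && ble (add3 n a.2.2.2.2.2 b.2.2.2.2.2) (nb n)) =
      decide (wg x 2 + wg y 2 + 1 ≤ n) := by
    rw [a4, b4]
    exact Fl_sf w3 (by omega)
  rw [e0]
  refine Fl_Dmk ?_ ?_ ?_ ?_ ?_ ?_ ?_
  · rw [a1, b1]
    rfl
  · show _ = (cs x * cs y) % (2 ^ (3 * n + 6) + 2)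
    rw [Fl_rmum, a2, b2, ← Nat.mul_mod]
  · show _ = lg x + lg y
    rw [Fl_rad (by rw [a3, b3]; omega), a3, b3]
  · rw [Fl_wmul, Fl_wmul, w4, v4]
  · rw [Fl_wmul, Fl_add3 (by rw [a5, b5]; omega), a5, b5]
  · rw [Fl_wmul]
    exact fun h => v3 (by omega) (by omega)
  · rw [Fl_wmul]
    exact fun h => w3 (by omega) (by omega)

private theorem Fl_cspow (x y : Tm) : cs (.pow x y) =
    if (cst y || !big x) = true then cs x ^ cs y else 0 := by
  simp only [cs]

private theorem Fl_bigpow (x y : Tm) : (big (.pow x y), cst (.pow x y)) =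
    (big x, (cst x && cst y) || !big x) := rfl

private theorem Fl_lgpow (x y : Tm) : lg (.pow x y) = cs y * lg x := rfl

private theorem Fl_gnw3 (n : ℕ) (w : List Bool) (a b : Gt) :
    gnw n (3, w) a b = ((a.1.1, (a.1.2 && b.1.2) || !a.1.1),
      (bif b.1.2 || !a.1.1 then bpw a.2.1.1 b.2.1.1 (md (Mw n)) else [],
        rmu (Mw n) b.2.1.1 a.2.1.2),
      (a.2.2.1.1 && b.2.2.1.2 && ble (add3 n a.2.2.2.2.1 b.2.2.2.2.2) (nb n),
        a.2.2.1.1 && b.2.2.1.2 && ble (rad (Mw n) (add3 n a.2.2.2.2.1 b.2.2.2.2.2)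
          (rmu (Mw n) b.2.1.1 a.2.1.2)) (nb n)),
      (bif b.1.2 then add3 n a.2.2.2.1 b.2.2.2.2.2 else add3 n a.2.2.2.2.1 b.2.2.2.2.2,
        add3 n a.2.2.2.2.1 b.2.2.2.2.2,
        rad (Mw n) (add3 n a.2.2.2.2.1 b.2.2.2.2.2) (rmu (Mw n) b.2.1.1 a.2.1.2))) := by
  have c0 : decide ((3 : ℕ) = 0) = false := rfl
  have c1 : decide ((3 : ℕ) = 1) = false := rfl
  have c2 : decide ((3 : ℕ) = 2) = false := rfl
  have c4 : decide ((3 : ℕ) = 4) = false := rfl
  simp only [gnw, fnw, cnw, snw, wnw, c0, c1, c2, c4, cond_false, Bool.or_false]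

private theorem Fl_powcs {n : ℕ} {u v : List Bool} {c d : Bool} {x y : Tm}
    (h1 : bval u = cs x % (2 ^ (3 * n + 6) + 2)) (h2 : bval v = cs y)
    (h3 : d = cst y) (h4 : c = big x) :
    bval (bif d || !c then bpw u v (md (Mw n)) else []) =
      cs (.pow x y) % (2 ^ (3 * n + 6) + 2) := by
  rw [Fl_cspow, h3, h4]
  by_cases h7 : (cst y || !big x) = true
  · rw [if_pos h7, h7, cond_true, Fl_bpwm, h1, h2, ← Nat.pow_mod]
  · rw [if_neg h7]
    have h9 : (cst y || !big x) = false := by simpa using h7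
    rw [h9, cond_false, bval_nil, Nat.zero_mod]

private theorem Fl_poww {n : ℕ} {a b : Gt} {x y : Tm} (ha : Fl_D n a x)
    (hb : Fl_D n b y) (hx : wg x 0 ≤ n) (hy2 : wg y 2 ≤ n) :
    bval b.2.1.1 = cs y ∧ bval (rmu (Mw n) b.2.1.1 a.2.1.2) = cs y * lg x ∧
    (wg x 1 ≤ n → wg y 2 ≤ n →
      bval (add3 n a.2.2.2.2.1 b.2.2.2.2.2) = wg x 1 + wg y 2 + 1) ∧
    (wg x 1 ≤ n → wg y 2 ≤ n →
      bval (rad (Mw n) (add3 n a.2.2.2.2.1 b.2.2.2.2.2) (rmu (Mw n) b.2.1.1 a.2.1.2)) =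
        wg x 1 + wg y 2 + 1 + cs y * lg x) ∧
    bval (add3 n a.2.2.2.1 b.2.2.2.2.2) = wg x 0 + wg y 2 + 1 := by
  obtain ⟨⟨a1, a2, a3⟩, a4, a5, a6, a7⟩ := ha
  obtain ⟨⟨b1, b2, b3⟩, b4, b5, b6, b7⟩ := hb
  obtain ⟨p1, p2, p3⟩ := Fl_pw n
  have lx := Fl_lg hx
  have cy := Fl_cs hy2
  have hm : cs y * lg x ≤ 2 ^ n * 2 ^ n := Nat.mul_le_mul cy lx
  obtain ⟨N, hN⟩ : ∃ N, N = 2 ^ (3 * n + 6) := ⟨_, rfl⟩
  have b2' : bval b.2.1.1 = cs y := by
    rw [b2, ← hN]
    rw [← hN] at p3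
    exact Nat.mod_eq_of_lt (by omega)
  have e1 : bval (rmu (Mw n) b.2.1.1 a.2.1.2) = cs y * lg x := by
    rw [Fl_rmu (by rw [b2', a3]; omega), b2', a3]
  have v3 : wg x 1 ≤ n → wg y 2 ≤ n →
      bval (add3 n a.2.2.2.2.1 b.2.2.2.2.2) = wg x 1 + wg y 2 + 1 := fun h1 h2 => by
    rw [Fl_add3 (by rw [a6 h1, b7 h2]; omega), a6 h1, b7 h2]
  refine ⟨b2', e1, v3, fun h1 h2 => ?_, ?_⟩
  · rw [Fl_rad (by rw [v3 h1 h2, e1]; omega), v3 h1 h2, e1]
  · rw [Fl_add3 (by rw [a5, b7 hy2]; omega), a5, b7 hy2]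

private theorem Fl_powy {n : ℕ} {x y : Tm} (hN : wg (.pow x y) 0 ≤ n) : wg y 2 ≤ n := by
  by_cases hc : cst y = true
  · rw [Fl_wpow0 x hc] at hN
    omega
  · rw [Fl_wpow0' x hc] at hN
    omega

private theorem Fl_powz {n : ℕ} {x y : Tm} : (wg (.pow x y) 1 ≤ n → wg x 1 ≤ n ∧ wg y 2 ≤ n) ∧
    (wg (.pow x y) 2 ≤ n → wg x 1 ≤ n ∧ wg y 2 ≤ n) ∧
    (¬ cst y = true → wg (.pow x y) 0 ≤ n → wg x 1 ≤ n) := by
  refine ⟨fun h => ?_, fun h => ?_, fun hc h => ?_⟩
  · rw [Fl_wpow1] at h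
    omega
  · rw [Fl_wpow2] at h
    omega
  · rw [Fl_wpow0' x hc] at h
    omega

private theorem Fl_pow (n : ℕ) (w : List Bool) {a b : Gt} {x y : Tm} (ha : Fl_D n a x)
    (hb : Fl_D n b y) (hx : wg x 0 ≤ n) (hN : wg (.pow x y) 0 ≤ n) :
    Fl_D n (gnw n (3, w) a b) (.pow x y) := by
  have hy2 := Fl_powy hN
  obtain ⟨z1, z2, z3⟩ := Fl_powz (n := n) (x := x) (y := y)
  obtain ⟨b2', e1, v3, w3, v0⟩ := Fl_poww ha hb hx hy2
  obtain ⟨⟨a1, a2, a3⟩, a4, a5, a6, a7⟩ := ha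
  obtain ⟨⟨b1, b2, b3⟩, b4, b5, b6, b7⟩ := hb
  have v4 : (a.2.2.1.1 && b.2.2.1.2 && ble (add3 n a.2.2.2.2.1 b.2.2.2.2.2) (nb n)) =
      decide (wg (.pow x y) 1 ≤ n) := by
    rw [a4, b4]
    exact Fl_sf (fun h1 h2 => by rw [v3 h1 h2, Fl_wpow1]) z1
  have w4 : (a.2.2.1.1 && b.2.2.1.2 && ble (rad (Mw n) (add3 n a.2.2.2.2.1 b.2.2.2.2.2)
      (rmu (Mw n) b.2.1.1 a.2.1.2)) (nb n)) = decide (wg (.pow x y) 2 ≤ n) := by
    rw [a4, b4]
    exact Fl_sf (fun h1 h2 => by rw [w3 h1 h2, Fl_wpow2]) z2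
  have k2 := Fl_powcs (n := n) (c := a.1.1) (d := b.1.2) a2 b2' (by rw [b1]) (by rw [a1])
  clear a2 b2
  rw [Fl_gnw3]
  refine Fl_Dmk ?_ k2 ?_ ?_ ?_ ?_ ?_
  · rw [Fl_bigpow, a1, b1]
  · rw [Fl_lgpow]
    exact e1
  · rw [← w4, ← v4]
  · by_cases hc : cst y = true
    · have hb1 : b.1.2 = true := by
        rw [b1]
        exact hc
      rw [hb1, cond_true, Fl_wpow0 x hc]
      exact v0
    · have hc' : cst y = false := by simpa using hc
      have hb1 : b.1.2 = false := by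
        rw [b1]
        exact hc'
      rw [Fl_wpow0' x hc, hb1, cond_false]
      exact v3 (z3 hc hN) hy2
  · intro h
    rw [Fl_wpow1]
    exact v3 (z1 h).1 (z1 h).2
  · intro h
    rw [Fl_wpow2]
    exact w3 (z2 h).1 (z2 h).2

/-- The term of an operation. -/
private def Fl_mk (k : ℕ) (s t : Tm) : Tm :=
  if k = 1 then .add s t else if k = 2 then .mul s t else .pow s t

private theorem Fl_mk_toks {k : ℕ} (h0 : k ≠ 0) (h4 : k < 4) (x y : Tm) :
    (Fl_mk k x y).toks = (k, []) :: (x.toks ++ y.toks) := by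
  rcases (by omega : k = 1 ∨ k = 2 ∨ k = 3) with rfl | rfl | rfl <;> rfl

/-- The data of `1` or of a variable. -/
private def Fl_lf (n : ℕ) (c : Bool) : Gt :=
  ((!c, c), (bif c then [true] else [], []), (ble [true] (nb n), ble [true] (nb n)),
    ([true], [true], [true]))

private theorem Fl_D0 (n : ℕ) : Fl_D n (Fl_lf n true) .one := by
  refine ⟨⟨rfl, ?_, rfl⟩, ?_, rfl, fun _ => rfl, fun _ => rfl⟩
  · show 1 = 1 % (2 ^ (3 * n + 6) + 2)
    exact (Nat.mod_eq_of_lt (Nat.lt_of_lt_of_le Nat.one_lt_two (Nat.le_add_left 2 _))).symm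
  · show (ble [true] (nb n), ble [true] (nb n)) = _
    rw [Fl_ble]
    rfl

private theorem Fl_D4 (n : ℕ) (w : List Bool) : Fl_D n (Fl_lf n false) (.var w) := by
  refine ⟨⟨rfl, ?_, rfl⟩, ?_, rfl, fun _ => rfl, fun _ => rfl⟩
  · show 0 = 0 % (2 ^ (3 * n + 6) + 2)
    exact (Nat.zero_mod _).symm
  · show (ble [true] (nb n), ble [true] (nb n)) = _
    rw [Fl_ble]
    rfl

private theorem Fl_gnw0 (n : ℕ) (w : List Bool) (a b : Gt) :
    gnw n (0, w) a b = Fl_lf n true := rfl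

private theorem Fl_gnw4 (n : ℕ) (w : List Bool) (a b : Gt) :
    gnw n (4, w) a b = Fl_lf n false := rfl

private theorem Fl_leaf0 (n : ℕ) (w : List Bool) (s : List Gt × List Bool × Bool) :
    gStep n (0, w) s = (Fl_lf n true :: s.1, ble [true] (nb n) :: s.2.1,
      s.2.2 && ble [true] (nb n)) := by
  have h : gStep n (0, w) s = (Fl_lf n true :: s.1, ble [true] (nb n) :: s.2.1,
      s.2.2 && true && (ble [true] (nb n) && true)) := rfl
  rw [h, Bool.and_true, Bool.and_true]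

private theorem Fl_leaf4 (n : ℕ) (w : List Bool) (s : List Gt × List Bool × Bool) :
    gStep n (4, w) s = (Fl_lf n false :: s.1, ble [true] (nb n) :: s.2.1,
      s.2.2 && ble [true] (nb n)) := by
  have h : gStep n (4, w) s = (Fl_lf n false :: s.1, ble [true] (nb n) :: s.2.1,
      s.2.2 && true && (ble [true] (nb n) && true)) := rfl
  rw [h, Bool.and_true, Bool.and_true]

private theorem Fl_opStep {n k : ℕ} (h0 : k ≠ 0) (h4 : k ≠ 4) (w : List Bool)
    (s : List Gt × List Bool × Bool) :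
    gStep n (k, w) s = (gnw n (k, w) (s.1.headD gt0) (s.1.tail.headD gt0) :: s.1.tail.tail,
      (snw n (k, w) (s.1.headD gt0) (s.1.tail.headD gt0)).1 :: s.2.1,
      s.2.2 && decide (2 ≤ s.1.length) &&
        okn n (k, w) (s.1.headD gt0) (s.1.tail.headD gt0)) := by
  simp only [gStep, h0, h4, decide_false, Bool.false_or, Bool.or_false, cond_false]

private theorem Fl_mk_wg {k : ℕ} (h0 : k ≠ 0) (h4 : k < 4) (x y : Tm) :
    wg x 0 + wg y 0 + 1 ≤ wg (Fl_mk k x y) 0 := by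
  rcases (by omega : k = 1 ∨ k = 2 ∨ k = 3) with rfl | rfl | rfl
  · exact le_rfl
  · exact le_rfl
  · show wg x 0 + wg y 0 + 1 ≤ wg (.pow x y) 0
    have h1 := wg01 x
    have h2 := wg01 y
    have h3 := wg12 y
    by_cases hc : cst y = true
    · rw [Fl_wpow0 x hc]
      omega
    · rw [Fl_wpow0' x hc]
      omega

private theorem Fl_op {n k : ℕ} (w : List Bool) {a b : Gt} {x y : Tm} (h0 : k ≠ 0)
    (h4 : k < 4) (ha : Fl_D n a x) (hb : Fl_D n b y) (hx : wg x 0 ≤ n) (hy : wg y 0 ≤ n) :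
    (okn n (k, w) a b = true ↔ wg (Fl_mk k x y) 0 ≤ n) ∧
      (wg (Fl_mk k x y) 0 ≤ n → Fl_D n (gnw n (k, w) a b) (Fl_mk k x y)) := by
  rcases (by omega : k = 1 ∨ k = 2 ∨ k = 3) with rfl | rfl | rfl
  · have h1 := Fl_add n w ha hb hx hy
    refine ⟨?_, fun _ => h1⟩
    have h2 : okn n (1, w) a b = (ble (gnw n (1, w) a b).2.2.2.1 (nb n) && true) := rfl
    rw [h2, Bool.and_true, Fl_ble, decide_eq_true_eq, h1.2.2.1]
    rfl
  · have h1 := Fl_mul n w ha hb hx hy
    refine ⟨?_, fun _ => h1⟩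
    have h2 : okn n (2, w) a b = (ble (gnw n (2, w) a b).2.2.2.1 (nb n) && true) := rfl
    rw [h2, Bool.and_true, Fl_ble, decide_eq_true_eq, h1.2.2.1]
    rfl
  · show (okn n (3, w) a b = true ↔ wg (.pow x y) 0 ≤ n) ∧
      (wg (.pow x y) 0 ≤ n → Fl_D n (gnw n (3, w) a b) (.pow x y))
    refine ⟨⟨fun h => ?_, fun h => ?_⟩, fun h => Fl_pow n w ha hb hx h⟩
    · obtain ⟨⟨a1, a2, a3⟩, a4, a5, a6, a7⟩ := ha
      obtain ⟨⟨b1, b2, b3⟩, b4, b5, b6, b7⟩ := hb
      obtain ⟨p1, p2, p3⟩ := Fl_pw n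
      have h2 : okn n (3, w) a b = (ble (bif b.1.2 then add3 n a.2.2.2.1 b.2.2.2.2.2 else
          add3 n a.2.2.2.2.1 b.2.2.2.2.2) (nb n) && (b.2.2.1.2 && (b.1.2 || a.2.2.1.1))) := rfl
      rw [h2, Bool.and_eq_true, Bool.and_eq_true, Fl_ble, decide_eq_true_eq, b4, a4,
        decide_eq_true_eq] at h
      obtain ⟨h3, hy2, h5⟩ := h
      by_cases hc : cst y = true
      · have hb1 : b.1.2 = true := by
          rw [b1]
          exact hc
        rw [hb1, cond_true, Fl_add3 (by rw [a5, b7 hy2]; omega), a5, b7 hy2] at h3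
        rw [Fl_wpow0 x hc]
        exact h3
      · have hc' : cst y = false := by simpa using hc
        have hb1 : b.1.2 = false := by
          rw [b1]
          exact hc'
        rw [hb1, Bool.false_or, decide_eq_true_eq] at h5
        rw [hb1, cond_false, Fl_add3 (by rw [a6 h5, b7 hy2]; omega), a6 h5, b7 hy2] at h3
        rw [Fl_wpow0' x hc]
        exact h3
    · have h1 := Fl_pow n w ha hb hx h
      have h2 : okn n (3, w) a b =
          (ble (gnw n (3, w) a b).2.2.2.1 (nb n) && (b.2.2.1.2 && (b.1.2 || a.2.2.1.1))) := rfl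
      have h3 : a.2.2.1.1 = decide (wg x 1 ≤ n) := by rw [ha.2.1]
      have h4 : b.2.2.1.2 = decide (wg y 2 ≤ n) := by rw [hb.2.1]
      have h5 : b.1.2 = cst y := by rw [hb.1.1]
      rw [h2, Fl_ble, h1.2.2.1, h3, h4, h5, decide_eq_true h, Bool.true_and]
      by_cases hc : cst y = true
      · rw [Fl_wpow0 x hc] at h
        rw [hc, Bool.true_or, Bool.and_true, decide_eq_true_eq]
        omega
      · rw [Fl_wpow0' x hc] at h
        have hc' : cst y = false := by simpa using hc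
        rw [hc', Bool.false_or, Bool.and_eq_true, decide_eq_true_eq, decide_eq_true_eq]
        omega

private theorem Fl_run {n k : ℕ} {x y : Tm} (h0 : k ≠ 0) (h4 : k < 4)
    (hxy : wg (Fl_mk k x y) 0 ≤ n)
    (ihx : wg x 0 ≤ n → ∀ s : List Gt × List Bool × Bool, ∃ d, Fl_D n d x ∧
      (x.toks.foldr (gStep n) s).1 = d :: s.1 ∧ (x.toks.foldr (gStep n) s).2.2 = s.2.2)
    (ihy : wg y 0 ≤ n → ∀ s : List Gt × List Bool × Bool, ∃ d, Fl_D n d y ∧
      (y.toks.foldr (gStep n) s).1 = d :: s.1 ∧ (y.toks.foldr (gStep n) s).2.2 = s.2.2)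
    (s : List Gt × List Bool × Bool) :
    ∃ d, Fl_D n d (Fl_mk k x y) ∧
      (((k, []) :: (x.toks ++ y.toks)).foldr (gStep n) s).1 = d :: s.1 ∧
      (((k, []) :: (x.toks ++ y.toks)).foldr (gStep n) s).2.2 = s.2.2 := by
  have h5 := Fl_mk_wg h0 h4 x y
  have hx : wg x 0 ≤ n := by omega
  have hy : wg y 0 ≤ n := by omega
  obtain ⟨dy, hdy, ey, ey2⟩ := ihy hy s
  obtain ⟨dx, hdx, ex, ex2⟩ := ihx hx (y.toks.foldr (gStep n) s)
  rw [ey] at ex
  rw [ey2] at ex2
  obtain ⟨h1, h2⟩ := Fl_op [] h0 h4 hdx hdy hx hy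
  refine ⟨_, h2 hxy, ?_, ?_⟩
  · rw [List.foldr_cons, List.foldr_append, Fl_opStep h0 (by omega), ex]
    rfl
  · rw [List.foldr_cons, List.foldr_append, Fl_opStep h0 (by omega), ex, ex2]
    show (s.2.2 && decide (2 ≤ (dx :: dy :: s.1).length) && okn n (k, []) dx dy) = s.2.2
    rw [h1.2 hxy, Bool.and_true]
    simp

/-- The run on the tokens of a term. -/
private theorem Fl_toks {n : ℕ} {t : Tm} (ht : wg t 0 ≤ n) (s : List Gt × List Bool × Bool) :
    ∃ d, Fl_D n d t ∧ (t.toks.foldr (gStep n) s).1 = d :: s.1 ∧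
      (t.toks.foldr (gStep n) s).2.2 = s.2.2 := by
  induction t generalizing s with
  | one =>
    have h1 : 1 ≤ n := ht
    have h3 : ble [true] (nb n) = true := by
      rw [Fl_ble, decide_eq_true_eq]
      exact h1
    refine ⟨_, Fl_D0 n, ?_, ?_⟩
    · show (gStep n (0, []) s).1 = _
      rw [Fl_leaf0]
    · show (gStep n (0, []) s).2.2 = _
      rw [Fl_leaf0, h3, Bool.and_true]
  | var w =>
    have h1 : 1 ≤ n := ht
    have h3 : ble [true] (nb n) = true := by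
      rw [Fl_ble, decide_eq_true_eq]
      exact h1
    refine ⟨_, Fl_D4 n w, ?_, ?_⟩
    · show (gStep n (4, w) s).1 = _
      rw [Fl_leaf4]
    · show (gStep n (4, w) s).2.2 = _
      rw [Fl_leaf4, h3, Bool.and_true]
  | add x y ihx ihy =>
    exact Fl_run (k := 1) (by norm_num) (by norm_num) ht ihx ihy s
  | mul x y ihx ihy =>
    exact Fl_run (k := 2) (by norm_num) (by norm_num) ht ihx ihy s
  | pow x y ihx ihy =>
    exact Fl_run (k := 3) (by norm_num) (by norm_num) ht ihx ihy s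

private theorem Fl_two {β γ : Type} {R : β → γ → Prop} {F : List β} {l : List γ}
    (h : List.Forall₂ R F l) (h2 : 2 ≤ F.length) :
    ∃ a b r x y l', F = a :: b :: r ∧ l = x :: y :: l' ∧ R a x ∧ R b y ∧
      List.Forall₂ R r l' := by
  cases h with
  | nil => exact absurd h2 (by simp)
  | cons h3 h4 =>
    cases h4 with
    | nil => exact absurd h2 (by simp)
    | cons h5 h6 => exact ⟨_, _, _, _, _, _, rfl, rfl, h3, h5, h6⟩

private theorem Fl_cons (n : ℕ) (q : Tok) (T : List Tok) :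
    grn n (q :: T) = gStep n q (grn n T) := rfl

private theorem Fl_forw {n : ℕ} {T : List Tok} (hT : ∀ q ∈ T, Can q)
    (hok : (grn n T).2.2 = true) :
    ∃ l : List Tm, (∀ t ∈ l, wg t 0 ≤ n) ∧ T = l.flatMap Tm.toks ∧
      List.Forall₂ (Fl_D n) (grn n T).1 l := by
  induction T with
  | nil => exact ⟨[], by simp, rfl, List.Forall₂.nil⟩
  | cons q T ih =>
    obtain ⟨k, w⟩ := q
    have hq := hT _ List.mem_cons_self
    have hT' : ∀ q ∈ T, Can q := fun q hq => hT q (List.mem_cons_of_mem _ hq)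
    obtain ⟨hk4, hw⟩ := hq
    simp only at hk4 hw
    rw [Fl_cons] at hok ⊢
    by_cases h0 : k = 0
    · subst h0
      rw [Fl_leaf0] at hok ⊢
      simp only [Bool.and_eq_true, Fl_ble, decide_eq_true_eq] at hok
      obtain ⟨l, hl, h1, h2⟩ := ih hT' hok.1
      rw [hw (by norm_num)]
      refine ⟨.one :: l, ?_, by simp [Tm.toks, ← h1], List.Forall₂.cons (Fl_D0 n) h2⟩
      intro t ht
      rcases List.mem_cons.1 ht with rfl | ht
      · exact hok.2
      · exact hl t ht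
    by_cases h4 : k = 4
    · subst h4
      rw [Fl_leaf4] at hok ⊢
      simp only [Bool.and_eq_true, Fl_ble, decide_eq_true_eq] at hok
      obtain ⟨l, hl, h1, h2⟩ := ih hT' hok.1
      refine ⟨.var w :: l, ?_, by simp [Tm.toks, ← h1], List.Forall₂.cons (Fl_D4 n w) h2⟩
      intro t ht
      rcases List.mem_cons.1 ht with rfl | ht
      · exact hok.2
      · exact hl t ht
    have h4' : k < 4 := by omega
    rw [Fl_opStep h0 h4] at hok ⊢
    simp only [Bool.and_eq_true, decide_eq_true_eq] at hok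
    obtain ⟨⟨h5, h6⟩, h7⟩ := hok
    obtain ⟨l, hl, h8, h9⟩ := ih hT' h5
    rw [hw (by omega)]
    rw [hw (by omega)] at h7
    obtain ⟨a, b, r, x, y, l', e1, e2, hax, hby, h10⟩ := Fl_two h9 h6
    rw [e1] at h7 ⊢
    rw [e2] at hl h8
    have h7' : okn n (k, []) a b = true := h7
    have hx : wg x 0 ≤ n := hl x (by simp)
    have hy : wg y 0 ≤ n := hl y (by simp)
    obtain ⟨h11, h13⟩ := Fl_op [] h0 h4' hax hby hx hy
    have h12 := h11.1 h7'
    refine ⟨Fl_mk k x y :: l', ?_, ?_, List.Forall₂.cons (h13 h12) h10⟩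
    · intro t ht
      rcases List.mem_cons.1 ht with rfl | ht
      · exact h12
      · exact hl t (by simp [ht])
    · rw [List.flatMap_cons, Fl_mk_toks h0 (by omega), h8]
      simp

theorem shapeG_iff {n : ℕ} {T : List Tok} (hT : ∀ q ∈ T, Can q) :
    shapeG n T = true ↔ ∃ s t : Tm, wg s 0 + wg t 0 ≤ n ∧ T = s.toks ++ t.toks := by
  have hsh : shapeG n T = ((grn n T).2.2 && decide ((grn n T).1.length = 2) &&
      ble (badd ((grn n T).1.headD gt0).2.2.2.1 ((grn n T).1.tail.headD gt0).2.2.2.1)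
        (nb n)) := rfl
  rw [hsh, Bool.and_eq_true, Bool.and_eq_true, decide_eq_true_eq, ble_iff, bval_badd,
    Pool.Agent.TD.bval_nb]
  constructor
  · rintro ⟨⟨h1, h2⟩, h3⟩
    obtain ⟨l, hl, h4, h5⟩ := Fl_forw hT h1
    obtain ⟨a, b, h6⟩ := List.length_eq_two.1 h2
    have h7 := h5.length_eq
    rw [h2] at h7
    obtain ⟨x, y, rfl⟩ := List.length_eq_two.1 h7.symm
    rw [h6] at h3 h5
    obtain ⟨hax, h8⟩ := List.forall₂_cons.1 h5
    obtain ⟨hby, -⟩ := List.forall₂_cons.1 h8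
    refine ⟨x, y, ?_, by simpa using h4⟩
    have h9 : bval a.2.2.2.1 + bval b.2.2.2.1 ≤ n := h3
    rw [hax.2.2.1, hby.2.2.1] at h9
    exact h9
  · rintro ⟨x, y, hxy, rfl⟩
    obtain ⟨dy, hdy, ey, ey2⟩ := Fl_toks (n := n) (t := y) (by omega) ([], [], true)
    obtain ⟨dx, hdx, ex, ex2⟩ := Fl_toks (n := n) (t := x) (by omega)
      (y.toks.foldr (gStep n) ([], [], true))
    have h1 : grn n (x.toks ++ y.toks) =
        x.toks.foldr (gStep n) (y.toks.foldr (gStep n) ([], [], true)) := by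
      rw [grn, List.foldr_append]
    rw [h1, ex, ex2, ey, ey2]
    refine ⟨⟨rfl, rfl⟩, ?_⟩
    show bval dx.2.2.2.1 + bval dy.2.2.2.1 ≤ n
    rw [hdx.2.2.1, hdy.2.2.1]
    exact hxy

theorem flags_length (n : ℕ) (T : List Tok) : (flags n T).length = T.length := by
  induction T with
  | nil => rfl
  | cons q T ih =>
    have h1 : flags n (q :: T) =
        (snw n q ((grn n T).1.headD gt0) ((grn n T).1.tail.headD gt0)).1 :: flags n T := rfl
    rw [h1, List.length_cons, List.length_cons, ih]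

theorem zf_length (n : ℕ) (T : List Tok) : (zf n T).length = T.length := by
  rw [zf, List.length_zip, flags_length, min_self]

private theorem Fl_stk_op {n k : ℕ} {T : List Tok} {st U : List Tm} {a b : Tm} (h0 : k ≠ 0)
    (h4 : k < 4) (h1 : List.Forall₂ (Fl_D n) (grn n T).1 (a :: b :: st))
    (h2 : ∀ u ∈ a :: b :: st, wg u 0 ≤ n)
    (h3 : (grn n T).2.1 = (U.map fun u => decide (wg u 1 ≤ n)).reverse)
    (hN : wg (Fl_mk k a b) 0 ≤ n) :
    List.Forall₂ (Fl_D n) (grn n ((k, []) :: T)).1 (Fl_mk k a b :: st) ∧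
      (∀ u ∈ Fl_mk k a b :: st, wg u 0 ≤ n) ∧
      (grn n ((k, []) :: T)).2.1 =
        ((U ++ [Fl_mk k a b]).map fun u => decide (wg u 1 ≤ n)).reverse := by
  rw [Fl_cons, Fl_opStep h0 (by omega)]
  have hlen : 2 ≤ (grn n T).1.length := by
    rw [h1.length_eq]
    simp
  obtain ⟨da, db, r, x, y, l', e1, e2, hda, hdb, h6⟩ := Fl_two h1 hlen
  obtain ⟨rfl, e3⟩ := List.cons.inj e2
  obtain ⟨rfl, rfl⟩ := List.cons.inj e3
  rw [e1]
  obtain ⟨h7, h8⟩ := Fl_op [] h0 h4 hda hdb (h2 a (by simp)) (h2 b (by simp))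
  have h9 := h8 hN
  refine ⟨List.Forall₂.cons h9 h6, ?_, ?_⟩
  · intro u hu
    rcases List.mem_cons.1 hu with rfl | hu
    · exact hN
    · exact h2 u (by simp [hu])
  · rw [List.map_append, List.reverse_append, ← h3]
    have h10 : (snw n (k, []) da db).1 = decide (wg (Fl_mk k a b) 1 ≤ n) := by
      have h11 : (snw n (k, []) da db).1 = (gnw n (k, []) da db).2.2.1.1 := rfl
      rw [h11, h9.2.1]
    show (snw n (k, []) da db).1 :: (grn n T).2.1 = _
    rw [h10]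
    rfl

private theorem Fl_stk {n : ℕ} {T : List Tok} {st U : List Tm} (h : Stk T st U)
    (hU : ∀ u ∈ U, Gd n u) :
    List.Forall₂ (Fl_D n) (grn n T).1 st ∧ (∀ u ∈ st, wg u 0 ≤ n) ∧
      (grn n T).2.1 = (U.map fun u => decide (wg u 1 ≤ n)).reverse := by
  induction h with
  | nil => exact ⟨List.Forall₂.nil, by simp, rfl⟩
  | @one T st U h ih =>
    obtain ⟨h1, h2, h3⟩ := ih (fun u hu => hU u (List.mem_append_left _ hu))
    rw [Fl_cons, Fl_leaf0]
    refine ⟨List.Forall₂.cons (Fl_D0 n) h1, ?_, ?_⟩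
    · intro u hu
      rcases List.mem_cons.1 hu with rfl | hu
      · exact (hU _ (by simp)).1
      · exact h2 u hu
    · rw [List.map_append, List.reverse_append, ← h3, Fl_ble]
      rfl
  | @var T st U w h ih =>
    obtain ⟨h1, h2, h3⟩ := ih (fun u hu => hU u (List.mem_append_left _ hu))
    rw [Fl_cons, Fl_leaf4]
    refine ⟨List.Forall₂.cons (Fl_D4 n w) h1, ?_, ?_⟩
    · intro u hu
      rcases List.mem_cons.1 hu with rfl | hu
      · exact (hU _ (by simp)).1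
      · exact h2 u hu
    · rw [List.map_append, List.reverse_append, ← h3, Fl_ble]
      rfl
  | @add T st U a b h ih =>
    obtain ⟨h1, h2, h3⟩ := ih (fun u hu => hU u (List.mem_append_left _ hu))
    have h4 := (hU (.add a b) (List.mem_append_right _ (List.mem_singleton.2 rfl))).1
    exact Fl_stk_op (k := 1) (by norm_num) (by norm_num) h1 h2 h3 h4
  | @mul T st U a b h ih =>
    obtain ⟨h1, h2, h3⟩ := ih (fun u hu => hU u (List.mem_append_left _ hu))
    have h4 := (hU (.mul a b) (List.mem_append_right _ (List.mem_singleton.2 rfl))).1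
    exact Fl_stk_op (k := 2) (by norm_num) (by norm_num) h1 h2 h3 h4
  | @pow T st U a b h ih =>
    obtain ⟨h1, h2, h3⟩ := ih (fun u hu => hU u (List.mem_append_left _ hu))
    have h4 := (hU (.pow a b) (List.mem_append_right _ (List.mem_singleton.2 rfl))).1
    exact Fl_stk_op (k := 3) (by norm_num) (by norm_num) h1 h2 h3 h4

/-- The flags of a stack of terms. -/
theorem flags_stk {n : ℕ} {T : List Tok} {st U : List Tm} (h : Stk T st U)
    (hU : ∀ u ∈ U, Gd n u) :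
    flags n T = (U.map fun u => decide (wg u 1 ≤ n)).reverse := by
  exact (Fl_stk h hU).2.2

theorem zf_drop (n : ℕ) (T : List Tok) (k : ℕ) : (zf n T).drop k = zf n (T.drop k) := by
  induction T generalizing k with
  | nil => cases k <;> rfl
  | cons q T ih =>
    cases k with
    | zero => rfl
    | succ k =>
      have h1 : zf n (q :: T) =
          (q, (snw n q ((grn n T).1.headD gt0) ((grn n T).1.tail.headD gt0)).1) :: zf n T := rfl
      rw [h1, List.drop_succ_cons, List.drop_succ_cons, ih]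

/-! ### Polynomial time -/

private def Fl_sm (L : ℕ) (d : Gt) : Prop :=
  (d.2.1.1.length ≤ L ∧ d.2.1.2.length ≤ L) ∧
    d.2.2.2.1.length ≤ L ∧ d.2.2.2.2.1.length ≤ L ∧ d.2.2.2.2.2.length ≤ L

private theorem Fl_len_cond {L : ℕ} {c : Bool} {a b : List Bool} (ha : a.length ≤ L)
    (hb : b.length ≤ L) : (bif c then a else b).length ≤ L := by
  cases c
  · exact hb
  · exact ha

private def Fl_P2 (L : ℕ) (t : List Bool × List Bool) : Prop :=
  t.1.length ≤ L ∧ t.2.length ≤ L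

private def Fl_P3 (L : ℕ) (t : List Bool × List Bool × List Bool) : Prop :=
  t.1.length ≤ L ∧ t.2.1.length ≤ L ∧ t.2.2.length ≤ L

private theorem Fl_two_cond {L : ℕ} {c : Bool} {a b : List Bool × List Bool}
    (ha : Fl_P2 L a) (hb : Fl_P2 L b) : Fl_P2 L (bif c then a else b) := by
  cases c
  · exact hb
  · exact ha

private theorem Fl_three_cond {L : ℕ} {c : Bool} {a b : List Bool × List Bool × List Bool}
    (ha : Fl_P3 L a) (hb : Fl_P3 L b) : Fl_P3 L (bif c then a else b) := by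
  cases c
  · exact hb
  · exact ha

private theorem Fl_P2m {L : ℕ} {x y : List Bool} (hx : x.length ≤ L) (hy : y.length ≤ L) :
    Fl_P2 L (x, y) := ⟨hx, hy⟩

private theorem Fl_P3m {L : ℕ} {x y z : List Bool} (hx : x.length ≤ L) (hy : y.length ≤ L)
    (hz : z.length ≤ L) : Fl_P3 L (x, y, z) := ⟨hx, hy, hz⟩

private theorem Fl_sm_new {n L : ℕ} (h1 : 1 ≤ L) (hr : ∀ x y, (rad (Mw n) x y).length ≤ L)
    (hm : ∀ x y, (rmu (Mw n) x y).length ≤ L)
    (hp : ∀ x y, (bpw x y (md (Mw n))).length ≤ L) (q : Tok) (a b : Gt) :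
    Fl_sm L (gnw n q a b) := by
  have ht : ([true] : List Bool).length ≤ L := h1
  have h0 : ([] : List Bool).length ≤ L := Nat.zero_le _
  have h3 : ∀ x y, (add3 n x y).length ≤ L := fun x y => hr _ _
  have k1 : Fl_P2 L (cnw n q a b) := by
    unfold cnw
    exact Fl_two_cond (Fl_P2m ht h0) (Fl_two_cond (Fl_P2m h0 h0) (Fl_two_cond
      (Fl_P2m (hr _ _) (h3 _ _)) (Fl_two_cond (Fl_P2m (hm _ _) (hr _ _))
        (Fl_P2m (Fl_len_cond (hp _ _) h0) (hm _ _)))))
  have k2 : Fl_P3 L (wnw n q a b) := by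
    unfold wnw
    exact Fl_three_cond (Fl_P3m ht ht ht) (Fl_three_cond (Fl_P3m (h3 _ _) (h3 _ _) (h3 _ _))
      (Fl_three_cond (Fl_P3m (h3 _ _) (h3 _ _) (h3 _ _))
        (Fl_P3m (Fl_len_cond (h3 _ _) (h3 _ _)) (h3 _ _) (hr _ _))))
  exact ⟨k1, k2⟩

private theorem Fl_Mw_len (n : ℕ) : (Mw n).length = 3 * n + 7 := by
  simp [Mw, pow2]

private theorem Fl_sm_sz {n : ℕ} {d : Gt} (h : Fl_sm (3 * n + 11) d) :
    sz d ≤ 60 * n + 400 := by
  obtain ⟨⟨h1, h2⟩, h3, h4, h5⟩ := h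
  have s1 := sz_prod d
  have s2 := sz_prod d.1
  have s3 := sz_prod d.2
  have s4 := sz_prod d.2.1
  have s5 := sz_prod d.2.2
  have s6 := sz_prod d.2.2.1
  have s7 := sz_prod d.2.2.2
  have s8 := sz_prod d.2.2.2.2
  have t1 := sz_bool_le d.1.1
  have t2 := sz_bool_le d.1.2
  have t3 := sz_bool_le d.2.2.1.1
  have t4 := sz_bool_le d.2.2.1.2
  have u1 := (sz_bool_list d.2.1.1).2
  have u2 := (sz_bool_list d.2.1.2).2
  have u3 := (sz_bool_list d.2.2.2.1).2
  have u4 := (sz_bool_list d.2.2.2.2.1).2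
  have u5 := (sz_bool_list d.2.2.2.2.2).2
  omega

private theorem Fl_fst (n : ℕ) (q : Tok) (s : List Gt × List Bool × Bool) :
    (gStep n q s).1 = gnw n q (s.1.headD gt0) (s.1.tail.headD gt0) :: s.1 ∨
    (gStep n q s).1 = gnw n q (s.1.headD gt0) (s.1.tail.headD gt0) :: s.1.tail.tail := by
  unfold gStep
  cases (decide (q.1 = 0) || decide (q.1 = 4))
  · right
    rfl
  · left
    rfl

private theorem Fl_F_len (n : ℕ) (T : List Tok) : (grn n T).1.length ≤ T.length := by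
  induction T with
  | nil => exact le_rfl
  | cons q T ih =>
    rw [Fl_cons, List.length_cons]
    rcases Fl_fst n q (grn n T) with h | h
    · rw [h, List.length_cons]
      omega
    · rw [h, List.length_cons, List.length_tail, List.length_tail]
      omega

private theorem Fl_F_sm {n L : ℕ}
    (hw : ∀ q a b, Fl_sm L (gnw n q a b)) (T : List Tok) :
    ∀ d ∈ (grn n T).1, Fl_sm L d := by
  induction T with
  | nil =>
    intro d hd
    exact absurd hd List.not_mem_nil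
  | cons q T ih =>
    intro d hd
    rw [Fl_cons] at hd
    rcases Fl_fst n q (grn n T) with h | h
    · rw [h] at hd
      rcases List.mem_cons.1 hd with rfl | hd
      · exact hw _ _ _
      · exact ih d hd
    · rw [h] at hd
      rcases List.mem_cons.1 hd with rfl | hd
      · exact hw _ _ _
      · exact ih d (List.mem_of_mem_tail (List.mem_of_mem_tail hd))

private theorem Fl_sm_all (n : ℕ) (T : List Tok) : ∀ d ∈ (grn n T).1, Fl_sm (3 * n + 11) d := by
  have h0 := Fl_Mw_len n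
  refine Fl_F_sm (fun q a b => Fl_sm_new (by omega) ?_ ?_ ?_ q a b) T
  · intro x y
    have h1 := Pool.Agent.TW.length_rad_le (Mw n) x y
    omega
  · intro x y
    have h1 := Pool.Agent.TW.length_rmu_le (Mw n) x y
    omega
  · intro x y
    have h1 := length_bpw_le x y (md (Mw n))
    have h2 := Pool.Agent.TW.length_md_le (Mw n)
    omega

private theorem Fl_pMw {fn : α → ℕ} (hn : Poly fn) : Poly (fun a => Mw (fn a)) :=
  Pool.Agent.TW.poly_pow2 (f := fun a => 3 * fn a + 6) (by fun_prop)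

private theorem Fl_pnb {fn : α → ℕ} (hn : Poly fn) : Poly (fun a => nb (fn a)) := by
  refine H.MP_5be563_lc.PT.Poly.iterate (f := fun (_ : α) (l : List Bool) => btrim (badd l [true]))
    (s := fun _ => ([] : List Bool)) (n := fn) (B := fun a => 4 * sz (fn a) + 1) (by fun_prop)
    (by fun_prop) hn (((PBdd.const 4).mul hn.sz_le).add (PBdd.const 1)) ?_
  intro a k hk
  change sz (nb k) ≤ _
  have h1 := (sz_bool_list (nb k)).2
  have h2 := Fl_nb_length k
  rw [sz_nat]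
  omega

private theorem Fl_padd3 {fn : α → ℕ} {f g : α → List Bool} (hn : Poly fn) (hf : Poly f)
    (hg : Poly g) : Poly (fun a => add3 (fn a) (f a) (g a)) := by
  have hm := Fl_pMw hn
  have t2 : Poly (fun _ : α => [true]) := by fun_prop
  exact Pool.Agent.TW.Poly.rad hm (Pool.Agent.TW.Poly.rad hm hf hg) t2

private theorem Fl_pfnw {fq : α → Tok} {f g : α → Gt} (hq : Poly fq) (hf : Poly f)
    (hg : Poly g) : Poly (fun a => fnw (fq a) (f a) (g a)) := by
  have k1 : Poly (fun a => (fq a).1) := Poly.fst.comp hq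
  have c0 : Poly (fun a => decide ((fq a).1 = 0)) := k1.isZero
  have c1 : Poly (fun a => decide ((fq a).1 = 1)) := k1.nateq (H.MP_5be563_lc.PT.Poly.const _)
  have c2 : Poly (fun a => decide ((fq a).1 = 2)) := k1.nateq (H.MP_5be563_lc.PT.Poly.const _)
  have c4 : Poly (fun a => decide ((fq a).1 = 4)) := k1.nateq (H.MP_5be563_lc.PT.Poly.const _)
  have t1 : Poly (fun _ : α => true) := H.MP_5be563_lc.PT.Poly.const _
  have w0 : Poly (fun _ : α => ((false, true) : Bool × Bool)) := H.MP_5be563_lc.PT.Poly.const _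
  have w4 : Poly (fun _ : α => ((true, false) : Bool × Bool)) := H.MP_5be563_lc.PT.Poly.const _
  have f1 : Poly (fun a => (f a).1.1) := Poly.fst.comp (Poly.fst.comp hf)
  have f2 : Poly (fun a => (f a).1.2) := Poly.snd.comp (Poly.fst.comp hf)
  have g1 : Poly (fun a => (g a).1.1) := Poly.fst.comp (Poly.fst.comp hg)
  have g2 : Poly (fun a => (g a).1.2) := Poly.snd.comp (Poly.fst.comp hg)
  exact Poly.cond c0 w0 (Poly.cond c4 w4 (Poly.cond c1 (t1.pair (f2.and g2))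
    (Poly.cond c2 ((f1.or g1).pair (f2.and g2)) (f1.pair ((f2.and g2).or f1.not)))))

private theorem Fl_pcnw {fn : α → ℕ} {fq : α → Tok} {f g : α → Gt} (hn : Poly fn)
    (hq : Poly fq) (hf : Poly f) (hg : Poly g) :
    Poly (fun a => cnw (fn a) (fq a) (f a) (g a)) := by
  have hm := Fl_pMw hn
  have k1 : Poly (fun a => (fq a).1) := Poly.fst.comp hq
  have c0 : Poly (fun a => decide ((fq a).1 = 0)) := k1.isZero
  have c1 : Poly (fun a => decide ((fq a).1 = 1)) := k1.nateq (H.MP_5be563_lc.PT.Poly.const _)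
  have c2 : Poly (fun a => decide ((fq a).1 = 2)) := k1.nateq (H.MP_5be563_lc.PT.Poly.const _)
  have c4 : Poly (fun a => decide ((fq a).1 = 4)) := k1.nateq (H.MP_5be563_lc.PT.Poly.const _)
  have t0 : Poly (fun _ : α => ([] : List Bool)) := H.MP_5be563_lc.PT.Poly.const _
  have t1 : Poly (fun _ : α => [true]) := H.MP_5be563_lc.PT.Poly.const _
  have f1 : Poly (fun a => (f a).1.1) := Poly.fst.comp (Poly.fst.comp hf)
  have g2 : Poly (fun a => (g a).1.2) := Poly.snd.comp (Poly.fst.comp hg)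
  have f3 : Poly (fun a => (f a).2.1.1) := Poly.fst.comp (Poly.fst.comp (Poly.snd.comp hf))
  have f4 : Poly (fun a => (f a).2.1.2) := Poly.snd.comp (Poly.fst.comp (Poly.snd.comp hf))
  have g3 : Poly (fun a => (g a).2.1.1) := Poly.fst.comp (Poly.fst.comp (Poly.snd.comp hg))
  have g4 : Poly (fun a => (g a).2.1.2) := Poly.snd.comp (Poly.fst.comp (Poly.snd.comp hg))
  exact Poly.cond c0 (t1.pair t0) (Poly.cond c4 (t0.pair t0)
    (Poly.cond c1 ((Pool.Agent.TW.Poly.rad hm f3 g3).pair (Fl_padd3 hn f4 g4))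
    (Poly.cond c2 ((Pool.Agent.TW.Poly.rmu hm f3 g3).pair (Pool.Agent.TW.Poly.rad hm f4 g4))
      ((Poly.cond (g2.or f1.not)
        (Pool.Agent.TI.Poly.bpw f3 g3 (Pool.Agent.TW.Poly.md hm)) t0).pair
        (Pool.Agent.TW.Poly.rmu hm g3 f4)))))

private theorem Fl_pwnw {fn : α → ℕ} {fq : α → Tok} {f g : α → Gt} (hn : Poly fn)
    (hq : Poly fq) (hf : Poly f) (hg : Poly g) :
    Poly (fun a => wnw (fn a) (fq a) (f a) (g a)) := by
  have hm := Fl_pMw hn
  have k1 : Poly (fun a => (fq a).1) := Poly.fst.comp hq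
  have c0 : Poly (fun a => decide ((fq a).1 = 0)) := k1.isZero
  have c1 : Poly (fun a => decide ((fq a).1 = 1)) := k1.nateq (H.MP_5be563_lc.PT.Poly.const _)
  have c2 : Poly (fun a => decide ((fq a).1 = 2)) := k1.nateq (H.MP_5be563_lc.PT.Poly.const _)
  have c4 : Poly (fun a => decide ((fq a).1 = 4)) := k1.nateq (H.MP_5be563_lc.PT.Poly.const _)
  have t1 : Poly (fun _ : α => [true]) := H.MP_5be563_lc.PT.Poly.const _
  have g2 : Poly (fun a => (g a).1.2) := Poly.snd.comp (Poly.fst.comp hg)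
  have f4 : Poly (fun a => (f a).2.1.2) := Poly.snd.comp (Poly.fst.comp (Poly.snd.comp hf))
  have g3 : Poly (fun a => (g a).2.1.1) := Poly.fst.comp (Poly.fst.comp (Poly.snd.comp hg))
  have fw : Poly (fun a => (f a).2.2.2) := Poly.snd.comp (Poly.snd.comp (Poly.snd.comp hf))
  have gw : Poly (fun a => (g a).2.2.2) := Poly.snd.comp (Poly.snd.comp (Poly.snd.comp hg))
  have x0 : Poly (fun a => (f a).2.2.2.1) := Poly.fst.comp fw
  have x1 : Poly (fun a => (f a).2.2.2.2.1) := Poly.fst.comp (Poly.snd.comp fw)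
  have x2 : Poly (fun a => (f a).2.2.2.2.2) := Poly.snd.comp (Poly.snd.comp fw)
  have y0 : Poly (fun a => (g a).2.2.2.1) := Poly.fst.comp gw
  have y1 : Poly (fun a => (g a).2.2.2.2.1) := Poly.fst.comp (Poly.snd.comp gw)
  have y2 : Poly (fun a => (g a).2.2.2.2.2) := Poly.snd.comp (Poly.snd.comp gw)
  exact Poly.cond (c0.or c4) (t1.pair (t1.pair t1))
    (Poly.cond c1 ((Fl_padd3 hn x0 y0).pair ((Fl_padd3 hn x2 y2).pair (Fl_padd3 hn x2 y2)))
    (Poly.cond c2 ((Fl_padd3 hn x0 y0).pair ((Fl_padd3 hn x1 y1).pair (Fl_padd3 hn x2 y2)))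
      ((Poly.cond g2 (Fl_padd3 hn x0 y2) (Fl_padd3 hn x1 y2)).pair
        ((Fl_padd3 hn x1 y2).pair (Pool.Agent.TW.Poly.rad hm (Fl_padd3 hn x1 y2)
          (Pool.Agent.TW.Poly.rmu hm g3 f4))))))

private theorem Fl_psnw {fn : α → ℕ} {fq : α → Tok} {f g : α → Gt} (hn : Poly fn)
    (hq : Poly fq) (hf : Poly f) (hg : Poly g) :
    Poly (fun a => snw (fn a) (fq a) (f a) (g a)) := by
  have hb := Fl_pnb hn
  have k1 : Poly (fun a => (fq a).1) := Poly.fst.comp hq
  have c0 : Poly (fun a => decide ((fq a).1 = 0)) := k1.isZero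
  have c1 : Poly (fun a => decide ((fq a).1 = 1)) := k1.nateq (H.MP_5be563_lc.PT.Poly.const _)
  have c2 : Poly (fun a => decide ((fq a).1 = 2)) := k1.nateq (H.MP_5be563_lc.PT.Poly.const _)
  have c4 : Poly (fun a => decide ((fq a).1 = 4)) := k1.nateq (H.MP_5be563_lc.PT.Poly.const _)
  have t1 : Poly (fun _ : α => [true]) := H.MP_5be563_lc.PT.Poly.const _
  have fs : Poly (fun a => (f a).2.2.1) := Poly.fst.comp (Poly.snd.comp (Poly.snd.comp hf))
  have gs : Poly (fun a => (g a).2.2.1) := Poly.fst.comp (Poly.snd.comp (Poly.snd.comp hg))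
  have x1 : Poly (fun a => (f a).2.2.1.1) := Poly.fst.comp fs
  have x2 : Poly (fun a => (f a).2.2.1.2) := Poly.snd.comp fs
  have y1 : Poly (fun a => (g a).2.2.1.1) := Poly.fst.comp gs
  have y2 : Poly (fun a => (g a).2.2.1.2) := Poly.snd.comp gs
  have nw := Fl_pwnw hn hq hf hg
  have b0 := H.MP_5be563_lc.PT.Poly.ble t1 hb
  have b1 : Poly (fun a => ble (wnw (fn a) (fq a) (f a) (g a)).2.1 (nb (fn a))) :=
    H.MP_5be563_lc.PT.Poly.ble (Poly.fst.comp (Poly.snd.comp nw)) hb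
  have b2 : Poly (fun a => ble (wnw (fn a) (fq a) (f a) (g a)).2.2 (nb (fn a))) :=
    H.MP_5be563_lc.PT.Poly.ble (Poly.snd.comp (Poly.snd.comp nw)) hb
  exact Poly.cond (c0.or c4) (b0.pair b0)
    (Poly.cond c1 (((x2.and y2).and b1).pair ((x2.and y2).and b2))
    (Poly.cond c2 (((x1.and y1).and b1).pair ((x2.and y2).and b2))
      (((x1.and y2).and b1).pair ((x1.and y2).and b2))))

private theorem Fl_pokn {fn : α → ℕ} {fq : α → Tok} {f g : α → Gt} (hn : Poly fn)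
    (hq : Poly fq) (hf : Poly f) (hg : Poly g) :
    Poly (fun a => okn (fn a) (fq a) (f a) (g a)) := by
  have k1 : Poly (fun a => (fq a).1) := Poly.fst.comp hq
  have c3 : Poly (fun a => decide ((fq a).1 = 3)) := k1.nateq (H.MP_5be563_lc.PT.Poly.const _)
  have fs : Poly (fun a => (f a).2.2.1) := Poly.fst.comp (Poly.snd.comp (Poly.snd.comp hf))
  have gs : Poly (fun a => (g a).2.2.1) := Poly.fst.comp (Poly.snd.comp (Poly.snd.comp hg))
  have x1 : Poly (fun a => (f a).2.2.1.1) := Poly.fst.comp fs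
  have y2 : Poly (fun a => (g a).2.2.1.2) := Poly.snd.comp gs
  have g2 : Poly (fun a => (g a).1.2) := Poly.snd.comp (Poly.fst.comp hg)
  have nw := Fl_pwnw hn hq hf hg
  exact (H.MP_5be563_lc.PT.Poly.ble (Poly.fst.comp nw) (Fl_pnb hn)).and
    (c3.not.or (y2.and (g2.or x1)))

private theorem Fl_pstep {fn : α → ℕ} (hn : Poly fn) :
    Poly (fun p : α × (List Gt × List Bool × Bool) × Tok => gStep (fn p.1) p.2.2 p.2.1) := by
  have hn' : Poly (fun p : α × (List Gt × List Bool × Bool) × Tok => fn p.1) :=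
    hn.comp Poly.fst
  have q1 : Poly (fun p : α × (List Gt × List Bool × Bool) × Tok => p.2.2) := by fun_prop
  have k1 : Poly (fun p : α × (List Gt × List Bool × Bool) × Tok => p.2.2.1) :=
    Poly.fst.comp q1
  have c0 : Poly (fun p : α × (List Gt × List Bool × Bool) × Tok => decide (p.2.2.1 = 0)) :=
    k1.isZero
  have c4 : Poly (fun p : α × (List Gt × List Bool × Bool) × Tok => decide (p.2.2.1 = 4)) :=
    k1.nateq (H.MP_5be563_lc.PT.Poly.const _)
  have d1 : Poly (fun p : α × (List Gt × List Bool × Bool) × Tok => p.2.1.1) := by fun_prop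
  have d2 : Poly (fun p : α × (List Gt × List Bool × Bool) × Tok => p.2.1.2.1) := by fun_prop
  have d3 : Poly (fun p : α × (List Gt × List Bool × Bool) × Tok => p.2.1.2.2) := by fun_prop
  have k2 : Poly (fun _ : α × (List Gt × List Bool × Bool) × Tok => 2) :=
    H.MP_5be563_lc.PT.Poly.const _
  have w0 : Poly (fun _ : α × (List Gt × List Bool × Bool) × Tok => gt0) :=
    H.MP_5be563_lc.PT.Poly.const _
  have e5 : Poly (fun p : α × (List Gt × List Bool × Bool) × Tok =>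
      decide (2 ≤ p.2.1.1.length)) := k2.natle d1.length
  have ea := d1.headD w0
  have eb := d1.tail.headD w0
  have nf := Fl_pfnw q1 ea eb
  have nc := Fl_pcnw hn' q1 ea eb
  have ns := Fl_psnw hn' q1 ea eb
  have nw := Fl_pwnw hn' q1 ea eb
  have no := Fl_pokn hn' q1 ea eb
  exact ((nf.pair (nc.pair (ns.pair nw))).lcons (Poly.cond (c0.or c4) d1 d1.tail.tail)).pair
    (((Poly.fst.comp ns).lcons d2).pair ((d3.and ((c0.or c4).or e5)).and no))

private theorem Fl_prun {fn : α → ℕ} {fT : α → List Tok} (hn : Poly fn) (hT : Poly fT) :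
    Poly (fun a => grn (fn a) (fT a)) := by
  refine Poly.foldr
    (f := fun p : α × (List Gt × List Bool × Bool) × Tok => gStep (fn p.1) p.2.2 p.2.1)
    (l := fT) (s0 := fun _ => (([], [], true) : List Gt × List Bool × Bool))
    (B := fun a => sz (fT a) * (60 * sz (fn a) + 405) + 10) (Fl_pstep hn) hT (by fun_prop)
    ((hT.sz_le.mul (((PBdd.const 60).mul hn.sz_le).add (PBdd.const 405))).add (PBdd.const 10)) ?_
  intro a l₁ l₂ h
  have h3 := Fl_F_len (fn a) l₂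
  have h4 : l₂.length ≤ sz (fT a) := by
    have h5 := length_lt_sz (fT a)
    rw [h, List.length_append] at h5
    rw [h]
    omega
  change sz (grn (fn a) l₂) ≤ _
  have h6 := sz_prod (grn (fn a) l₂)
  have h6' := sz_prod (grn (fn a) l₂).2
  have h7 := sz_le_of_forall (grn (fn a) l₂).1 (60 * sz (fn a) + 400) (fun d hd => by
    have h8 := Fl_sm_sz (Fl_sm_all (fn a) l₂ d hd)
    rw [sz_nat]
    omega)
  have h10 := sz_bool_le (grn (fn a) l₂).2.2
  have h12 := (sz_bool_list (grn (fn a) l₂).2.1).2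
  have h13 : (grn (fn a) l₂).2.1.length = l₂.length := flags_length (fn a) l₂
  rw [h13] at h12
  have h11 : (grn (fn a) l₂).1.length * (60 * sz (fn a) + 400 + 1) ≤
      sz (fT a) * (60 * sz (fn a) + 401) := Nat.mul_le_mul (h3.trans h4) (by omega)
  have h14 : sz (fT a) * (60 * sz (fn a) + 405) = sz (fT a) * (60 * sz (fn a) + 401) +
      4 * sz (fT a) := by ring
  omega

theorem poly_shapeG {fn : α → ℕ} {fT : α → List Tok} (hn : Poly fn) (hT : Poly fT) :
    Poly (fun a => shapeG (fn a) (fT a)) := by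
  have h2 := Fl_prun hn hT
  have w0 : Poly (fun _ : α => gt0) := H.MP_5be563_lc.PT.Poly.const _
  have s1 : Poly (fun a => (grn (fn a) (fT a)).1) := Poly.fst.comp h2
  have s2 : Poly (fun a => (grn (fn a) (fT a)).2.2) := Poly.snd.comp (Poly.snd.comp h2)
  have k2 : Poly (fun _ : α => 2) := H.MP_5be563_lc.PT.Poly.const _
  have e1 := s1.headD w0
  have e2 := s1.tail.headD w0
  exact (s2.and (s1.length.nateq k2)).and (H.MP_5be563_lc.PT.Poly.ble
    (H.MP_5be563_lc.PT.Poly.badd (Poly.fst.comp (Poly.snd.comp (Poly.snd.comp (Poly.snd.comp e1))))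
      (Poly.fst.comp (Poly.snd.comp (Poly.snd.comp (Poly.snd.comp e2))))) (Fl_pnb hn))

theorem poly_zf {fn : α → ℕ} {fT : α → List Tok} (hn : Poly fn) (hT : Poly fT) :
    Poly (fun a => zf (fn a) (fT a)) := by
  exact Poly.zip hT (Poly.fst.comp (Poly.snd.comp (Fl_prun hn hT)))

end Pool.Agent.TV
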