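import Pool.Agent.H.MP_b2d7dd_lc.TV.Rl
import Pool.Agent.H.MP_b2d7dd_lc.TQ.Wo

/-!
# Module Stk: the family of the small subterms

Compare TD/Stk, TQ/Wo.
-/

namespace Pool.Agent.TV

open Pool.Agent.TI (Tm Tok names Tm.toks)
open Pool.Agent.TC (Stk subs exF length_subs stk_pair)
open Pool.Agent.TD (ats exA)

private theorem Stk_one (n : ℕ) : thr n .one = .one := by
  unfold thr
  split_ifs <;> rfl

private theorem Stk_cases (n : ℕ) (u : Tm) : thr n u = .one ∨ (thr n u = u ∧ wg u 1 ≤ n) := by
  unfold thr
  by_cases h : wg u 1 ≤ n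
  · exact Or.inr ⟨if_pos h, h⟩
  · exact Or.inl (if_neg h)

private theorem Stk_thr {n : ℕ} {u : Tm} (h : wg u 1 ≤ n) : thr n u = u := if_pos h

private theorem Stk_self (t : Tm) : t ∈ subs t := by
  cases t <;> simp [subs]

private theorem Stk_ats {t u : Tm} (h : u ∈ ats t) : u ∈ subs t := by
  induction t with
  | one => exact absurd h (Set.notMem_empty u)
  | var w =>
    have h1 : u = .var w := h
    rw [h1]
    exact Stk_self _
  | add s t hs ht =>
    simp only [subs, List.mem_append]
    rcases h with h | h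
    · exact Or.inl (Or.inr (hs h))
    · exact Or.inl (Or.inl (ht h))
  | mul s t hs ht =>
    simp only [subs, List.mem_append]
    rcases h with h | h
    · exact Or.inl (Or.inr (hs h))
    · exact Or.inl (Or.inl (ht h))
  | pow s t hs _ =>
    rcases h with h | h
    · rw [h.1]
      exact Stk_self _
    · simp only [subs, List.mem_append]
      exact Or.inl (Or.inr (hs h))

private theorem Stk_getD_lt {U : List Tm} (x : Tm) {i : ℕ} (hi : i < U.length) :
    (U ++ [x]).getD i .one = U.getD i .one := by
  rw [List.getD_eq_getElem?_getD, List.getD_eq_getElem?_getD, List.getElem?_append_left hi]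

private theorem Stk_getD_eq (U : List Tm) (x : Tm) : (U ++ [x]).getD U.length .one = x := by
  rw [List.getD_eq_getElem?_getD, List.getElem?_append_right le_rfl, Nat.sub_self]
  rfl

private theorem Stk_mem {U : List Tm} {a : Tm} (h : a ∈ U) :
    ∃ j < U.length, U.getD j .one = a := by
  obtain ⟨j, hj, h1⟩ := List.mem_iff_getElem.1 h
  refine ⟨j, hj, ?_⟩
  rw [List.getD_eq_getElem?_getD, List.getElem?_eq_getElem hj, h1]
  rfl

private theorem Stk_step {U : List Tm} {x : Tm}
    (ih : ∀ i < U.length, ∀ u ∈ subs (U.getD i .one), ∃ j ≤ i, U.getD j .one = u)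
    (hx : ∀ u ∈ subs x, u = x ∨ ∃ j < U.length, U.getD j .one = u) :
    ∀ i < (U ++ [x]).length, ∀ u ∈ subs ((U ++ [x]).getD i .one),
      ∃ j ≤ i, (U ++ [x]).getD j .one = u := by
  intro i hi u hu
  rw [List.length_append, List.length_singleton] at hi
  rcases Nat.lt_or_ge i U.length with h1 | h1
  · rw [Stk_getD_lt x h1] at hu
    obtain ⟨j, hj, h2⟩ := ih i h1 u hu
    exact ⟨j, hj, by rw [Stk_getD_lt x (lt_of_le_of_lt hj h1)]; exact h2⟩
  · have h2 : i = U.length := by omega
    subst h2
    rw [Stk_getD_eq] at hu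
    rcases hx u hu with h3 | ⟨j, hj, h3⟩
    · exact ⟨U.length, le_rfl, by rw [Stk_getD_eq, h3]⟩
    · exact ⟨j, hj.le, by rw [Stk_getD_lt x hj]; exact h3⟩

private theorem Stk_sub {U : List Tm}
    (ih : ∀ i < U.length, ∀ u ∈ subs (U.getD i .one), ∃ j ≤ i, U.getD j .one = u) {a : Tm}
    (ha : a ∈ U) : ∀ u ∈ subs a, ∃ j < U.length, U.getD j .one = u := by
  intro u hu
  obtain ⟨k, hk, h1⟩ := Stk_mem ha
  obtain ⟨j, hj, h2⟩ := ih k hk u (by rw [h1]; exact hu)
  exact ⟨j, lt_of_le_of_lt hj hk, h2⟩

private theorem Stk_all {T : List Tok} {st U : List Tm} (h : Stk T st U) :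
    ∀ i < U.length, ∀ u ∈ subs (U.getD i .one), ∃ j ≤ i, U.getD j .one = u := by
  induction h with
  | nil => exact fun i hi => absurd hi (Nat.not_lt_zero i)
  | one _ ih => exact Stk_step ih fun u hu => Or.inl (List.mem_singleton.1 hu)
  | var w _ ih => exact Stk_step ih fun u hu => Or.inl (List.mem_singleton.1 hu)
  | @add T st U a b h ih =>
    refine Stk_step ih fun u hu => ?_
    simp only [subs, List.mem_append, List.mem_singleton] at hu
    rcases hu with (hu | hu) | hu
    · exact Or.inr (Stk_sub ih (h.mem b (List.mem_cons_of_mem _ List.mem_cons_self)) u hu)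
    · exact Or.inr (Stk_sub ih (h.mem a List.mem_cons_self) u hu)
    · exact Or.inl hu
  | @mul T st U a b h ih =>
    refine Stk_step ih fun u hu => ?_
    simp only [subs, List.mem_append, List.mem_singleton] at hu
    rcases hu with (hu | hu) | hu
    · exact Or.inr (Stk_sub ih (h.mem b (List.mem_cons_of_mem _ List.mem_cons_self)) u hu)
    · exact Or.inr (Stk_sub ih (h.mem a List.mem_cons_self) u hu)
    · exact Or.inl hu
  | @pow T st U a b h ih =>
    refine Stk_step ih fun u hu => ?_
    simp only [subs, List.mem_append, List.mem_singleton] at hu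
    rcases hu with (hu | hu) | hu
    · exact Or.inr (Stk_sub ih (h.mem b (List.mem_cons_of_mem _ List.mem_cons_self)) u hu)
    · exact Or.inr (Stk_sub ih (h.mem a List.mem_cons_self) u hu)
    · exact Or.inl hu

private theorem Stk_pow (a b : Tm) : wg a 1 ≤ wg (.pow a b) 1 ∧ wg b 1 ≤ wg (.pow a b) 1 := by
  have e : wg (.pow a b) 1 = wg a 1 + wg b 2 + 1 := by
    simp [wg]
  have h := wg12 b
  rw [e]
  omega

/-- The family of an identity. -/
theorem fam_exT {s t : Tm} {n : ℕ} (hn : wg s 0 + wg t 0 ≤ n) :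
    FamR (names (s.toks ++ t.toks)).toFinset n (s.sz + t.sz) (exT n s t) := by
  have hF := Pool.Agent.TD.fam_exF (s := s) (t := t)
    (n := Pool.Agent.TD.wt s + Pool.Agent.TD.wt t) le_rfl
  have hlen : (subs t ++ subs s).length = s.sz + t.sz := by
    rw [List.length_append, length_subs, length_subs, add_comm]
  have hs := sz_le_wg s 0
  have ht := sz_le_wg t 0
  have up : ∀ {i : ℕ} {u : Tm}, u ∈ exA (exF s t) i → wg u 1 ≤ n → u ∈ exA (exT n s t) i := by
    rintro i u ⟨a, ha, h1, h2⟩ h3
    refine ⟨a, ha, ?_, h2⟩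
    unfold exT
    rw [← h1, Stk_thr h3]
  refine ⟨fun a => ?_, by omega, ?_, ?_, ?_, ?_⟩
  · rcases Stk_cases n (exF s t a) with h | ⟨h, h'⟩
    · have e : exT n s t a = .one := h
      rw [e]
      exact Nat.le_add_left 1 n
    · have e : exT n s t a = exF s t a := h
      rw [e]
      exact h'.trans (Nat.le_succ n)
  · intro i hi u hu
    rcases Stk_cases n (exF s t i) with h | ⟨h, h'⟩
    · have e : exT n s t i = .one := h
      rw [e] at hu
      exact absurd hu (Set.notMem_empty u)
    · have e : exT n s t i = exF s t i := h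
      rw [e] at hu
      exact up (hF.at1 i hi hu) ((ats_wg1 hu).trans h')
  · intro i hi a b hab
    rcases Stk_cases n (exF s t i) with h | ⟨h, h'⟩
    · have e : exT n s t i = .one := h
      rw [e] at hab
      exact absurd hab (by simp)
    · have e : exT n s t i = exF s t i := h
      rw [e] at hab
      obtain ⟨h1, h2⟩ := hF.at2 i hi a b hab
      rw [hab] at h'
      obtain ⟨w1, w2⟩ := Stk_pow a b
      exact ⟨fun u hu => up (h1 hu) (((ats_wg1 hu).trans w1).trans h'),
        fun u hu => up (h2 hu) (((ats_wg1 hu).trans w2).trans h')⟩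
  · intro i hi c hc
    rcases Stk_cases n (exF s t i) with h | ⟨h, h'⟩
    · have e : exT n s t i = .one := h
      rw [e] at hc
      exact absurd hc (Set.notMem_empty c)
    · have e : exT n s t i = exF s t i := h
      rw [e] at hc
      obtain ⟨w1, w2, -⟩ := ad_wg hc
      obtain ⟨j, hj, h1⟩ := Stk_all (stk_pair s t) i (by rw [hlen]; exact hi) _ w2
      refine ⟨j, hj, ?_⟩
      have h2 : exF s t j = c := h1
      unfold exT
      rw [h2]
      exact Stk_thr (w1.trans h')
  · intro i hi w hw
    rcases Stk_cases n (exF s t i) with h | ⟨h, h'⟩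
    · have e : exT n s t i = .one := h
      rw [e] at hw
      exact absurd hw (by simp)
    · have e : exT n s t i = exF s t i := h
      rw [e] at hw
      exact hF.var i hi w hw

theorem ats_exT {s t u : Tm} {n : ℕ} (hn : wg s 0 + wg t 0 ≤ n) (hu : u = s ∨ u = t) :
    ats u ⊆ exA (exT n s t) (s.sz + t.sz) := by
  intro v hv
  have hlen : (subs t ++ subs s).length = s.sz + t.sz := by
    rw [List.length_append, length_subs, length_subs, add_comm]
  have hwo : wg u 0 ≤ n := by
    rcases hu with h | h
    · rw [h]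
      omega
    · rw [h]
      omega
  have h1 := Stk_ats hv
  have h2 : v ∈ subs t ++ subs s := by
    rcases hu with h | h
    · rw [h] at h1
      exact List.mem_append_right _ h1
    · rw [h] at h1
      exact List.mem_append_left _ h1
  obtain ⟨j, hj, h3⟩ := Stk_mem h2
  refine ⟨j, by rw [← hlen]; exact hj, ?_, Pool.Agent.TD.ats_self hv⟩
  have h4 : exF s t j = v := h3
  unfold exT
  rw [h4, Stk_thr (ats_wg hwo hv)]

end Pool.Agent.TV
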