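import Pool.Agent.H.MP_b2d7dd_lc.TD.Mach
import Pool.Agent.H.MP_b2d7dd_lc.TV.Fl
import Pool.Agent.H.MP_b2d7dd_lc.TV.Hz
import Pool.Agent.H.MP_b2d7dd_lc.TV.Stk
import Pool.Agent.H.MP_b2d7dd_lc.TQ.Mach

/-!
# Module Mach: the machine

Compare TD/Mach, TQ/Mach. The tokens come with flags: the weight of the subterm in mode `1` is at most
`n`. For the other subterms the logarithmic derivative of the virtual power is replaced by `0`, and the
sums need not be invertible.
-/

namespace Pool.Agent.TV

open Pool.Agent.TI (Tm Tok names fidx fidx_eq bmod beqv bpw bsub)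
open Pool.Agent.TE (bl)
open Pool.Agent.TW (SI zv rad rmu rin rsb md tval irow evr)
open Pool.Agent.TC (Pt rf rf_pos evl Mo Su nrm Pr Gx Lx h1 h2 al ga lcP MB Vn Coh Fai Eqv Bas crd chi)
open Pool.Agent.TC (muB Pb Stk subs exF nm2 hv1 hv2 alv lcv cob eN eP uu vv Kc Qw Rr kk SS AA KK)
open Pool.Agent.TD (av cs lg wt big cst Tr ats lr e1 Hv Pz fz exA)
open Pool.Agent.H.MP_5be563_lc.PT Finset

/-- Values of a term: first character, second character, derivation, logarithmic derivative, the
numbers `e1` and `cs` (modulo `bval M + 2`), the logarithm of the constant; the flags `big` and `cst`. -/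
abbrev Vy : Type := (List Bool × List Bool × List Bool × List Bool × List Bool × List Bool ×
  List Bool) × (Bool × Bool)

/-- The values of `1`. -/
def vy0 : Vy := (([true], [true], [], [], [true], [true], []), (false, true))

/-- The virtual power with the base `a` and the exponent `b` is not constant. -/
def trx (a b : Vy) : Bool := a.2.1 && !b.2.2

/-- The logarithmic derivative of a virtual power with the base `a` and the exponent `b`. -/
def pwv (e : List Bool) (a b : Vy) : List Bool :=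
  bif trx a b then
    rmu e (rsb e b.1.2.1 b.1.2.2.2.2.2.1) (rad e a.1.2.2.2.1 a.1.2.2.2.2.2.2)
  else []

/-- The sum. -/
def adx (e M : List Bool) (v c m : ℕ) (B : List (List Bool)) (Z : List Bool) (a b : Vy) : Vy :=
  ((rad e a.1.1 b.1.1, rad e a.1.2.1 b.1.2.1, rad e a.1.2.2.1 b.1.2.2.1,
    rmu e (rad e a.1.2.2.1 b.1.2.2.1) (rin e (rad e a.1.1 b.1.1)),
    rad M a.1.2.2.2.2.1 b.1.2.2.2.2.1, rad M a.1.2.2.2.2.2.1 b.1.2.2.2.2.2.1,
    lcv e v c m B Z (rad M a.1.2.2.2.2.1 b.1.2.2.2.2.1)), (true, a.2.2 && b.2.2))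

/-- The product. -/
def mux (e M : List Bool) (a b : Vy) : Vy :=
  ((rmu e a.1.1 b.1.1, rmu e a.1.2.1 b.1.2.1,
    rad e (rmu e a.1.2.2.1 b.1.1) (rmu e a.1.1 b.1.2.2.1),
    rad e a.1.2.2.2.1 b.1.2.2.2.1,
    rmu M a.1.2.2.2.2.1 b.1.2.2.2.2.1, rmu M a.1.2.2.2.2.2.1 b.1.2.2.2.2.2.1,
    rad e a.1.2.2.2.2.2.2 b.1.2.2.2.2.2.2), (a.2.1 || b.2.1, a.2.2 && b.2.2))

/-- The power with the base `a` and the exponent `b`, for the values `h`, `r` of the characters and the
logarithmic derivative `p` of the virtual power. -/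
def pwx (e M : List Bool) (a b : Vy) (h r p : List Bool) : Vy :=
  ((rmu e h (bpw a.1.1 b.1.2.2.2.2.2.1 (md e)), rmu e r (bpw a.1.2.1 b.1.2.2.2.2.2.1 (md e)),
    rmu e (rmu e h (bpw a.1.1 b.1.2.2.2.2.2.1 (md e)))
      (rad e p (rmu e b.1.2.2.2.2.2.1 a.1.2.2.2.1)),
    rad e p (rmu e b.1.2.2.2.2.2.1 a.1.2.2.2.1),
    bpw a.1.2.2.2.2.1 b.1.2.2.2.2.2.1 (md M),
    bif b.2.2 || !a.2.1 then bpw a.1.2.2.2.2.2.1 b.1.2.2.2.2.2.1 (md M) else [],
    rmu e b.1.2.2.2.2.2.1 a.1.2.2.2.2.2.2), (a.2.1, (a.2.2 && b.2.2) || !a.2.1))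

/-- The logarithmic derivative of the next subterm. -/
def nph (e : List Bool) (v c : ℕ) (N : List (List Bool)) (Z : List Bool) (q : Tok × Bool)
    (st : List Vy) : List Bool :=
  bif q.2 then
    bif decide (q.1.1 = 4) then alv e v c N Z q.1.2
    else bif decide (q.1.1 = 3) then pwv e (st.headD vy0) (st.tail.headD vy0)
    else []
  else []

/-- The values of the next subterm. -/
def nvy (e M : List Bool) (v c m : ℕ) (B : List (List Bool)) (Z : List Bool)
    (tab : List (List SI)) (q : Tok) (st : List Vy) (p : ℕ) (h : List Bool) : Vy :=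
  bif decide (q.1 = 0) then vy0
  else bif decide (q.1 = 4) then ((hv1 e v c Z tab p, hv2 e v c Z tab p,
    rmu e (hv1 e v c Z tab p) h, h, [true], [], []), (true, false))
  else bif decide (q.1 = 1) then adx e M v c m B Z (st.headD vy0) (st.tail.headD vy0)
  else bif decide (q.1 = 2) then mux e M (st.headD vy0) (st.tail.headD vy0)
  else bif trx (st.headD vy0) (st.tail.headD vy0) then
    pwx e M (st.headD vy0) (st.tail.headD vy0) (hv1 e v c Z tab p) (hv2 e v c Z tab p) h
  else pwx e M (st.headD vy0) (st.tail.headD vy0) [true] [true] h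

/-- The value of the sum is invertible. -/
def nok (e : List Bool) (q : Tok × Bool) (x : Vy) : Bool :=
  !(q.2 && decide (q.1.1 = 1)) || beqv (rmu e x.1.1 (rin e x.1.1)) (bmod [true] (md e))

/-- One step. -/
def vstep (e M : List Bool) (v c m : ℕ) (N : List (List Bool)) (B : List (List Bool))
    (Z : List Bool) (tab : List (List SI)) (q : Tok × Bool)
    (s : List Vy × List (List Bool) × Bool) : List Vy × List (List Bool) × Bool :=
  (nvy e M v c m B Z tab q.1 s.1 s.2.1.length (nph e v c N Z q s.1) ::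
      (bif decide (q.1.1 = 0) || decide (q.1.1 = 4) then s.1 else s.1.tail.tail),
    s.2.1 ++ [nph e v c N Z q s.1],
    s.2.2 && nok e q (nvy e M v c m B Z tab q.1 s.1 s.2.1.length (nph e v c N Z q s.1)))

/-- The machine. -/
def vrun (e M : List Bool) (v c m : ℕ) (N : List (List Bool)) (B : List (List Bool))
    (Z : List Bool) (tab : List (List SI)) (T : List (Tok × Bool)) :
    List Vy × List (List Bool) × Bool :=
  T.foldr (vstep e M v c m N B Z tab) ([], [], true)

/-- The hash row for the subterms number `0, ..., i`. -/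
def vrow (e M : List Bool) (v c m : ℕ) (N : List (List Bool)) (B : List (List Bool))
    (tab : List (List SI)) (T : List (Tok × Bool)) (i : ℕ) (Z : List Bool) : List (List Bool) :=
  bif (vrun e M v c m N B Z tab (T.drop (T.length - (i + 1)))).2.2 then
    (vrun e M v c m N B Z tab (T.drop (T.length - (i + 1)))).2.1
  else List.replicate (i + 1) []

/-- The values of a term of the stack. -/
def ValV (n : ℕ) (e M : List Bool) (P : Pr (ZMod (bval e + 2))) (x : Vy) (u : Tm) : Prop :=
  zv e x.1.1 = av P.f u ∧ zv e x.1.2.1 = av P.g u ∧ x.2.1 = big u ∧ x.2.2 = cst u ∧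
    bval x.1.2.2.2.2.1 = e1 u % (bval M + 2) ∧ bval x.1.2.2.2.2.2.1 = cs u % (bval M + 2) ∧
    (wg u 1 ≤ n → zv e x.1.2.2.2.1 = (dd P u).2 ∧ zv e x.1.2.2.2.2.2.2 = lcS P u) ∧
    (wg u 2 ≤ n → zv e x.1.2.2.1 = (dd P u).1)

/-- The other parameters. -/
structure PcV (e : List Bool) (v c m : ℕ) (N : List (List Bool)) (B : List (List Bool))
    (Z : List Bool) (P : Pr (ZMod (bval e + 2))) (U : List Tm) : Prop where
  α : ∀ w, P.α w = zv e (bl v Z (2 * c + N.idxOf w))
  lc : ∀ x : List Bool, ∀ s t, Tm.add s t ∈ U → bval x = e1 (.add s t) →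
    zv e (lcv e v c m B Z x) = P.lc (e1 (.add s t))
  iv : ∀ x, P.iv x = x ^ bval e

private theorem Mach_getD_lt {U : List Tm} (x : Tm) {a : ℕ} (ha : a < U.length) :
    (U ++ [x]).getD a .one = U.getD a .one := by
  rw [List.getD_eq_getElem?_getD, List.getD_eq_getElem?_getD, List.getElem?_append_left ha]

private theorem Mach_getD_eq (U : List Tm) (x : Tm) : (U ++ [x]).getD U.length .one = x := by
  rw [List.getD_eq_getElem?_getD, List.getElem?_append_right le_rfl, Nat.sub_self]
  rfl

private theorem Mach_Hv {e : List Bool} {v c : ℕ} {Z : List Bool} {tab : List (List SI)}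
    {P : Pr (ZMod (bval e + 2))} {U : List Tm} {u : Tm} {L : ℕ} (hL : U.length ≤ L)
    (h : Hv e v c Z tab P (fun a => (U ++ [u]).getD a .one) L) :
    Hv e v c Z tab P (fun a => U.getD a .one) U.length := by
  intro a ha
  have h1 := h a (lt_of_lt_of_le ha hL)
  beta_reduce at h1 ⊢
  rw [Mach_getD_lt u ha] at h1
  exact h1

private theorem Mach_Hv' {e : List Bool} {v c : ℕ} {Z : List Bool} {tab : List (List SI)}
    {P : Pr (ZMod (bval e + 2))} {ex : ℕ → Tm} {L L' : ℕ} (hL : L ≤ L')
    (h : Hv e v c Z tab P ex L') : Hv e v c Z tab P ex L :=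
  fun a ha => h a (lt_of_lt_of_le ha hL)

private theorem Mach_last {e : List Bool} {v c : ℕ} {Z : List Bool} {tab : List (List SI)}
    {P : Pr (ZMod (bval e + 2))} {U : List Tm} {u : Tm} (hu : u ∈ ats u)
    (h : Hv e v c Z tab P (fun a => (U ++ [u]).getD a .one) (U ++ [u]).length) :
    zv e (hv1 e v c Z tab U.length) = P.f u ∧ zv e (hv2 e v c Z tab U.length) = P.g u := by
  have h1 := h U.length (by rw [List.length_append, List.length_singleton]; omega)
  beta_reduce at h1
  rw [Mach_getD_eq] at h1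
  exact h1 hu

private theorem Mach_Pc {e : List Bool} {v c m : ℕ} {N B : List (List Bool)} {Z : List Bool}
    {P : Pr (ZMod (bval e + 2))} {U : List Tm} {u : Tm} (h : PcV e v c m N B Z P (U ++ [u])) :
    PcV e v c m N B Z P U :=
  ⟨h.α, fun x a b hab => h.lc x a b (List.mem_append_left _ hab), h.iv⟩

private theorem Mach_alv {e : List Bool} {v c m : ℕ} {N B : List (List Bool)} {Z : List Bool}
    {P : Pr (ZMod (bval e + 2))} {U : List Tm} (h : PcV e v c m N B Z P U) (w : List Bool) :
    zv e (alv e v c N Z w) = P.α w := by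
  unfold alv
  rw [TW.zv_bmod, fidx_eq, h.α]

private theorem Mach_trx {n : ℕ} {e M : List Bool} {P : Pr (ZMod (bval e + 2))} {a b : Tm}
    {x y : Vy} (hx : ValV n e M P x a) (hy : ValV n e M P y b) : trx x y = true ↔ Tr a b := by
  obtain ⟨-, -, x6, -⟩ := hx
  obtain ⟨-, -, -, y7, -⟩ := hy
  unfold trx Tr
  rw [x6, y7, Bool.and_eq_true, Bool.not_eq_true']

private theorem Mach_trx' {n : ℕ} {e M : List Bool} {P : Pr (ZMod (bval e + 2))} {a b : Tm}
    {x y : Vy} (hx : ValV n e M P x a) (hy : ValV n e M P y b) (h : ¬ Tr a b) :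
    trx x y = false :=
  Bool.eq_false_iff.2 fun h1 => h ((Mach_trx hx hy).1 h1)

private theorem Mach_cs {n : ℕ} {e M : List Bool} {P : Pr (ZMod (bval e + 2))} {b : Tm} {y : Vy}
    (hy : ValV n e M P y b) (hM : 2 ^ n < bval M + 2) (hb : wg b 2 ≤ n) :
    bval y.1.2.2.2.2.2.1 = cs b := by
  obtain ⟨-, -, -, -, -, y6, -⟩ := hy
  have h1 := cs_le2 b
  have h2 : (2 : ℕ) ^ wg b 2 ≤ 2 ^ n := Nat.pow_le_pow_right (by norm_num) hb
  rw [y6, Nat.mod_eq_of_lt (by omega)]

private theorem Mach_pwv {n : ℕ} {e M : List Bool} {P : Pr (ZMod (bval e + 2))} {a b : Tm}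
    {x y : Vy} (hx : ValV n e M P x a) (hy : ValV n e M P y b)
    (hyc : bval y.1.2.2.2.2.2.1 = cs b) (ha : wg a 1 ≤ n) :
    zv e (pwv e x y) = pw P (.pow a b) := by
  unfold pwv
  by_cases hT : Tr a b
  · rw [(Mach_trx hx hy).2 hT, cond_true]
    obtain ⟨-, -, -, -, -, -, x7, -⟩ := hx
    obtain ⟨-, y2, -, -, -, -, -, -⟩ := hy
    have y5' : zv e y.1.2.2.2.2.2.1 = (cs b : ZMod (bval e + 2)) := by
      unfold TW.zv
      rw [hyc]
    rw [TW.zv_rmu, TW.zv_rsb, TW.zv_rad, (x7 ha).1, (x7 ha).2, y2, y5', pw_pow P hT]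
  · rw [Mach_trx' hx hy hT, cond_false, TW.zv_nil, pw_ntr P hT]

private theorem Mach_two {R : Vy → Tm → Prop} {l : List Vy} {a b : Tm} {st : List Tm}
    (h : List.Forall₂ R l (a :: b :: st)) (d : Vy) :
    R (l.headD d) a ∧ R (l.tail.headD d) b ∧ List.Forall₂ R l.tail.tail st := by
  match l, h with
  | _ :: _ :: _, List.Forall₂.cons h1 (List.Forall₂.cons h2 h3) => exact ⟨h1, h2, h3⟩

private theorem Mach_one_mod (M : List Bool) : 1 = 1 % (bval M + 2) :=
  (Nat.mod_eq_of_lt (by omega)).symm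

private theorem Mach_vy0 {n : ℕ} {e M : List Bool} (P : Pr (ZMod (bval e + 2))) :
    ValV n e M P vy0 .one := by
  refine ⟨TW.zv_one e, TW.zv_one e, rfl, rfl, ?_, ?_, fun _ => ⟨TW.zv_nil e, TW.zv_nil e⟩,
    fun _ => TW.zv_nil e⟩
  · show bval [true] = 1 % (bval M + 2)
    exact Mach_one_mod M
  · show bval [true] = 1 % (bval M + 2)
    exact Mach_one_mod M

private theorem Mach_rad {M : List Bool} {x y : List Bool} {a b : ℕ}
    (hx : bval x = a % (bval M + 2)) (hy : bval y = b % (bval M + 2)) :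
    bval (rad M x y) = (a + b) % (bval M + 2) := by
  unfold TW.rad
  rw [TW.bval_bmod_md, bval_badd, hx, hy, ← Nat.add_mod]

private theorem Mach_rmu {M : List Bool} {x y : List Bool} {a b : ℕ}
    (hx : bval x = a % (bval M + 2)) (hy : bval y = b % (bval M + 2)) :
    bval (rmu M x y) = (a * b) % (bval M + 2) := by
  unfold TW.rmu
  rw [TW.bval_bmod_md, bval_bmul, hx, hy, ← Nat.mul_mod]

private theorem Mach_bpw {M : List Bool} {x y : List Bool} {a b : ℕ}
    (hx : bval x = a % (bval M + 2)) (hy : bval y = b) :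
    bval (bpw x y (md M)) = a ^ b % (bval M + 2) := by
  rw [TI.bval_bpw, TW.bval_md, hx, hy, ← Nat.pow_mod]

private theorem Mach_adx {n : ℕ} {e M : List Bool} {v c m : ℕ} {N B : List (List Bool)}
    {Z : List Bool} {P : Pr (ZMod (bval e + 2))} {U : List Tm} {a b : Tm} {x y : Vy}
    (hP : PcV e v c m N B Z P (U ++ [thr n (.add a b)]))
    (hx : ValV n e M P x a) (hy : ValV n e M P y b) (hM : 2 ^ n < bval M + 2) :
    ValV n e M P (adx e M v c m B Z x y) (.add a b) := by
  obtain ⟨x1, x2, x3, x4, x5, x6, x7, x8⟩ := hx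
  obtain ⟨y1, y2, y3, y4, y5, y6, y7, y8⟩ := hy
  have e1m : bval (rad M x.1.2.2.2.2.1 y.1.2.2.2.2.1) = (e1 a + e1 b) % (bval M + 2) :=
    Mach_rad x5 y5
  have hw1 : wg (.add a b) 1 = wg a 2 + wg b 2 + 1 := (wg_add a b).1
  have hw2 : wg (.add a b) 2 = wg a 2 + wg b 2 + 1 := (wg_add a b).2
  refine ⟨?_, ?_, rfl, ?_, e1m, Mach_rad x6 y6, fun h => ⟨?_, ?_⟩, fun h => ?_⟩
  · show zv e (rad e x.1.1 y.1.1) = av P.f a + av P.f b
    rw [TW.zv_rad, x1, y1]
  · show zv e (rad e x.1.2.1 y.1.2.1) = av P.g a + av P.g b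
    rw [TW.zv_rad, x2, y2]
  · show (x.2.2 && y.2.2) = (cst a && cst b)
    rw [x4, y4]
  · show zv e (rmu e (rad e x.1.2.2.1 y.1.2.2.1) (rin e (rad e x.1.1 y.1.1))) =
      ((dd P a).1 + (dd P b).1) * P.iv (av P.f a + av P.f b)
    rw [TW.zv_rmu, TW.zv_rin, TW.zv_rad, TW.zv_rad, x8 (by omega), y8 (by omega), x1, y1, hP.iv]
  · show zv e (lcv e v c m B Z (rad M x.1.2.2.2.2.1 y.1.2.2.2.2.1)) = P.lc (e1 (.add a b))
    refine hP.lc _ a b (List.mem_append_right _ (List.mem_singleton.2 (if_pos h).symm)) ?_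
    have h1 : e1 (.add a b) ≤ 2 ^ lg (.add a b) := TD.e1_le (.add a b)
    have h2 : lg (.add a b) ≤ n := (lg_le2 (.add a b)).trans (by omega)
    have h3 : (2 : ℕ) ^ lg (.add a b) ≤ 2 ^ n := Nat.pow_le_pow_right (by norm_num) h2
    have h4 : e1 (.add a b) = e1 a + e1 b := rfl
    rw [e1m, h4, Nat.mod_eq_of_lt (by omega)]
  · show zv e (rad e x.1.2.2.1 y.1.2.2.1) = (dd P a).1 + (dd P b).1
    rw [TW.zv_rad, x8 (by omega), y8 (by omega)]

private theorem Mach_mux {n : ℕ} {e M : List Bool} {P : Pr (ZMod (bval e + 2))} {a b : Tm}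
    {x y : Vy} (hx : ValV n e M P x a) (hy : ValV n e M P y b) :
    ValV n e M P (mux e M x y) (.mul a b) := by
  obtain ⟨x1, x2, x3, x4, x5, x6, x7, x8⟩ := hx
  obtain ⟨y1, y2, y3, y4, y5, y6, y7, y8⟩ := hy
  have hw1 : wg (.mul a b) 1 = wg a 1 + wg b 1 + 1 := rfl
  have hw2 : wg (.mul a b) 2 = wg a 2 + wg b 2 + 1 := rfl
  refine ⟨?_, ?_, ?_, ?_, Mach_rmu x5 y5, Mach_rmu x6 y6, fun h => ⟨?_, ?_⟩, fun h => ?_⟩
  · show zv e (rmu e x.1.1 y.1.1) = av P.f a * av P.f b
    rw [TW.zv_rmu, x1, y1]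
  · show zv e (rmu e x.1.2.1 y.1.2.1) = av P.g a * av P.g b
    rw [TW.zv_rmu, x2, y2]
  · show (x.2.1 || y.2.1) = (big a || big b)
    rw [x3, y3]
  · show (x.2.2 && y.2.2) = (cst a && cst b)
    rw [x4, y4]
  · show zv e (rad e x.1.2.2.2.1 y.1.2.2.2.1) = (dd P a).2 + (dd P b).2
    rw [TW.zv_rad, (x7 (by omega)).1, (y7 (by omega)).1]
  · show zv e (rad e x.1.2.2.2.2.2.2 y.1.2.2.2.2.2.2) = lcS P a + lcS P b
    rw [TW.zv_rad, (x7 (by omega)).2, (y7 (by omega)).2]
  · show zv e (rad e (rmu e x.1.2.2.1 y.1.1) (rmu e x.1.1 y.1.2.2.1)) =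
      (dd P a).1 * av P.f b + av P.f a * (dd P b).1
    rw [TW.zv_rad, TW.zv_rmu, TW.zv_rmu, x8 (by omega), y8 (by omega), x1, y1]

private theorem Mach_pwx {n : ℕ} {e M : List Bool} {P : Pr (ZMod (bval e + 2))} {a b : Tm}
    {x y : Vy} {h r p : List Bool} (hx : ValV n e M P x a) (hy : ValV n e M P y b)
    (hyc : bval y.1.2.2.2.2.2.1 = cs b)
    (hh : zv e h = if Tr a b then P.f (.pow a b) else 1)
    (hr : zv e r = if Tr a b then P.g (.pow a b) else 1)
    (hp : wg (.pow a b) 1 ≤ n → zv e p = pw P (.pow a b)) :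
    ValV n e M P (pwx e M x y h r p) (.pow a b) := by
  obtain ⟨x1, x2, x3, x4, x5, x6, x7, x8⟩ := hx
  obtain ⟨y1, y2, y3, y4, y5, y6, y7, y8⟩ := hy
  have y5' : zv e y.1.2.2.2.2.2.1 = (cs b : ZMod (bval e + 2)) := by
    unfold TW.zv
    rw [hyc]
  have hw12 := wg12 (.pow a b)
  have hw1 : wg (.pow a b) 1 = wg a 1 + wg b 2 + 1 + 0 := rfl
  have hd : wg (.pow a b) 1 ≤ n → zv e (rad e p (rmu e y.1.2.2.2.2.2.1 x.1.2.2.2.1)) =
      pw P (.pow a b) + cs b * (dd P a).2 := by
    intro hw
    rw [TW.zv_rad, TW.zv_rmu, hp hw, y5', (x7 (by omega)).1]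
  have hf : zv e (rmu e h (bpw x.1.1 y.1.2.2.2.2.2.1 (md e))) =
      (if Tr a b then P.f (.pow a b) else 1) * av P.f a ^ cs b := by
    rw [TW.zv_rmu, TW.zv_bpw, hh, x1, hyc]
  refine ⟨hf, ?_, x3, ?_, ?_, ?_, fun hw => ⟨?_, ?_⟩, fun hw => ?_⟩
  · show zv e (rmu e r (bpw x.1.2.1 y.1.2.2.2.2.2.1 (md e))) =
      (if Tr a b then P.g (.pow a b) else 1) * av P.g a ^ cs b
    rw [TW.zv_rmu, TW.zv_bpw, hr, x2, hyc]
  · show ((x.2.2 && y.2.2) || !x.2.1) = ((cst a && cst b) || !big a)
    rw [x4, y4, x3]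
  · show bval (bpw x.1.2.2.2.2.1 y.1.2.2.2.2.2.1 (md M)) = e1 a ^ cs b % (bval M + 2)
    exact Mach_bpw x5 hyc
  · show bval (bif y.2.2 || !x.2.1 then bpw x.1.2.2.2.2.2.1 y.1.2.2.2.2.2.1 (md M) else []) =
      (if (cst b || !big a) = true then cs a ^ cs b else 0) % (bval M + 2)
    rw [y4, x3]
    cases h3 : (cst b || !big a) with
    | true =>
      rw [cond_true, if_pos rfl]
      exact Mach_bpw x6 hyc
    | false =>
      rw [cond_false, if_neg Bool.false_ne_true, Nat.zero_mod]
      exact bval_nil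
  · exact hd hw
  · show zv e (rmu e y.1.2.2.2.2.2.1 x.1.2.2.2.2.2.2) = cs b * lcS P a
    rw [TW.zv_rmu, y5', (x7 (by omega)).2]
  · show zv e (rmu e (rmu e h (bpw x.1.1 y.1.2.2.2.2.2.1 (md e)))
        (rad e p (rmu e y.1.2.2.2.2.2.1 x.1.2.2.2.1))) =
      (if Tr a b then P.f (.pow a b) else 1) * av P.f a ^ cs b *
        (pw P (.pow a b) + cs b * (dd P a).2)
    rw [TW.zv_rmu, hf, hd (by omega)]

private theorem Mach_ok {e : List Bool} {P : Pr (ZMod (bval e + 2))}
    (hiv : ∀ x, P.iv x = x ^ bval e) {a : Tm} {x : List Bool} (hx : zv e x = av P.f a) :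
    beqv (rmu e x (rin e x)) (bmod [true] (md e)) = true ↔
      av P.f a * P.iv (av P.f a) = 1 := by
  have h1 : zv e (bmul x (rin e x)) = zv e x * zv e x ^ bval e := by
    rw [← TW.zv_rin, ← TW.zv_rmu, TW.rmu, TW.zv_bmod]
  unfold TW.rmu
  rw [TW.beqv_bmod_iff, h1, TW.zv_one, hx, hiv]

private theorem Mach_mem {Q : Tm → Prop} {U : List Tm} {u : Tm} (hu : ∀ a b, u ≠ .add a b) :
    (∀ a b, Tm.add a b ∈ U ++ [u] → Q (.add a b)) ↔ ∀ a b, Tm.add a b ∈ U → Q (.add a b) := by
  refine ⟨fun h a b hab => h a b (List.mem_append_left _ hab), fun h a b hab => ?_⟩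
  rcases List.mem_append.1 hab with h1 | h1
  · exact h a b h1
  · exact absurd (List.mem_singleton.1 h1).symm (hu a b)

private theorem Mach_memp {Q : Tm → Prop} {U : List Tm} {a' b' : Tm} :
    (∀ a b, Tm.add a b ∈ U ++ [.add a' b'] → Q (.add a b)) ↔
      (∀ a b, Tm.add a b ∈ U → Q (.add a b)) ∧ Q (.add a' b') := by
  refine ⟨fun h => ⟨fun a b hab => h a b (List.mem_append_left _ hab),
    h a' b' (List.mem_append_right _ (List.mem_singleton.2 rfl))⟩, fun h a b hab => ?_⟩
  rcases List.mem_append.1 hab with h1 | h1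
  · exact h.1 a b h1
  · rw [List.mem_singleton.1 h1]
    exact h.2

private theorem Mach_hv {W : Finset (List Bool)} {e : List Bool} {v c : ℕ}
    {N B : List (List Bool)} (Z : List Bool) {tab : List (List SI)} {ex : ℕ → Tm} {L : ℕ}
    (hc : Coh (fun a => lr W (ex a)) L (tab.map irow)) {a : ℕ} (ha : a < L) :
    zv e (hv1 e v c Z tab a) = (Pz W e v c N B (tab.map irow) ex L Z).f (ex a) ∧
      zv e (hv2 e v c Z tab a) = (Pz W e v c N B (tab.map irow) ex L Z).g (ex a) := by
  refine ⟨?_, ?_⟩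
  · have h1 := TC.chi_vec (fun b => TW.wun e (bl v Z b)) hc ha
    refine Eq.trans ?_ h1.symm
    unfold hv1
    rw [TW.zv_tval]
    congr 1
    refine Finset.prod_congr rfl fun b _ => ?_
    have h2 : TW.wfun e v c nm2 Z [] b = TW.wun e (bl v Z b) := by
      unfold TW.wfun
      rw [show nm2.idxOf [] = 0 from rfl, Nat.zero_mul, Nat.zero_add]
    rw [h2]
  · have h1 := TC.chi_vec (fun b => TW.wun e (bl v Z (c + b))) hc ha
    refine Eq.trans ?_ h1.symm
    unfold hv2
    rw [TW.zv_tval]
    congr 1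
    refine Finset.prod_congr rfl fun b _ => ?_
    have h2 : TW.wfun e v c nm2 Z [true] b = TW.wun e (bl v Z (c + b)) := by
      unfold TW.wfun
      rw [show nm2.idxOf [true] = 1 from rfl, Nat.one_mul]
    rw [h2]

private theorem Mach_getD_map {A B C : Type} {f : A → C} {g : B → C} {l : List A} {r : List B}
    (h : l.map f = r.map g) {a : ℕ} (ha : a < r.length) (d : A) (d' : B) :
    f (l.getD a d) = g (r.getD a d') := by
  have h1 : l.length = r.length := by
    have h2 := congrArg List.length h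
    rw [List.length_map, List.length_map] at h2
    exact h2
  rw [List.getD_eq_getElem _ _ (by omega : a < l.length), List.getD_eq_getElem _ _ ha]
  have h3 : (l.map f)[a]'(by rw [List.length_map]; omega) =
      (r.map g)[a]'(by rw [List.length_map]; omega) := List.getElem_of_eq h _
  rw [List.getElem_map, List.getElem_map] at h3
  exact h3

private theorem Mach_cons (e M : List Bool) (v c m : ℕ) (N B : List (List Bool)) (Z : List Bool)
    (tab : List (List SI)) (q : Tok × Bool) (T : List (Tok × Bool)) :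
    vrun e M v c m N B Z tab (q :: T) =
      vstep e M v c m N B Z tab q (vrun e M v c m N B Z tab T) := rfl

private theorem Mach_len (e M : List Bool) (v c m : ℕ) (N B : List (List Bool)) (Z : List Bool)
    (tab : List (List SI)) (T : List (Tok × Bool)) :
    (vrun e M v c m N B Z tab T).2.1.length = T.length := by
  induction T with
  | nil => rfl
  | cons q T ih =>
    rw [Mach_cons]
    show ((vrun e M v c m N B Z tab T).2.1 ++ [_]).length = T.length + 1
    rw [List.length_append, List.length_singleton, ih]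

private theorem Mach_zero (e M : List Bool) (v c m : ℕ) (N B : List (List Bool)) (Z : List Bool)
    (tab : List (List SI)) (d : Bool) (s : List Vy × List (List Bool) × Bool) :
    vstep e M v c m N B Z tab ((0, []), d) s = (vy0 :: s.1, s.2.1 ++ [[]], s.2.2 && true) := by
  cases d <;> rfl

private theorem Mach_four (e M : List Bool) (v c m : ℕ) (N B : List (List Bool)) (Z : List Bool)
    (tab : List (List SI)) (w : List Bool) (s : List Vy × List (List Bool) × Bool) :
    vstep e M v c m N B Z tab ((4, w), true) s =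
      (((hv1 e v c Z tab s.2.1.length, hv2 e v c Z tab s.2.1.length,
        rmu e (hv1 e v c Z tab s.2.1.length) (alv e v c N Z w), alv e v c N Z w, [true], [], []),
        (true, false)) :: s.1,
        s.2.1 ++ [alv e v c N Z w], s.2.2 && true) := rfl

private theorem Mach_add (e M : List Bool) (v c m : ℕ) (N B : List (List Bool)) (Z : List Bool)
    (tab : List (List SI)) (s : List Vy × List (List Bool) × Bool) :
    vstep e M v c m N B Z tab ((1, []), true) s =
      (adx e M v c m B Z (s.1.headD vy0) (s.1.tail.headD vy0) :: s.1.tail.tail,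
        s.2.1 ++ [[]], s.2.2 && nok e ((1, []), true)
          (adx e M v c m B Z (s.1.headD vy0) (s.1.tail.headD vy0))) := rfl

private theorem Mach_nok (e : List Bool) (x : Vy) : nok e ((1, []), true) x =
    beqv (rmu e x.1.1 (rin e x.1.1)) (bmod [true] (md e)) := by
  unfold nok
  rw [show (!((((1, []), true) : Tok × Bool).2 &&
    decide ((((1, []), true) : Tok × Bool).1.1 = 1))) = false from rfl, Bool.false_or]

private theorem Mach_addf (e M : List Bool) (v c m : ℕ) (N B : List (List Bool)) (Z : List Bool)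
    (tab : List (List SI)) (s : List Vy × List (List Bool) × Bool) :
    vstep e M v c m N B Z tab ((1, []), false) s =
      (adx e M v c m B Z (s.1.headD vy0) (s.1.tail.headD vy0) :: s.1.tail.tail,
        s.2.1 ++ [[]], s.2.2 && true) := rfl

private theorem Mach_mul (e M : List Bool) (v c m : ℕ) (N B : List (List Bool)) (Z : List Bool)
    (tab : List (List SI)) (d : Bool) (s : List Vy × List (List Bool) × Bool) :
    vstep e M v c m N B Z tab ((2, []), d) s =
      (mux e M (s.1.headD vy0) (s.1.tail.headD vy0) :: s.1.tail.tail,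
        s.2.1 ++ [[]], s.2.2 && true) := by
  cases d <;> rfl

/-- The logarithmic derivative of the power with the flag `d`. -/
private def Mach_p (e : List Bool) (d : Bool) (a b : Vy) : List Bool :=
  bif d then pwv e a b else []

private theorem Mach_pow (e M : List Bool) (v c m : ℕ) (N B : List (List Bool)) (Z : List Bool)
    (tab : List (List SI)) (d : Bool) (s : List Vy × List (List Bool) × Bool) :
    vstep e M v c m N B Z tab ((3, []), d) s =
      ((bif trx (s.1.headD vy0) (s.1.tail.headD vy0) then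
          pwx e M (s.1.headD vy0) (s.1.tail.headD vy0) (hv1 e v c Z tab s.2.1.length)
            (hv2 e v c Z tab s.2.1.length)
            (Mach_p e d (s.1.headD vy0) (s.1.tail.headD vy0))
        else pwx e M (s.1.headD vy0) (s.1.tail.headD vy0) [true] [true]
          (Mach_p e d (s.1.headD vy0) (s.1.tail.headD vy0))) :: s.1.tail.tail,
        s.2.1 ++ [Mach_p e d (s.1.headD vy0) (s.1.tail.headD vy0)],
        s.2.2 && true) := by
  cases d <;> rfl

/-- The tokens with the flags. -/
private theorem Mach_zf {n : ℕ} {q : Tok} {T : List Tok} {st U : List Tm} {u : Tm}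
    (h : Stk (q :: T) st (U ++ [u])) (hU : ∀ x ∈ U ++ [u], Gd n x) :
    zf n (q :: T) = (q, decide (wg u 1 ≤ n)) :: zf n T := by
  have h1 := flags_stk h hU
  have h2 : flags n (q :: T) =
      (snw n q ((grn n T).1.headD gt0) ((grn n T).1.tail.headD gt0)).1 :: flags n T := rfl
  rw [h2, List.map_append, List.reverse_append, List.map_singleton, List.reverse_singleton,
    List.singleton_append] at h1
  injection h1 with h3 h4
  rw [← h3]
  rfl

private theorem Mach_thr {n : ℕ} {u : Tm} (h : wg u 1 ≤ n) : thr n u = u := if_pos h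

private theorem Mach_thr' {n : ℕ} {u : Tm} (h : ¬ wg u 1 ≤ n) : thr n u = .one := if_neg h

private theorem Mach_map (n : ℕ) (U : List Tm) (u : Tm) :
    (U ++ [u]).map (thr n) = U.map (thr n) ++ [thr n u] := by
  rw [List.map_append, List.map_singleton]

private theorem Mach_wpow {n : ℕ} {a b : Tm} (h : wg (.pow a b) 1 ≤ n) : wg a 1 ≤ n := by
  have hw1 : wg (.pow a b) 1 = wg a 1 + wg b 2 + 1 + 0 := rfl
  omega

private theorem Mach_ih {n : ℕ} {e : List Bool} {v c : ℕ} {Z : List Bool} {tab : List (List SI)}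
    {P : Pr (ZMod (bval e + 2))} {U : List Tm} {u : Tm}
    (hH : Hv e v c Z tab P (fun a => (U.map (thr n) ++ [thr n u]).getD a .one)
      (U ++ [u]).length) :
    Hv e v c Z tab P (fun a => (U.map (thr n)).getD a .one) U.length := by
  have h2 := Mach_Hv (L := (U ++ [u]).length)
    (by rw [List.length_map, List.length_append]; omega) hH
  rwa [List.length_map] at h2

private theorem Mach_ih' {n : ℕ} {e : List Bool} {v c : ℕ} {Z : List Bool} {tab : List (List SI)}
    {P : Pr (ZMod (bval e + 2))} {U : List Tm} {u : Tm}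
    (hH : Hv e v c Z tab P (fun a => (U.map (thr n) ++ [thr n u]).getD a .one)
      ((U ++ [u]).length - 1)) :
    Hv e v c Z tab P (fun a => (U.map (thr n)).getD a .one) U.length := by
  have h2 := Mach_Hv (L := (U ++ [u]).length - 1) (by
    rw [List.length_map, List.length_append, List.length_singleton, Nat.add_sub_cancel]) hH
  rwa [List.length_map] at h2

/-- The stack. -/
theorem vrun_stk {n : ℕ} {e M : List Bool} {v c m : ℕ} {N B : List (List Bool)} {Z : List Bool}
    {tab : List (List SI)} {P : Pr (ZMod (bval e + 2))} {T : List Tok} {st U : List Tm}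
    (h : Stk T st U) (hU : ∀ u ∈ U, Gd n u)
    (hH : Hv e v c Z tab P (fun a => (U.map (thr n)).getD a .one) U.length)
    (hP : PcV e v c m N B Z P (U.map (thr n))) (hM : 2 ^ n < bval M + 2) :
    List.Forall₂ (ValV n e M P) (vrun e M v c m N B Z tab (zf n T)).1 st := by
  induction h with
  | nil => exact List.Forall₂.nil
  | @one T st U h ih =>
    rw [Mach_zf (Stk.one h) hU]
    rw [Mach_map] at hH hP
    have h1 := ih (fun u hu => hU u (List.mem_append_left _ hu)) (Mach_ih hH) (Mach_Pc hP)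
    rw [Mach_cons, Mach_zero]
    exact List.Forall₂.cons (Mach_vy0 P) h1
  | @var T st U w h ih =>
    rw [Mach_zf (Stk.var w h) hU]
    have hw : wg (.var w) 1 ≤ n :=
      (hU _ (List.mem_append_right _ (List.mem_singleton.2 rfl))).1
    rw [Mach_map] at hH hP
    have h1 := ih (fun u hu => hU u (List.mem_append_left _ hu)) (Mach_ih hH) (Mach_Pc hP)
    rw [Mach_thr hw] at hH
    obtain ⟨h2, h3⟩ := Mach_last (U := U.map (thr n)) (u := .var w) (Set.mem_singleton _)
      (by
        have h4 : (U.map (thr n) ++ [Tm.var w]).length = (U ++ [Tm.var w]).length := by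
          simp only [List.length_append, List.length_map]
        rw [h4]
        exact hH)
    rw [decide_eq_true hw, Mach_cons, Mach_four, Mach_len, zf_length, ← h.length]
    rw [List.length_map] at h2 h3
    refine List.Forall₂.cons ⟨h2, h3, rfl, rfl, ?_, ?_, fun _ => ⟨Mach_alv hP w, TW.zv_nil e⟩,
      fun _ => ?_⟩ h1
    · show bval [true] = 1 % (bval M + 2)
      exact Mach_one_mod M
    · show bval [] = 0 % (bval M + 2)
      rw [Nat.zero_mod]
      exact bval_nil
    · show zv e (rmu e (hv1 e v c Z tab U.length) (alv e v c N Z w)) = P.f (.var w) * P.α w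
      rw [TW.zv_rmu, h2, Mach_alv hP]
  | @add T st U a b h ih =>
    rw [Mach_zf (Stk.add h) hU]
    rw [Mach_map] at hH hP
    have h1 := ih (fun u hu => hU u (List.mem_append_left _ hu)) (Mach_ih hH) (Mach_Pc hP)
    obtain ⟨h2, h3, h4⟩ := Mach_two h1 vy0
    cases decide (wg (.add a b) 1 ≤ n) with
    | true =>
      rw [Mach_cons, Mach_add]
      exact List.Forall₂.cons (Mach_adx hP h2 h3 hM) h4
    | false =>
      rw [Mach_cons, Mach_addf]
      exact List.Forall₂.cons (Mach_adx hP h2 h3 hM) h4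
  | @mul T st U a b h ih =>
    rw [Mach_zf (Stk.mul h) hU]
    rw [Mach_map] at hH hP
    have h1 := ih (fun u hu => hU u (List.mem_append_left _ hu)) (Mach_ih hH) (Mach_Pc hP)
    obtain ⟨h2, h3, h4⟩ := Mach_two h1 vy0
    rw [Mach_cons, Mach_mul]
    exact List.Forall₂.cons (Mach_mux h2 h3) h4
  | @pow T st U a b h ih =>
    rw [Mach_zf (Stk.pow h) hU]
    have hG := hU _ (List.mem_append_right _ (List.mem_singleton.2 rfl))
    rw [Mach_map] at hH hP
    have h1 := ih (fun u hu => hU u (List.mem_append_left _ hu)) (Mach_ih hH) (Mach_Pc hP)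
    obtain ⟨h2, h3, h4⟩ := Mach_two h1 vy0
    obtain ⟨hb, hTw⟩ := hG.2 a b rfl
    have hy := Mach_cs h3 hM hb
    have hp : wg (.pow a b) 1 ≤ n → zv e (Mach_p e (decide (wg (.pow a b) 1 ≤ n))
        ((vrun e M v c m N B Z tab (zf n T)).1.headD vy0)
        ((vrun e M v c m N B Z tab (zf n T)).1.tail.headD vy0)) = pw P (.pow a b) := by
      intro hw
      rw [decide_eq_true hw, Mach_p, cond_true]
      exact Mach_pwv h2 h3 hy (Mach_wpow hw)
    rw [Mach_cons, Mach_pow, Mach_len, zf_length, ← h.length]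
    refine List.Forall₂.cons ?_ h4
    by_cases hT : Tr a b
    · rw [Mach_thr (hTw hT)] at hH
      obtain ⟨h5, h6⟩ := Mach_last (U := U.map (thr n)) (u := .pow a b) (Or.inl ⟨rfl, hT⟩)
        (by
          have h4 : (U.map (thr n) ++ [Tm.pow a b]).length = (U ++ [Tm.pow a b]).length := by
            simp only [List.length_append, List.length_map]
          rw [h4]
          exact hH)
      rw [List.length_map] at h5 h6
      rw [(Mach_trx h2 h3).2 hT, cond_true]
      exact Mach_pwx h2 h3 hy (by rw [if_pos hT]; exact h5) (by rw [if_pos hT]; exact h6) hp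
    · rw [Mach_trx' h2 h3 hT, cond_false]
      exact Mach_pwx h2 h3 hy (by rw [if_neg hT]; exact TW.zv_one e)
        (by rw [if_neg hT]; exact TW.zv_one e) hp

private theorem Mach_pw_thr {n : ℕ} {K : Type} [CommRing K] (P : Pr K) {u : Tm}
    (hu : pw P u = 0) : pw P (thr n u) = 0 := by
  unfold thr
  split_ifs
  · exact hu
  · rfl

private theorem Mach_thr_ne {n : ℕ} {u : Tm} (hu : ∀ a b, u ≠ .add a b) :
    ∀ a b, thr n u ≠ .add a b := by
  intro a b
  unfold thr
  split_ifs
  · exact hu a b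
  · simp

/-- The logarithmic derivatives and the flag; the values of the characters at the last subterm are
not needed. -/
theorem vrun_out {n : ℕ} {e M : List Bool} {v c m : ℕ} {N B : List (List Bool)} {Z : List Bool}
    {tab : List (List SI)} {P : Pr (ZMod (bval e + 2))} {T : List Tok} {st U : List Tm}
    (h : Stk T st U) (hU : ∀ u ∈ U, Gd n u)
    (hH : Hv e v c Z tab P (fun a => (U.map (thr n)).getD a .one) (U.length - 1))
    (hP : PcV e v c m N B Z P (U.map (thr n))) (hM : 2 ^ n < bval M + 2) :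
    (vrun e M v c m N B Z tab (zf n T)).2.1.map (zv e) = U.map (fun u => pw P (thr n u)) ∧
      ((vrun e M v c m N B Z tab (zf n T)).2.2 = true ↔ ∀ s t, Tm.add s t ∈ U.map (thr n) →
        av P.f (.add s t) * P.iv (av P.f (.add s t)) = 1) := by
  induction h with
  | nil =>
    refine ⟨rfl, fun _ u b hub => absurd hub (List.not_mem_nil), fun _ => rfl⟩
  | @one T st U h ih =>
    rw [Mach_zf (Stk.one h) hU]
    rw [Mach_map] at hH hP
    obtain ⟨h1, h2⟩ := ih (fun u hu => hU u (List.mem_append_left _ hu))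
      (Mach_Hv' (Nat.sub_le _ _) (Mach_ih' hH)) (Mach_Pc hP)
    rw [Mach_cons, Mach_zero]
    refine ⟨?_, ?_⟩
    · show ((vrun e M v c m N B Z tab (zf n T)).2.1 ++ [[]]).map (zv e) = _
      rw [List.map_append, h1, List.map_append, List.map_singleton, List.map_singleton,
        TW.zv_nil, Mach_pw_thr P rfl]
    · show ((vrun e M v c m N B Z tab (zf n T)).2.2 && true) = true ↔ _
      rw [Bool.and_true, h2, Mach_map]
      exact (Mach_mem (Q := fun a => av P.f a * P.iv (av P.f a) = 1)
        (Mach_thr_ne (by simp))).symm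
  | @var T st U w h ih =>
    rw [Mach_zf (Stk.var w h) hU]
    have hw : wg (.var w) 1 ≤ n :=
      (hU _ (List.mem_append_right _ (List.mem_singleton.2 rfl))).1
    rw [Mach_map] at hH hP
    obtain ⟨h1, h2⟩ := ih (fun u hu => hU u (List.mem_append_left _ hu))
      (Mach_Hv' (Nat.sub_le _ _) (Mach_ih' hH)) (Mach_Pc hP)
    rw [decide_eq_true hw, Mach_cons, Mach_four]
    refine ⟨?_, ?_⟩
    · show ((vrun e M v c m N B Z tab (zf n T)).2.1 ++ [alv e v c N Z w]).map (zv e) = _
      rw [List.map_append, h1, List.map_append, List.map_singleton, List.map_singleton,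
        Mach_alv hP, Mach_thr hw]
      rfl
    · show ((vrun e M v c m N B Z tab (zf n T)).2.2 && true) = true ↔ _
      rw [Bool.and_true, h2, Mach_map]
      exact (Mach_mem (Q := fun a => av P.f a * P.iv (av P.f a) = 1)
        (Mach_thr_ne (by simp))).symm
  | @add T st U a b h ih =>
    rw [Mach_zf (Stk.add h) hU]
    rw [Mach_map] at hH hP
    have hUU : ∀ u ∈ U, Gd n u := fun u hu => hU u (List.mem_append_left _ hu)
    obtain ⟨h1, h2⟩ := ih hUU (Mach_Hv' (Nat.sub_le _ _) (Mach_ih' hH)) (Mach_Pc hP)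
    have h3 := vrun_stk (m := m) (N := N) (B := B) h hUU (Mach_ih' hH) (Mach_Pc hP) hM
    obtain ⟨h4, h5, -⟩ := Mach_two h3 vy0
    by_cases hw : wg (.add a b) 1 ≤ n
    · rw [decide_eq_true hw, Mach_cons, Mach_add]
      have h6 : zv e (adx e M v c m B Z ((vrun e M v c m N B Z tab (zf n T)).1.headD vy0)
          ((vrun e M v c m N B Z tab (zf n T)).1.tail.headD vy0)).1.1 = av P.f (.add a b) := by
        show zv e (rad e ((vrun e M v c m N B Z tab (zf n T)).1.headD vy0).1.1
          ((vrun e M v c m N B Z tab (zf n T)).1.tail.headD vy0).1.1) = av P.f a + av P.f b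
        rw [TW.zv_rad, h4.1, h5.1]
      refine ⟨?_, ?_⟩
      · show ((vrun e M v c m N B Z tab (zf n T)).2.1 ++ [[]]).map (zv e) = _
        rw [List.map_append, h1, List.map_append, List.map_singleton, List.map_singleton,
          TW.zv_nil, Mach_pw_thr P rfl]
      · show ((vrun e M v c m N B Z tab (zf n T)).2.2 && nok _ _ _) = true ↔ _
        rw [Bool.and_eq_true, h2, Mach_nok, Mach_ok hP.iv h6, Mach_map, Mach_thr hw]
        exact (Mach_memp (Q := fun a => av P.f a * P.iv (av P.f a) = 1)).symm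
    · rw [decide_eq_false hw, Mach_cons, Mach_addf]
      refine ⟨?_, ?_⟩
      · show ((vrun e M v c m N B Z tab (zf n T)).2.1 ++ [[]]).map (zv e) = _
        rw [List.map_append, h1, List.map_append, List.map_singleton, List.map_singleton,
          TW.zv_nil, Mach_pw_thr P rfl]
      · show ((vrun e M v c m N B Z tab (zf n T)).2.2 && true) = true ↔ _
        rw [Bool.and_true, h2, Mach_map]
        exact (Mach_mem (Q := fun a => av P.f a * P.iv (av P.f a) = 1)
          (by rw [Mach_thr' hw]; simp)).symm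
  | @mul T st U a b h ih =>
    rw [Mach_zf (Stk.mul h) hU]
    rw [Mach_map] at hH hP
    obtain ⟨h1, h2⟩ := ih (fun u hu => hU u (List.mem_append_left _ hu))
      (Mach_Hv' (Nat.sub_le _ _) (Mach_ih' hH)) (Mach_Pc hP)
    rw [Mach_cons, Mach_mul]
    refine ⟨?_, ?_⟩
    · show ((vrun e M v c m N B Z tab (zf n T)).2.1 ++ [[]]).map (zv e) = _
      rw [List.map_append, h1, List.map_append, List.map_singleton, List.map_singleton,
        TW.zv_nil, Mach_pw_thr P rfl]
    · show ((vrun e M v c m N B Z tab (zf n T)).2.2 && true) = true ↔ _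
      rw [Bool.and_true, h2, Mach_map]
      exact (Mach_mem (Q := fun a => av P.f a * P.iv (av P.f a) = 1)
        (Mach_thr_ne (by simp))).symm
  | @pow T st U a b h ih =>
    rw [Mach_zf (Stk.pow h) hU]
    have hG := hU _ (List.mem_append_right _ (List.mem_singleton.2 rfl))
    rw [Mach_map] at hH hP
    have hUU : ∀ u ∈ U, Gd n u := fun u hu => hU u (List.mem_append_left _ hu)
    obtain ⟨h1, h2⟩ := ih hUU (Mach_Hv' (Nat.sub_le _ _) (Mach_ih' hH)) (Mach_Pc hP)
    have h3 := vrun_stk (m := m) (N := N) (B := B) h hUU (Mach_ih' hH) (Mach_Pc hP) hM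
    obtain ⟨h4, h5, -⟩ := Mach_two h3 vy0
    obtain ⟨hb, hTw⟩ := hG.2 a b rfl
    have hy := Mach_cs h5 hM hb
    rw [Mach_cons, Mach_pow]
    refine ⟨?_, ?_⟩
    · show ((vrun e M v c m N B Z tab (zf n T)).2.1 ++ [Mach_p e _ _ _]).map (zv e) = _
      rw [List.map_append, h1, List.map_append, List.map_singleton, List.map_singleton]
      congr 2
      by_cases hw : wg (.pow a b) 1 ≤ n
      · rw [decide_eq_true hw, Mach_p, cond_true, Mach_pwv h4 h5 hy (Mach_wpow hw), Mach_thr hw]
      · rw [decide_eq_false hw, Mach_p, cond_false, TW.zv_nil, Mach_thr' hw]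
        rfl
    · show ((vrun e M v c m N B Z tab (zf n T)).2.2 && true) = true ↔ _
      rw [Bool.and_true, h2, Mach_map]
      exact (Mach_mem (Q := fun a => av P.f a * P.iv (av P.f a) = 1)
        (Mach_thr_ne (by simp))).symm

theorem vrow_length (e M : List Bool) (v c m : ℕ) (N : List (List Bool))
    (B : List (List Bool)) (tab : List (List SI)) (T : List (Tok × Bool)) {i : ℕ}
    (hi : i + 1 ≤ T.length) (Z : List Bool) :
    (vrow e M v c m N B tab T i Z).length = i + 1 := by
  unfold vrow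
  have h1 : (T.drop (T.length - (i + 1))).length = i + 1 := by
    rw [List.length_drop]
    omega
  cases (vrun e M v c m N B Z tab (T.drop (T.length - (i + 1)))).2.2 with
  | true => rw [cond_true, Mach_len, h1]
  | false => rw [cond_false, List.length_replicate]

private theorem Mach_Pz {W : Finset (List Bool)} {e : List Bool} {v c m n : ℕ}
    {N B : List (List Bool)} (Z : List Bool) (ν : List (ℕ → ℤ)) (ex : ℕ → Tm) (L : ℕ)
    (hB : ∀ P ∈ B, 2 ≤ bval P) (hm : n ≤ m) {U : List Tm} :
    PcV e v c m N B Z (Pz W e v c N B ν ex L Z) (U.map (thr n)) := by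
  refine ⟨fun _ => rfl, fun x a b hub hx => ?_, fun _ => rfl⟩
  have h1 : wg (Tm.add a b) 1 ≤ n := by
    obtain ⟨y, -, hy⟩ := List.mem_map.1 hub
    unfold thr at hy
    split_ifs at hy with h2
    · rw [← hy]
      exact h2
  have hw1 : wg (Tm.add a b) 1 = wg a 2 + wg b 2 + 1 := (wg_add a b).1
  have hw2 : wg (Tm.add a b) 2 = wg a 2 + wg b 2 + 1 := (wg_add a b).2
  have h3 : e1 a ≤ 2 ^ wg a 2 :=
    (TD.e1_le a).trans (Nat.pow_le_pow_right (by norm_num) (lg_le2 a))
  have h6 : e1 b ≤ 2 ^ wg b 2 :=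
    (TD.e1_le b).trans (Nat.pow_le_pow_right (by norm_num) (lg_le2 b))
  have h7 := wg_pos a 2
  have h8 := wg_pos b 2
  have h9 : 2 * 2 ^ wg a 2 ≤ 2 ^ (wg a 2 + wg b 2) := by
    rw [mul_comm, ← pow_succ]
    exact Nat.pow_le_pow_right (by norm_num) (by omega)
  have h10 : 2 * 2 ^ wg b 2 ≤ 2 ^ (wg a 2 + wg b 2) := by
    rw [mul_comm, ← pow_succ]
    exact Nat.pow_le_pow_right (by norm_num) (by omega)
  have h4 : (2 : ℕ) ^ (wg a 2 + wg b 2) < 2 ^ m :=
    Nat.pow_lt_pow_right (by norm_num) (by omega)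
  have h5 := TD.e1_pos (.add a b)
  have h11 : e1 (.add a b) = e1 a + e1 b := rfl
  rw [TC.lcv_val hB Z (by rw [hx]; exact h5) (by rw [hx]; omega), hx]
  rfl

private theorem Mach_gd {s t u : Tm} {n : ℕ} (hn : wg s 0 + wg t 0 ≤ n)
    (h : u ∈ subs t ++ subs s) : Gd n u := by
  rcases List.mem_append.1 h with h | h
  · exact gd_subs (by omega) h
  · exact gd_subs (by omega) h

/-- The hash row. -/
theorem vrow_val {n : ℕ} {W : Finset (List Bool)} {e M : List Bool} {v c m : ℕ}
    {N B : List (List Bool)} (Z : List Bool) {tab : List (List SI)} (s t : Tm) {i : ℕ}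
    (hn : wg s 0 + wg t 0 ≤ n) (hi : i < s.sz + t.sz) (hB : ∀ P ∈ B, 2 ≤ bval P) (hm : n ≤ m)
    (hM : 2 ^ n ≤ bval M) (hc : Coh (fun a => lr W (exT n s t a)) i (tab.map irow)) {a : ℕ}
    (ha : a ≤ i) :
    evr e (vrow e M v c m N B tab (zf n (s.toks ++ t.toks)) i Z) a =
      hw W e v c N B (tab.map irow) (exT n s t) i Z a := by
  classical
  have hlen : (subs t ++ subs s).length = s.sz + t.sz := by
    rw [List.length_append, TC.length_subs, TC.length_subs, add_comm]
  have hst := TC.stk_pair s t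
  have hTl : (s.toks ++ t.toks).length = s.sz + t.sz := by rw [← hst.length, hlen]
  obtain ⟨st', hS⟩ := hst.drop (m := i + 1) (by omega)
  have hUl : ((subs t ++ subs s).take (i + 1)).length = i + 1 := by
    rw [List.length_take, hlen]
    omega
  have hUl' : (((subs t ++ subs s).take (i + 1)).map (thr n)).length = i + 1 := by
    rw [List.length_map, hUl]
  have hget : ∀ b ≤ i, (((subs t ++ subs s).take (i + 1)).map (thr n)).getD b .one =
      exT n s t b := by
    intro b hb
    rw [exT_eq, List.getD_eq_getElem _ _ (by rw [hUl']; omega), List.getElem_map,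
      List.getElem_take, List.getD_eq_getElem _ _ (by rw [List.length_map, hlen]; omega),
      List.getElem_map]
  have hmem : ∀ u ∈ (subs t ++ subs s).take (i + 1), Gd n u :=
    fun u hu => Mach_gd hn (List.mem_of_mem_take hu)
  obtain ⟨h1, h2⟩ := vrun_out (e := e) (M := M) (v := v) (c := c) (m := m) (N := N) (B := B)
    (Z := Z) (tab := tab) (P := Pz W e v c N B (tab.map irow) (exT n s t) i Z) hS hmem
    (by
      intro b hb _
      rw [hUl] at hb
      have hb' : b < i := by omega
      beta_reduce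
      rw [hget b hb'.le]
      exact Mach_hv Z hc hb')
    (Mach_Pz Z _ _ _ hB hm) (by omega)
  have h3 : (∀ x y, Tm.add x y ∈ ((subs t ++ subs s).take (i + 1)).map (thr n) →
      av (Pz W e v c N B (tab.map irow) (exT n s t) i Z).f (.add x y) *
        (Pz W e v c N B (tab.map irow) (exT n s t) i Z).iv
          (av (Pz W e v c N B (tab.map irow) (exT n s t) i Z).f (.add x y)) = 1) ↔
      OkV W e v c N B (tab.map irow) (exT n s t) i Z := by
    refine ⟨fun h a ha u b hab => h u b ?_, fun h u b hub => ?_⟩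
    · rw [← hab, ← hget a ha, List.getD_eq_getElem _ _ (by rw [hUl']; omega)]
      exact List.getElem_mem _
    · obtain ⟨j, hj, h4⟩ := List.mem_iff_getElem.1 hub
      have hj' : j ≤ i := by
        rw [hUl'] at hj
        omega
      refine h j hj' u b ?_
      rw [← hget j hj', List.getD_eq_getElem _ _ hj, h4]
  rw [h3] at h2
  have hzd : (zf n (s.toks ++ t.toks)).drop ((zf n (s.toks ++ t.toks)).length - (i + 1)) =
      zf n ((s.toks ++ t.toks).drop ((s.toks ++ t.toks).length - (i + 1))) := by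
    rw [zf_drop, zf_length]
  show zv e ((vrow e M v c m N B tab (zf n (s.toks ++ t.toks)) i Z).getD a []) = _
  unfold vrow hw
  rw [hzd]
  by_cases hok : OkV W e v c N B (tab.map irow) (exT n s t) i Z
  · have ha' : a < (((subs t ++ subs s).take (i + 1)).map (thr n)).length := by
      rw [hUl']
      omega
    rw [if_pos hok, h2.2 hok, cond_true, ← hget a ha, List.getD_eq_getElem _ _ ha',
      List.getElem_map]
    have h5 := Mach_getD_map h1 (by rw [hUl]; omega : a < _) [] .one
    rw [h5, List.getD_eq_getElem _ _ (by rw [hUl]; omega)]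
  · have h4 : (vrun e M v c m N B Z tab (zf n ((s.toks ++ t.toks).drop
        ((s.toks ++ t.toks).length - (i + 1))))).2.2 = false :=
      Bool.eq_false_iff.2 fun h5 => hok (h2.1 h5)
    rw [if_neg hok, h4, cond_false, List.getD_eq_getElem _ _ (by
      rw [List.length_replicate]; omega), List.getElem_replicate, TW.zv_nil]

/-- The values of the two terms. -/
theorem vrun_pair {n : ℕ} {W : Finset (List Bool)} {e M : List Bool} {v c m : ℕ}
    {N B : List (List Bool)} (Z : List Bool) {tab : List (List SI)} (s t : Tm)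
    (hn : wg s 0 + wg t 0 ≤ n) (hB : ∀ P ∈ B, 2 ≤ bval P) (hm : n ≤ m) (hM : 2 ^ n ≤ bval M)
    (hc : Coh (fun a => lr W (exT n s t a)) (s.sz + t.sz) (tab.map irow)) :
    zv e ((vrun e M v c m N B Z tab (zf n (s.toks ++ t.toks))).1.headD vy0).1.1 =
        av (Pz W e v c N B (tab.map irow) (exT n s t) (s.sz + t.sz) Z).f s ∧
      zv e ((vrun e M v c m N B Z tab (zf n (s.toks ++ t.toks))).1.tail.headD vy0).1.1 =
        av (Pz W e v c N B (tab.map irow) (exT n s t) (s.sz + t.sz) Z).f t := by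
  have hlen : (subs t ++ subs s).length = s.sz + t.sz := by
    rw [List.length_append, TC.length_subs, TC.length_subs, add_comm]
  have h1 := vrun_stk (n := n) (e := e) (M := M) (v := v) (c := c) (m := m) (N := N) (B := B)
    (Z := Z) (tab := tab) (P := Pz W e v c N B (tab.map irow) (exT n s t) (s.sz + t.sz) Z)
    (TC.stk_pair s t) (fun u hu => Mach_gd hn hu)
    (by
      intro b hb _
      rw [hlen] at hb
      beta_reduce
      rw [← exT_eq]
      exact Mach_hv Z hc hb)
    (Mach_Pz Z _ _ _ hB hm) (by omega)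
  obtain ⟨h2, h3, -⟩ := Mach_two h1 vy0
  exact ⟨h2.1, h3.1⟩

end Pool.Agent.TV
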