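import Pool.Agent.H.MP_b2d7dd_lc.TV.Mach
import Pool.Agent.H.MP_b2d7dd_lc.TC.CobP
import Pool.Agent.H.MP_b2d7dd_lc.TQ.MachP

/-!
# Module MachP: the machine runs in polynomial time

Compare TQ, TD/MachP.
-/

namespace Pool.Agent.TV

open Pool.Agent.TI (Tok fidx fidx_eq bmod beqv bpw bsub length_bmod_le length_bpw_le)
open Pool.Agent.TE (bl)
open Pool.Agent.TW (SI rad rmu rin rsb md tval length_tval_le length_rad_le length_rmu_le
  length_rsb_le length_md_le poly_tval poly_bl)
open Pool.Agent.TC (alv lcv hv1 hv2 nm2 poly_lcv lcv_len)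
open Pool.Agent.H.MP_5be563_lc.PT

variable {α : Type} [Enc α]

private theorem MachP_c {β : Type} [Enc β] (b : β) : Poly (fun _ : α => b) :=
  Pool.Agent.H.MP_5be563_lc.PT.Poly.const b

private theorem MachP_fidx_le (w : List Bool) (l : List (List Bool)) : fidx w l ≤ l.length := by
  rw [fidx_eq]
  exact List.idxOf_le_length

private theorem MachP_fidx {fw : α → List Bool} {fl : α → List (List Bool)} (hw : Poly fw)
    (hl : Poly fl) : Poly (fun a => fidx (fw a) (fl a)) := by
  unfold fidx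
  refine Poly.foldr (f := fun p : α × ℕ × List Bool =>
      bif decide (p.2.2 = fw p.1) then 0 else p.2.1 + 1) (l := fl) (s0 := fun _ => 0)
      (B := fun a => 2 * sz (fl a) + 1) ?_ hl (by fun_prop)
      (((PBdd.const 2).mul hl.sz_le).add (PBdd.const 1)) ?_
  · exact Poly.cond (by fun_prop) (by fun_prop) (by fun_prop)
  · intro a l₁ l₂ h
    have h1 : fidx (fw a) l₂ ≤ l₂.length := MachP_fidx_le _ _
    have h2 : l₂.length ≤ (fl a).length := by rw [h]; simp
    have h3 := length_lt_sz (fl a)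
    have h4 : sz (fidx (fw a) l₂) = 2 * fidx (fw a) l₂ + 1 := by simp
    change sz (fidx (fw a) l₂) ≤ 2 * sz (fl a) + 1
    rw [h4]
    omega

private theorem MachP_pwv (e : List Bool) (a b : Vy) : (pwv e a b).length ≤ e.length + 4 := by
  rw [pwv]
  cases trx a b
  · rw [cond_false]
    simp
  · rw [cond_true]
    exact length_rmu_le _ _ _

private theorem MachP_nph (e : List Bool) (v c : ℕ) (N : List (List Bool)) (Z : List Bool)
    (q : Tok × Bool) (st : List Vy) : (nph e v c N Z q st).length ≤ e.length + 4 := by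
  rw [nph]
  cases q.2
  · rw [cond_false]
    simp
  · rw [cond_true]
    cases h4 : decide (q.1.1 = 4)
    · rw [cond_false]
      cases h3 : decide (q.1.1 = 3)
      · rw [cond_false]
        simp
      · rw [cond_true]
        exact MachP_pwv _ _ _
    · rw [cond_true, alv]
      have h1 := length_bmod_le (bl v Z (2 * c + fidx q.1.2 N)) (md e)
      have h2 := length_md_le e
      omega

/-- The bounds for the values of a term. -/
private def MachP_B (e M : List Bool) (x : Vy) : Prop :=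
  x.1.1.length ≤ e.length + 4 ∧
    x.1.2.1.length ≤ e.length + 4 ∧ x.1.2.2.1.length ≤ e.length + 4 ∧
      x.1.2.2.2.1.length ≤ e.length + 4 ∧ x.1.2.2.2.2.1.length ≤ M.length + 4 ∧
        x.1.2.2.2.2.2.1.length ≤ M.length + 4 ∧
          x.1.2.2.2.2.2.2.length ≤ e.length + 4

private theorem MachP_bpw (M x k : List Bool) : (bpw x k (md M)).length ≤ M.length + 4 := by
  have h1 := length_bpw_le x k (md M)
  have h2 := length_md_le M
  omega

private theorem MachP_pwx (e M : List Bool) (a b : Vy) (h r p : List Bool) :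
    MachP_B e M (pwx e M a b h r p) := by
  refine ⟨length_rmu_le _ _ _, length_rmu_le _ _ _, length_rmu_le _ _ _, length_rad_le _ _ _,
    MachP_bpw _ _ _, ?_, length_rmu_le _ _ _⟩
  show (bif b.2.2 || !a.2.1 then bpw a.1.2.2.2.2.2.1 b.1.2.2.2.2.2.1 (md M) else []).length ≤ _
  cases (b.2.2 || !a.2.1)
  · rw [cond_false]
    simp
  · rw [cond_true]
    exact MachP_bpw _ _ _

private theorem MachP_nvy (e M : List Bool) (v c m : ℕ) (B : List (List Bool)) (Z : List Bool)
    (tab : List (List SI)) (q : Tok) (st : List Vy) (p : ℕ) (h : List Bool)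
    (hh : h.length ≤ e.length + 4) : MachP_B e M (nvy e M v c m B Z tab q st p h) := by
  have hone : ∀ l : List Bool, ([true] : List Bool).length ≤ l.length + 4 := by
    intro l
    rw [List.length_singleton]
    omega
  have hnil : ∀ l : List Bool, ([] : List Bool).length ≤ l.length + 4 := by
    intro l
    rw [List.length_nil]
    omega
  rw [nvy]
  cases h0 : decide (q.1 = 0)
  · rw [cond_false]
    cases h4 : decide (q.1 = 4)
    · rw [cond_false]
      cases h1 : decide (q.1 = 1)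
      · rw [cond_false]
        cases h2 : decide (q.1 = 2)
        · rw [cond_false]
          cases trx (st.headD vy0) (st.tail.headD vy0)
          · rw [cond_false]
            exact MachP_pwx _ _ _ _ _ _ _
          · rw [cond_true]
            exact MachP_pwx _ _ _ _ _ _ _
        · rw [cond_true]
          exact ⟨length_rmu_le _ _ _, length_rmu_le _ _ _, length_rad_le _ _ _,
            length_rad_le _ _ _, length_rmu_le _ _ _, length_rmu_le _ _ _, length_rad_le _ _ _⟩
      · rw [cond_true]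
        exact ⟨length_rad_le _ _ _, length_rad_le _ _ _, length_rad_le _ _ _,
          length_rmu_le _ _ _, length_rad_le _ _ _, length_rad_le _ _ _, lcv_len _ _ _ _ _ _ _⟩
    · rw [cond_true]
      exact ⟨length_tval_le _ _ _ _ _ _ _ _, length_tval_le _ _ _ _ _ _ _ _,
        length_rmu_le _ _ _, hh, hone M, hnil M, hnil e⟩
  · rw [cond_true]
    exact ⟨hone e, hone e, hnil e, hnil e, hone M, hone M, hnil e⟩

/-- The sizes of the state. -/
theorem vrun_len (e M : List Bool) (v c m : ℕ) (N B : List (List Bool)) (Z : List Bool)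
    (tab : List (List SI)) (T : List (Tok × Bool)) :
    (vrun e M v c m N B Z tab T).1.length ≤ T.length ∧
      (vrun e M v c m N B Z tab T).2.1.length = T.length ∧
      (∀ x ∈ (vrun e M v c m N B Z tab T).1, x.1.1.length ≤ e.length + 4 ∧
        x.1.2.1.length ≤ e.length + 4 ∧ x.1.2.2.1.length ≤ e.length + 4 ∧
          x.1.2.2.2.1.length ≤ e.length + 4 ∧ x.1.2.2.2.2.1.length ≤ M.length + 4 ∧
            x.1.2.2.2.2.2.1.length ≤ M.length + 4 ∧
              x.1.2.2.2.2.2.2.length ≤ e.length + 4) ∧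
      (∀ x ∈ (vrun e M v c m N B Z tab T).2.1, x.length ≤ e.length + 4) := by
  induction T with
  | nil =>
    refine ⟨le_rfl, rfl, ?_, ?_⟩
    · intro x hx
      exact absurd hx (by simp [vrun])
    · intro x hx
      exact absurd hx (by simp [vrun])
  | cons q T ih =>
    obtain ⟨h1, h2, h3, h4⟩ := ih
    have hcons : vrun e M v c m N B Z tab (q :: T) =
        vstep e M v c m N B Z tab q (vrun e M v c m N B Z tab T) := rfl
    rw [hcons]
    revert h1 h2 h3 h4
    generalize vrun e M v c m N B Z tab T = s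
    intro h1 h2 h3 h4
    rw [vstep]
    have hsub : ∀ x ∈ (bif decide (q.1.1 = 0) || decide (q.1.1 = 4) then s.1 else s.1.tail.tail),
        x ∈ s.1 := by
      intro x hx
      cases hb : (decide (q.1.1 = 0) || decide (q.1.1 = 4))
      · rw [hb, cond_false] at hx
        exact List.mem_of_mem_tail (List.mem_of_mem_tail hx)
      · rw [hb, cond_true] at hx
        exact hx
    have hlen : (bif decide (q.1.1 = 0) || decide (q.1.1 = 4) then s.1 else s.1.tail.tail).length ≤
        s.1.length := by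
      cases hb : (decide (q.1.1 = 0) || decide (q.1.1 = 4))
      · rw [cond_false, List.length_tail, List.length_tail]
        omega
      · rw [cond_true]
    refine ⟨?_, ?_, ?_, ?_⟩
    · show (_ :: _ : List Vy).length ≤ _
      rw [List.length_cons, List.length_cons]
      omega
    · show (s.2.1 ++ [_]).length = _
      rw [List.length_append, List.length_singleton, List.length_cons, h2]
    · intro x hx
      rcases List.mem_cons.1 hx with rfl | hx
      · exact MachP_nvy _ _ _ _ _ _ _ _ _ _ _ _ (MachP_nph _ _ _ _ _ _ _)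
      · exact h3 x (hsub x hx)
    · intro x hx
      rcases List.mem_append.1 hx with hx | hx
      · exact h4 x hx
      · rw [List.mem_singleton.1 hx]
        exact MachP_nph _ _ _ _ _ _ _

private theorem MachP_pv {f : α → Vy} (hf : Poly f) : Poly (fun a => (f a).1.1) ∧
    Poly (fun a => (f a).1.2.1) ∧ Poly (fun a => (f a).1.2.2.1) ∧
    Poly (fun a => (f a).1.2.2.2.1) ∧ Poly (fun a => (f a).1.2.2.2.2.1) ∧
    Poly (fun a => (f a).1.2.2.2.2.2.1) ∧ Poly (fun a => (f a).1.2.2.2.2.2.2) ∧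
    Poly (fun a => (f a).2.1) ∧ Poly (fun a => (f a).2.2) := by
  have h1 := Poly.comp Poly.fst hf
  have h2 := Poly.comp Poly.snd hf
  have k1 := Poly.comp Poly.snd h1
  have k2 := Poly.comp Poly.snd k1
  have k3 := Poly.comp Poly.snd k2
  have k4 := Poly.comp Poly.snd k3
  have k5 := Poly.comp Poly.snd k4
  exact ⟨Poly.comp Poly.fst h1, Poly.comp Poly.fst k1, Poly.comp Poly.fst k2,
    Poly.comp Poly.fst k3, Poly.comp Poly.fst k4, Poly.comp Poly.fst k5, Poly.comp Poly.snd k5,
    Poly.comp Poly.fst h2, Poly.comp Poly.snd h2⟩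

private theorem MachP_ptrx {f g : α → Vy} (hf : Poly f) (hg : Poly g) :
    Poly (fun a => trx (f a) (g a)) := by
  obtain ⟨a1, a2, a3, a4, a5, a6, a7, a8, a9⟩ := MachP_pv hf
  obtain ⟨b1, b2, b3, b4, b5, b6, b7, b8, b9⟩ := MachP_pv hg
  unfold trx
  exact Poly.and a8 (Poly.not b9)

private theorem MachP_ppwv {fe : α → List Bool} {f g : α → Vy} (he : Poly fe) (hf : Poly f)
    (hg : Poly g) : Poly (fun a => pwv (fe a) (f a) (g a)) := by
  obtain ⟨a1, a2, a3, a4, a5, a6, a7, a8, a9⟩ := MachP_pv hf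
  obtain ⟨b1, b2, b3, b4, b5, b6, b7, b8, b9⟩ := MachP_pv hg
  unfold pwv
  exact Poly.cond (MachP_ptrx hf hg) (Pool.Agent.TW.Poly.rmu he
    (Pool.Agent.TW.Poly.rsb he b2 b6) (Pool.Agent.TW.Poly.rad he a4 a7)) (MachP_c _)

private theorem MachP_pnph {fe : α → List Bool} {fv fc : α → ℕ}
    {fN : α → List (List Bool)} {fZ : α → List Bool} {fq : α → Tok × Bool} {fs : α → List Vy}
    (he : Poly fe) (hv : Poly fv) (hc : Poly fc) (hN : Poly fN)
    (hZ : Poly fZ) (hq : Poly fq) (hs : Poly fs) :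
    Poly (fun a => nph (fe a) (fv a) (fc a) (fN a) (fZ a) (fq a) (fs a)) := by
  have q1 : Poly (fun a => (fq a).1) := Poly.comp Poly.fst hq
  have q2 : Poly (fun a => (fq a).2) := Poly.comp Poly.snd hq
  have hq1 : Poly (fun a => (fq a).1.1) := Poly.comp Poly.fst q1
  have hq2 : Poly (fun a => (fq a).1.2) := Poly.comp Poly.snd q1
  have hmd : Poly (fun a => md (fe a)) := Pool.Agent.TW.Poly.md he
  have ha : Poly (fun a => alv (fe a) (fv a) (fc a) (fN a) (fZ a) (fq a).1.2) := by
    unfold alv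
    exact Pool.Agent.TI.Poly.bmod (poly_bl hv hZ (Poly.add (Poly.mul (MachP_c 2) hc)
      (MachP_fidx hq2 hN))) hmd
  have h1 : Poly (fun a => (fs a).headD vy0) := Poly.headD hs (MachP_c vy0)
  have h2 : Poly (fun a => (fs a).tail.headD vy0) := Poly.headD (Poly.tail hs) (MachP_c vy0)
  have hp := MachP_ppwv he h1 h2
  unfold nph
  exact Poly.cond q2 (Poly.cond (Poly.nateq hq1 (MachP_c 4)) ha
    (Poly.cond (Poly.nateq hq1 (MachP_c 3)) hp (MachP_c _))) (MachP_c _)

private theorem MachP_ppwx {fe fM : α → List Bool} {f g : α → Vy} {fh fr fp : α → List Bool}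
    (he : Poly fe) (hM : Poly fM) (hf : Poly f) (hg : Poly g) (hh : Poly fh) (hr : Poly fr)
    (hp : Poly fp) :
    Poly (fun a => pwx (fe a) (fM a) (f a) (g a) (fh a) (fr a) (fp a)) := by
  obtain ⟨a1, a2, a3, a4, a5, a6, a7, a8, a9⟩ := MachP_pv hf
  obtain ⟨b1, b2, b3, b4, b5, b6, b7, b8, b9⟩ := MachP_pv hg
  have hmd : Poly (fun a => md (fe a)) := Pool.Agent.TW.Poly.md he
  have hmM : Poly (fun a => md (fM a)) := Pool.Agent.TW.Poly.md hM
  have p1 := Pool.Agent.TW.Poly.rmu he hh (Pool.Agent.TI.Poly.bpw a1 b6 hmd)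
  have p2 := Pool.Agent.TW.Poly.rmu he hr (Pool.Agent.TI.Poly.bpw a2 b6 hmd)
  have p3 := Pool.Agent.TW.Poly.rad he hp (Pool.Agent.TW.Poly.rmu he b6 a4)
  have p4 := Pool.Agent.TI.Poly.bpw a5 b6 hmM
  have p5 := Pool.Agent.TI.Poly.bpw a6 b6 hmM
  unfold pwx
  exact Poly.pair (Poly.pair p1 (Poly.pair p2 (Poly.pair (Pool.Agent.TW.Poly.rmu he p1 p3)
    (Poly.pair p3 (Poly.pair p4 (Poly.pair (Poly.cond (Poly.or b9 (Poly.not a8)) p5 (MachP_c _))
      (Pool.Agent.TW.Poly.rmu he b6 a7)))))))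
    (Poly.pair a8 (Poly.or (Poly.and a9 b9) (Poly.not a8)))

private theorem MachP_padx {fe fM : α → List Bool} {fv fc fm : α → ℕ}
    {fB : α → List (List Bool)} {fZ : α → List Bool} {f g : α → Vy} (he : Poly fe)
    (hM : Poly fM) (hv : Poly fv) (hc : Poly fc) (hm : Poly fm) (hB : Poly fB) (hZ : Poly fZ)
    (hf : Poly f) (hg : Poly g) :
    Poly (fun a => adx (fe a) (fM a) (fv a) (fc a) (fm a) (fB a) (fZ a) (f a) (g a)) := by
  obtain ⟨a1, a2, a3, a4, a5, a6, a7, a8, a9⟩ := MachP_pv hf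
  obtain ⟨b1, b2, b3, b4, b5, b6, b7, b8, b9⟩ := MachP_pv hg
  have p1 := Pool.Agent.TW.Poly.rad he a1 b1
  have p2 := Pool.Agent.TW.Poly.rad he a2 b2
  have p3 := Pool.Agent.TW.Poly.rad he a3 b3
  have p4 := Pool.Agent.TW.Poly.rad hM a5 b5
  have p5 := Pool.Agent.TW.Poly.rad hM a6 b6
  unfold adx
  exact Poly.pair (Poly.pair p1 (Poly.pair p2 (Poly.pair p3 (Poly.pair
    (Pool.Agent.TW.Poly.rmu he p3 (Pool.Agent.TW.Poly.rin he p1)) (Poly.pair p4 (Poly.pair p5
      (poly_lcv he hv hc hm hB hZ p4)))))))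
    (Poly.pair (MachP_c true) (Poly.and a9 b9))

private theorem MachP_pmux {fe fM : α → List Bool} {f g : α → Vy} (he : Poly fe)
    (hM : Poly fM) (hf : Poly f) (hg : Poly g) :
    Poly (fun a => mux (fe a) (fM a) (f a) (g a)) := by
  obtain ⟨a1, a2, a3, a4, a5, a6, a7, a8, a9⟩ := MachP_pv hf
  obtain ⟨b1, b2, b3, b4, b5, b6, b7, b8, b9⟩ := MachP_pv hg
  unfold mux
  exact Poly.pair (Poly.pair (Pool.Agent.TW.Poly.rmu he a1 b1) (Poly.pair
    (Pool.Agent.TW.Poly.rmu he a2 b2) (Poly.pair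
      (Pool.Agent.TW.Poly.rad he (Pool.Agent.TW.Poly.rmu he a3 b1)
        (Pool.Agent.TW.Poly.rmu he a1 b3))
      (Poly.pair (Pool.Agent.TW.Poly.rad he a4 b4) (Poly.pair (Pool.Agent.TW.Poly.rmu hM a5 b5)
        (Poly.pair (Pool.Agent.TW.Poly.rmu hM a6 b6) (Pool.Agent.TW.Poly.rad he a7 b7)))))))
    (Poly.pair (Poly.or a8 b8) (Poly.and a9 b9))

private theorem MachP_pnvy {fe fM : α → List Bool} {fv fc fm : α → ℕ}
    {fB : α → List (List Bool)} {fZ : α → List Bool} {ft : α → List (List SI)} {fq : α → Tok}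
    {fs : α → List Vy} {fp : α → ℕ} {fh : α → List Bool} (he : Poly fe) (hM : Poly fM)
    (hv : Poly fv) (hc : Poly fc) (hm : Poly fm) (hB : Poly fB) (hZ : Poly fZ) (ht : Poly ft)
    (hq : Poly fq) (hs : Poly fs) (hp : Poly fp) (hh : Poly fh) :
    Poly (fun a => nvy (fe a) (fM a) (fv a) (fc a) (fm a) (fB a) (fZ a) (ft a) (fq a) (fs a)
      (fp a) (fh a)) := by
  have hq1 : Poly (fun a => (fq a).1) := by fun_prop
  have h1 : Poly (fun a => (fs a).headD vy0) := Poly.headD hs (MachP_c vy0)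
  have h2 : Poly (fun a => (fs a).tail.headD vy0) := Poly.headD (Poly.tail hs) (MachP_c vy0)
  have t1 : Poly (fun a => hv1 (fe a) (fv a) (fc a) (fZ a) (ft a) (fp a)) := by
    unfold hv1
    exact poly_tval he hv hc (MachP_c nm2) hZ ht hp (MachP_c _)
  have t2 : Poly (fun a => hv2 (fe a) (fv a) (fc a) (fZ a) (ft a) (fp a)) := by
    unfold hv2
    exact poly_tval he hv hc (MachP_c nm2) hZ ht hp (MachP_c _)
  have hadx := MachP_padx he hM hv hc hm hB hZ h1 h2
  have hmux := MachP_pmux he hM h1 h2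
  unfold nvy
  exact Poly.cond (Poly.isZero hq1) (MachP_c vy0) (Poly.cond (Poly.nateq hq1 (MachP_c 4))
    (Poly.pair (Poly.pair t1 (Poly.pair t2 (Poly.pair
      (Pool.Agent.TW.Poly.rmu he t1 hh) (Poly.pair hh
        (MachP_c (([true], [], []) : List Bool × List Bool × List Bool))))))
      (MachP_c ((true, false) : Bool × Bool)))
    (Poly.cond (Poly.nateq hq1 (MachP_c 1)) hadx (Poly.cond (Poly.nateq hq1 (MachP_c 2)) hmux
      (Poly.cond (MachP_ptrx h1 h2) (MachP_ppwx he hM h1 h2 t1 t2 hh)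
        (MachP_ppwx he hM h1 h2 (MachP_c [true]) (MachP_c [true]) hh)))))

private theorem MachP_pnok {fe : α → List Bool} {fq : α → Tok × Bool} {f : α → Vy}
    (he : Poly fe) (hq : Poly fq) (hf : Poly f) :
    Poly (fun a => nok (fe a) (fq a) (f a)) := by
  have q1 : Poly (fun a => (fq a).1) := Poly.comp Poly.fst hq
  have q2 : Poly (fun a => (fq a).2) := Poly.comp Poly.snd hq
  have hq1 : Poly (fun a => (fq a).1.1) := Poly.comp Poly.fst q1
  have a1 : Poly (fun a => (f a).1.1) := (MachP_pv hf).1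
  have hmd : Poly (fun a => md (fe a)) := Pool.Agent.TW.Poly.md he
  unfold nok
  exact Poly.or (Poly.not (Poly.and q2 (Poly.nateq hq1 (MachP_c 1)))) (Pool.Agent.TI.Poly.beqv
    (Pool.Agent.TW.Poly.rmu he a1 (Pool.Agent.TW.Poly.rin he a1))
    (Pool.Agent.TI.Poly.bmod (MachP_c _) hmd))

private theorem MachP_vstep {fe fM : α → List Bool} {fv fc fm : α → ℕ}
    {fN fB : α → List (List Bool)} {fZ : α → List Bool} {ft : α → List (List SI)}
    {fq : α → Tok × Bool} {fs : α → List Vy × List (List Bool) × Bool} (he : Poly fe)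
    (hM : Poly fM) (hv : Poly fv) (hc : Poly fc) (hm : Poly fm) (hN : Poly fN) (hB : Poly fB)
    (hZ : Poly fZ) (ht : Poly ft) (hq : Poly fq) (hs : Poly fs) :
    Poly (fun a => vstep (fe a) (fM a) (fv a) (fc a) (fm a) (fN a) (fB a) (fZ a) (ft a)
      (fq a) (fs a)) := by
  have q1 : Poly (fun a => (fq a).1) := Poly.comp Poly.fst hq
  have hq1 : Poly (fun a => (fq a).1.1) := Poly.comp Poly.fst q1
  have s1 : Poly (fun a => (fs a).1) := Poly.comp Poly.fst hs
  have s2 : Poly (fun a => (fs a).2.1) := Poly.comp Poly.fst (Poly.comp Poly.snd hs)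
  have s3 : Poly (fun a => (fs a).2.2) := Poly.comp Poly.snd (Poly.comp Poly.snd hs)
  have hph := MachP_pnph he hv hc hN hZ hq s1
  have hvx := MachP_pnvy he hM hv hc hm hB hZ ht q1 s1 (Poly.length s2) hph
  have hok := MachP_pnok he hq hvx
  have hr : Poly (fun a => bif decide ((fq a).1.1 = 0) || decide ((fq a).1.1 = 4) then (fs a).1
      else (fs a).1.tail.tail) :=
    Poly.cond (Poly.or (Poly.isZero hq1) (Poly.nateq hq1 (MachP_c 4))) s1
      (Poly.tail (Poly.tail s1))
  unfold vstep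
  exact Poly.pair (Poly.lcons hvx hr) (Poly.pair (Poly.append s2
    (Poly.lcons hph (MachP_c ([] : List (List Bool))))) (Poly.and s3 hok))

private theorem MachP_sz (e M : List Bool) (v c m : ℕ) (N B : List (List Bool)) (Z : List Bool)
    (tab : List (List SI)) (T l₁ l₂ : List (Tok × Bool)) (h : T = l₁ ++ l₂) :
    sz (vrun e M v c m N B Z tab l₂) ≤
      (sz T * (5 * (4 * (sz e + 4) + 1) + 2 * (4 * (sz M + 4) + 1) + 15) + 1) +
        (sz T * (4 * (sz e + 4) + 2) + 1) + 5 := by
  obtain ⟨h1, h2, h3, h4⟩ := vrun_len e M v c m N B Z tab l₂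
  have hT : l₂.length ≤ sz T := by
    have h5 := length_lt_sz T
    have h6 : l₂.length ≤ T.length := by
      rw [h, List.length_append]
      omega
    omega
  have he := length_lt_sz e
  have hM := length_lt_sz M
  have k1 : sz (vrun e M v c m N B Z tab l₂).1 ≤
      sz T * (5 * (4 * (sz e + 4) + 1) + 2 * (4 * (sz M + 4) + 1) + 15) + 1 := by
    refine (sz_le_of_forall _ (5 * (4 * (sz e + 4) + 1) + 2 * (4 * (sz M + 4) + 1) + 14)
      fun x hx => ?_).trans ?_
    · obtain ⟨g1, g2, g3, g4, g5, g6, g7⟩ := h3 x hx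
      have f1 := (sz_bool_list x.1.1).2
      have f2 := (sz_bool_list x.1.2.1).2
      have f3 := (sz_bool_list x.1.2.2.1).2
      have f4 := (sz_bool_list x.1.2.2.2.1).2
      have f5 := (sz_bool_list x.1.2.2.2.2.1).2
      have f8 := (sz_bool_list x.1.2.2.2.2.2.1).2
      have f9 := (sz_bool_list x.1.2.2.2.2.2.2).2
      have f6 := sz_bool_le x.2.1
      have f7 := sz_bool_le x.2.2
      have e1 : sz x = (sz x.1.1 + (sz x.1.2.1 + (sz x.1.2.2.1 +
        (sz x.1.2.2.2.1 + (sz x.1.2.2.2.2.1 + (sz x.1.2.2.2.2.2.1 + sz x.1.2.2.2.2.2.2 + 1) + 1) +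
          1) + 1) + 1) + 1) + (sz x.2.1 + sz x.2.2 + 1) + 1 :=
        rfl
      rw [e1]
      omega
    · exact Nat.add_le_add_right (Nat.mul_le_mul_right _ (h1.trans hT)) 1
  have k2 : sz (vrun e M v c m N B Z tab l₂).2.1 ≤ sz T * (4 * (sz e + 4) + 2) + 1 := by
    refine (sz_le_of_forall _ (4 * (sz e + 4) + 1) fun x hx => ?_).trans ?_
    · have g1 := h4 x hx
      have f1 := (sz_bool_list x).2
      omega
    · exact Nat.add_le_add_right (Nat.mul_le_mul_right _ (h2.le.trans hT)) 1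
  have k3 := sz_bool_le (vrun e M v c m N B Z tab l₂).2.2
  have e2 : sz (vrun e M v c m N B Z tab l₂) = sz (vrun e M v c m N B Z tab l₂).1 +
      (sz (vrun e M v c m N B Z tab l₂).2.1 + sz (vrun e M v c m N B Z tab l₂).2.2 + 1) + 1 :=
    rfl
  rw [e2]
  omega

theorem poly_vrun {fe fM : α → List Bool} {fv fc fm : α → ℕ} {fN fB : α → List (List Bool)}
    {fZ : α → List Bool} {ft : α → List (List SI)} {fT : α → List (Tok × Bool)} (he : Poly fe)
    (hM : Poly fM) (hv : Poly fv) (hc : Poly fc) (hm : Poly fm) (hN : Poly fN) (hB : Poly fB)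
    (hZ : Poly fZ) (ht : Poly ft) (hT : Poly fT) :
    Poly (fun a => vrun (fe a) (fM a) (fv a) (fc a) (fm a) (fN a) (fB a) (fZ a) (ft a)
      (fT a)) := by
  have hf : Poly (fun p : α × (List Vy × List (List Bool) × Bool) × (Tok × Bool) =>
      vstep (fe p.1) (fM p.1) (fv p.1) (fc p.1) (fm p.1) (fN p.1) (fB p.1) (fZ p.1) (ft p.1)
        p.2.2 p.2.1) :=
    MachP_vstep (he.comp Poly.fst) (hM.comp Poly.fst) (hv.comp Poly.fst) (hc.comp Poly.fst)
      (hm.comp Poly.fst) (hN.comp Poly.fst) (hB.comp Poly.fst) (hZ.comp Poly.fst)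
      (ht.comp Poly.fst) (Poly.comp Poly.snd Poly.snd) (Poly.comp Poly.fst Poly.snd)
  exact Poly.foldr
    (f := fun p : α × (List Vy × List (List Bool) × Bool) × (Tok × Bool) =>
      vstep (fe p.1) (fM p.1) (fv p.1) (fc p.1) (fm p.1) (fN p.1) (fB p.1) (fZ p.1) (ft p.1)
        p.2.2 p.2.1)
    (l := fT) (s0 := fun _ => (([], [], true) : List Vy × List (List Bool) × Bool))
    (B := fun a => (sz (fT a) * (5 * (4 * (sz (fe a) + 4) + 1) + 2 * (4 * (sz (fM a) + 4) + 1) + 15)
      + 1) + (sz (fT a) * (4 * (sz (fe a) + 4) + 2) + 1) + 5) hf hT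
    (MachP_c _)
    ((((hT.sz_le.mul ((((PBdd.const 5).mul (((PBdd.const 4).mul (he.sz_le.add
      (PBdd.const 4))).add (PBdd.const 1))).add ((PBdd.const 2).mul (((PBdd.const 4).mul
      (hM.sz_le.add (PBdd.const 4))).add (PBdd.const 1)))).add (PBdd.const 15))).add
      (PBdd.const 1)).add
      ((hT.sz_le.mul (((PBdd.const 4).mul (he.sz_le.add
      (PBdd.const 4))).add (PBdd.const 2))).add (PBdd.const 1))).add
      (PBdd.const 5)) (by
      intro a l₁ l₂ h
      exact MachP_sz (fe a) (fM a) (fv a) (fc a) (fm a) (fN a) (fB a) (fZ a) (ft a) (fT a)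
        l₁ l₂ h)

theorem poly_vrow {fe fM : α → List Bool} {fv fc fm : α → ℕ} {fN fB : α → List (List Bool)}
    {fZ : α → List Bool} {ft : α → List (List SI)} {fT : α → List (Tok × Bool)} {fi : α → ℕ}
    (he : Poly fe) (hM : Poly fM) (hv : Poly fv) (hc : Poly fc) (hm : Poly fm) (hN : Poly fN)
    (hB : Poly fB) (ht : Poly ft) (hT : Poly fT) (hi : Poly fi) (hZ : Poly fZ) :
    Poly (fun a => vrow (fe a) (fM a) (fv a) (fc a) (fm a) (fN a) (fB a) (ft a) (fT a) (fi a)
      (fZ a)) := by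
  have h0 : Poly (fun a => (fT a).drop ((fT a).length - (fi a + 1))) :=
    Poly.drop (Poly.sub (Poly.length hT) (Poly.add hi (MachP_c 1))) hT
  have h1 := poly_vrun he hM hv hc hm hN hB hZ ht h0
  unfold vrow
  exact Poly.cond (Poly.comp Poly.snd (Poly.comp Poly.snd h1))
    (Poly.comp Poly.fst (Poly.comp Poly.snd h1))
    (Poly.replicate (Poly.add hi (MachP_c 1)) (MachP_c _))

end Pool.Agent.TV
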