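import Pool.Agent.H.MP_b2d7dd_lc.TV.Nxt
import Pool.Agent.H.MP_b2d7dd_lc.TQ.Snd

/-!
# Module Snd: true identities are always accepted

Compare TQ, TD/Snd.
-/

namespace Pool.Agent.TV

open Pool.Agent.TI (Tm Tok names Valid)
open Pool.Agent.TE (bl)
open Pool.Agent.TW (SI irow wun)
open Pool.Agent.TC (Pt rf rf_pos evl Mo Su nrm Pr Gx Lx h1 h2 al ga lcP MB Vn Coh Fai Eqv Bas crd chi)
open Pool.Agent.TC (muB Pb Stk subs exF cob eN eP uu vv Kc Qw Rr kk SS AA KK)
open Pool.Agent.TD hiding nxt tabI fin1 test0 test1 accept acceptT lv h0 nxt_coh tabI_bound tabI_coh fin1_iff test0_valid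
open Pool.Agent.H.MP_5be563_lc.PT Finset

/-- The logarithms of the small subterms. -/
noncomputable abbrev lv (n : ℕ) (s t : Tm) (a : ℕ) : Pt (Wn s t) → ℝ := lr (Wn s t) (exT n s t a)

private theorem Snd_hn {s t : Tm} {n : ℕ} (hn : wg s 0 + wg t 0 ≤ n) : s.sz + t.sz ≤ n := by
  have h1 := sz_le_wg s 0
  have h2 := sz_le_wg t 0
  omega

private theorem Snd_len (n : ℕ) (s t : Tm) :
    (zf n (s.toks ++ t.toks)).length = s.sz + t.sz := by
  rw [zf_length, List.length_append, Tm.length_toks, Tm.length_toks]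

private theorem Snd_Mn (n : ℕ) : 2 ^ n ≤ bval (Mn n) := by
  rw [bval_Mn]
  exact Nat.pow_le_pow_right (by norm_num) (by omega)

theorem nxt_coh {n : ℕ} {s t : Tm} (hn : wg s 0 + wg t 0 ≤ n) {i : ℕ}
    (hi : i < s.sz + t.sz) {e : List Bool} (he : 2 ^ vv n ≤ bval e) (N : List (List Bool))
    {tab : List (List SI)} (hc : Coh (lv n s t) i (tab.map irow)) (zz : List Bool) :
    Coh (lv n s t) (i + 1)
      ((nxt n e N (baseV n (zf n (s.toks ++ t.toks))) (zf n (s.toks ++ t.toks)) i tab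
        zz).map irow) := by
  have hF : FamR (Wn s t) n (s.sz + t.sz) (exT n s t) := fam_exT hn
  have hM := baseV_mb (s := s) (t := t) hn
  have hn' := Snd_hn hn
  have hL : i + 1 ≤ n := by omega
  have hlen := Snd_len n s t
  unfold nxt
  refine Pool.Agent.TC.coh_ltab (rel_iff hF hM (i := i + 1) (by omega))
    (fun a ha g => cw_bound hF hM (i := i + 1) (by omega) ha g) (kk n) ?_ ?_ _ ?_ ?_
  · rw [Pool.Agent.TW.bval_pow2]
    exact Pool.Agent.TC.NB_le hL
  · rw [Pool.Agent.TW.bval_pow2, Pool.Agent.TW.bval_pow2]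
    exact Pool.Agent.TC.par_coh hL (by omega)
  · intro v hv
    obtain ⟨j, -, rfl⟩ := List.mem_map.1 hv
    exact vrow_length e (Mn n) (vv n) (n + 1) n N _ tab _ (by rw [hlen]; omega) _
  · intro v hv κ hκ
    obtain ⟨j, -, rfl⟩ := List.mem_map.1 hv
    have h1 := hw_rel (W := Wn s t) (e := e) (v := vv n) (c := n + 1) (N := N)
      (B := baseV n (zf n (s.toks ++ t.toks))) (ν := tab.map irow) (ex := exT n s t)
      (Z := bl (Qw n * vv n) zz j) hF hM hi hc κ hκ
    rw [← h1]
    refine Finset.sum_congr rfl fun a ha => ?_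
    rw [vrow_val (W := Wn s t) _ s t hn hi (baseV_two hn).1 le_rfl (Snd_Mn n) hc
      (Nat.lt_succ_iff.1 (Finset.mem_range.1 ha))]

private theorem Snd_bnd (n : ℕ) (e : List Bool) (N B : List (List Bool))
    (T : List (Tok × Bool)) (i : ℕ) (tab : List (List SI)) (zz : List Bool) :
    (nxt n e N B T i tab zz).length ≤ i + 1 ∧
      ∀ row ∈ (nxt n e N B T i tab zz).map irow, ∀ a, |row a| ≤ (2 ^ eP n : ℕ) := by
  unfold nxt
  refine ⟨(Pool.Agent.TW.ltab_len _ _ _ _ _ _).1.trans (Pool.Agent.TW.pivots_len _ _ _).1, ?_⟩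
  intro row hrow a
  obtain ⟨l, hl, rfl⟩ := List.mem_map.1 hrow
  have h1 := (Pool.Agent.TW.mem_ltab hl).2 a
  rw [Pool.Agent.TW.bval_pow2] at h1
  exact h1

theorem tabI_bound (n : ℕ) (e : List Bool) (N B : List (List Bool))
    (T : List (Tok × Bool)) (z : List Bool) (i : ℕ) : (tabI n e N B T z i).length ≤ i ∧
      ∀ row ∈ (tabI n e N B T z i).map irow, ∀ a, |row a| ≤ (2 ^ eP n : ℕ) := by
  cases i with
  | zero =>
    refine ⟨le_rfl, ?_⟩
    intro row hrow
    exact absurd hrow (by simp [tabI])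
  | succ i => exact Snd_bnd n e N B T i _ _

theorem tabI_coh {n : ℕ} {s t : Tm} (hn : wg s 0 + wg t 0 ≤ n)
    {e : List Bool} (he : 2 ^ vv n ≤ bval e) (N : List (List Bool)) (z : List Bool) (i : ℕ)
    (hi : i ≤ s.sz + t.sz) :
    Coh (lv n s t) i
      ((tabI n e N (baseV n (zf n (s.toks ++ t.toks))) (zf n (s.toks ++ t.toks)) z
        i).map irow) := by
  induction i with
  | zero =>
    intro κ _ row hrow
    exact absurd hrow (by simp [tabI])
  | succ i ih => exact nxt_coh hn (by omega) he N (ih (by omega)) _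

/-- The value of a term of the identity for the first character. -/
noncomputable def h0 (n : ℕ) (e : List Bool) (s t : Tm) (tab : List (List SI)) (Z : List Bool)
    (u : Tm) : ZMod (bval e + 2) :=
  evl (fun v => chi (fun b => wun e (bl (vv n) Z b)) (tab.map irow) (lv n s t) (s.sz + t.sz) v)
    (rp (Wn s t) u)

theorem fin1_iff {n : ℕ} {s t : Tm} (hn : wg s 0 + wg t 0 ≤ n) (e : List Bool)
    (N : List (List Bool)) {tab : List (List SI)}
    (hc : Coh (lv n s t) (s.sz + t.sz) (tab.map irow)) (zz : List Bool) :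
    fin1 n e N (baseV n (zf n (s.toks ++ t.toks))) (zf n (s.toks ++ t.toks)) tab zz = true ↔
      h0 n e s t tab (bl (Qw n * vv n) zz 0) s = h0 n e s t tab (bl (Qw n * vv n) zz 0) t := by
  obtain ⟨h1, h2⟩ := vrun_pair (n := n) (W := Wn s t) (e := e) (M := Mn n) (v := vv n)
    (c := n + 1) (m := n) (N := N) (B := baseV n (zf n (s.toks ++ t.toks)))
    (bl (Qw n * vv n) zz 0) (tab := tab) s t hn (baseV_two hn).1 le_rfl (Snd_Mn n) hc
  have hMo : Mo (VA (Wn s t) (exA (exT n s t) (s.sz + t.sz)))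
      (fun v => chi (fun b => wun e (bl (vv n) (bl (Qw n * vv n) zz 0) b)) (tab.map irow)
        (lv n s t) (s.sz + t.sz) v) := by
    rw [VA_exA]
    exact ⟨Pool.Agent.TC.chi_zero _ hc, fun g hg h hh => Pool.Agent.TC.chi_add _ hc hg hh⟩
  have h3 : ∀ u, (u = s ∨ u = t) → av (Pz (Wn s t) e (vv n) (n + 1) N
      (baseV n (zf n (s.toks ++ t.toks))) (tab.map irow) (exT n s t) (s.sz + t.sz)
      (bl (Qw n * vv n) zz 0)).f u =
        h0 n e s t tab (bl (Qw n * vv n) zz 0) u := fun u hu =>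
    av_evl hMo (fun a _ => rfl) (ats_exT hn hu)
  unfold fin1
  rw [Pool.Agent.TW.beqv_bmod_iff, h1, h2, h3 s (Or.inl rfl), h3 t (Or.inr rfl)]

theorem test0_valid {n : ℕ} {s t : Tm} (hn : wg s 0 + wg t 0 ≤ n)
    (hv : Valid s t) (e z : List Bool) : test0 n (s.toks ++ t.toks) e z = true := by
  unfold test0
  cases hb : ble (Pool.Agent.TW.pow2 (vv n)) e with
  | false => rfl
  | true =>
    rw [cond_true]
    have he := (ble_iff _ _).1 hb
    rw [Pool.Agent.TW.bval_pow2] at he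
    have hlen : (s.toks ++ t.toks).length = s.sz + t.sz := by
      rw [List.length_append, Tm.length_toks, Tm.length_toks]
    rw [hlen]
    have hc := tabI_coh hn he (names (s.toks ++ t.toks)) z (s.sz + t.sz) le_rfl
    rw [fin1_iff hn e (names (s.toks ++ t.toks)) hc]
    unfold h0
    rw [(valid_rp s t).1 hv]

end Pool.Agent.TV
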