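import Pool.Agent.H.MP_b2d7dd_lc.TV.Rnd
import Pool.Agent.H.MP_b2d7dd_lc.TV.TabP
import Pool.Agent.H.MP_b2d7dd_lc.TV.Acc
import Pool.Agent.H.MP_b2d7dd_lc.TI.Read
import Pool.Agent.H.MP_b2d7dd_lc.TI.Md
import Pool.Agent.H.MP_b2d7dd_lc.TC.Par
import Pool.Agent.H.MP_b2d7dd_lc.TD.Main

/-!
# Module Main: the identities with small weights outside are in coRP

Compare TQ, TD/Main.
-/

namespace Pool.Agent.TV

open Pool.Agent.TI (Tm Tok names tokz Valid prob CoRP pairCode)
open Pool.Agent.TE (bl)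
open Pool.Agent.TC (eN eP uu vv Kc Qw Rr kk SS AA KK)
open Pool.Agent.H.MP_5be563_lc.PT

theorem accept_prob {k : ℕ} {x : List Bool} (h : x ∉ identitiesG k) {p : Polynomial ℕ}
    (hp : ∀ n, p.eval n = KK (n ^ k) * AA (n ^ k)) :
    prob (p.eval x.length) (fun r => accept k x r = true) ≤ 1 / 2 := by
  unfold prob
  rw [hp]
  generalize hN : x.length ^ k = N
  change (TW.cnt (KK N * AA N) (fun r => accept k x r = true) : ℝ) /
    2 ^ (KK N * AA N) ≤ 1 / 2
  by_cases hc : ∃ s t : Tm, wg s 0 + wg t 0 ≤ N ∧ x = s.code ++ t.code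
  · obtain ⟨s, t, hn, hx⟩ := hc
    have hv : ¬ Valid s t := fun hv => h ⟨s, t, hv, hN ▸ hn, hx⟩
    have h1 := test1_cnt hn hv
    have hw : 1 ≤ 4 * vv N := by
      unfold vv uu
      omega
    have h2 := TI.amp hw h1
    have h3 : TW.cnt (KK N * AA N) (fun r => accept k x r = true) =
        TW.cnt (AA N) (fun z => test1 N (s.toks ++ t.toks) z = true) ^ KK N := by
      rw [← TW.cnt_blocks]
      congr 1
      funext r
      have h7 := accept_code (k := k) hx (hN ▸ hn) r
      rw [hN] at h7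
      exact propext h7
    have h4 : 4 * TW.cnt (KK N * AA N) (fun r => accept k x r = true) ≤ 2 ^ (KK N * AA N) := by
      rw [h3, mul_comm (KK N) (AA N), pow_mul]
      exact h2
    rw [div_le_iff₀ (by positivity)]
    have h5 : (4 : ℝ) * (TW.cnt (KK N * AA N) (fun r => accept k x r = true) : ℝ) ≤
        2 ^ (KK N * AA N) := by exact_mod_cast h4
    have h6 : (0 : ℝ) ≤ (TW.cnt (KK N * AA N) (fun r => accept k x r = true) : ℝ) :=
      Nat.cast_nonneg _
    linarith
  · have h2 : TW.cnt (KK N * AA N) (fun r => accept k x r = true) = 0 := by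
      unfold TW.cnt
      rw [Nat.card_eq_zero]
      left
      refine ⟨fun ρ => hc ?_⟩
      have h3 := accept_imp ρ.2
      rw [hN] at h3
      exact h3
    rw [h2]
    norm_num

theorem corp_G (k : ℕ) : CoRP (identitiesG k) := by
  obtain ⟨p, hp⟩ := TD.exists_p k
  exact ⟨p, fun z => accept k z.1 z.2, tm_accept k, fun x => ⟨fun h r => accept_valid h r,
    fun h => accept_prob h hp⟩⟩

theorem mem_identitiesG_iff (k : ℕ) (s t : Tm) :
    s.code ++ t.code ∈ identitiesG k ↔
      Valid s t ∧ wg s 0 + wg t 0 ≤ (s.code ++ t.code).length ^ k := by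
  constructor
  · rintro ⟨s', t', hv, hw, hx⟩
    have h1 := TI.code_inj (a₁ := (s, t)) (a₂ := (s', t')) hx
    rw [Prod.mk.injEq] at h1
    rw [← h1.1, ← h1.2] at hv hw
    exact ⟨hv, hw⟩
  · rintro ⟨hv, hw⟩
    exact ⟨s, t, hv, hw, rfl⟩

/-- The weight outside is the number of symbols for the terms with `SimG`. -/
theorem simG_code {s t : Tm} (hs : SimG s 0) (ht : SimG t 0) :
    wg s 0 + wg t 0 ≤ (s.code ++ t.code).length ^ 1 := by
  rw [pow_one, List.length_append, simG_wg hs, simG_wg ht]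
  exact Nat.add_le_add s.sz_le_code t.sz_le_code

end Pool.Agent.TV
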