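import Pool.Agent.H.MP_b2d7dd_lc.TV.Rl
import Pool.Agent.H.MP_b2d7dd_lc.TD.Md

/-!
# Module Md: the numerators modulo a large prime number

Compare TD/Md.
-/

namespace Pool.Agent.TV

open Pool.Agent.TI (Tm)
open Pool.Agent.TC (Pt rf rf_pos evl Mo Su nrm Pr Gx Lx h1 h2 al ga lcP MB Vn Coh Fai Eqv Bas crd chi)
open Pool.Agent.TC (evl_one evl_add evl_mul evl_prod evl_single)
open Pool.Agent.TD
open Finset

variable {W : Finset (List Bool)} {n L : ℕ} {ex : ℕ → Tm} {κ : ℕ} {mu : ℕ → ℕ → ℕ}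

private theorem Md_su (P : Lx W) : Su (⊤ : AddSubmonoid (Gx W)) P :=
  fun _ _ => AddSubmonoid.mem_top _

private theorem Md_mo {K : Type} [CommRing K] :
    Mo (⊤ : AddSubmonoid (Gx W)) (fun _ => (1 : K)) :=
  ⟨rfl, fun _ _ _ _ => (one_mul (1 : K)).symm⟩

private theorem Md_sg {K : Type} [CommRing K] (g : Gx W) :
    evl (fun _ => (1 : K)) (AddMonoidAlgebra.single g 1) = 1 := by
  rw [evl_single, Int.cast_one, one_mul]

private theorem Md_pow {K : Type} [CommRing K] (P : Lx W) (m : ℕ) :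
    evl (fun _ => (1 : K)) (P ^ m) = evl (fun _ => (1 : K)) P ^ m := by
  induction m with
  | zero => rw [pow_zero, pow_zero, evl_one Md_mo]
  | succ m ih => rw [pow_succ, pow_succ, evl_mul Md_mo (Md_su _) (Md_su _), ih]

private theorem Md_hP {K : Type} [CommRing K] (t : Tm) :
    evl (fun _ => (1 : K)) (hP W t) = (e1 t : K) := by
  induction t with
  | one =>
    have h : evl (fun _ => (1 : K)) (1 : Lx W) = ((1 : ℕ) : K) := by
      rw [evl_one Md_mo, Nat.cast_one]
    exact h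
  | var w =>
    have h : evl (fun _ => (1 : K)) (h1 W (lr W (.var w))) = ((1 : ℕ) : K) := by
      rw [Nat.cast_one]
      exact Md_sg _
    exact h
  | add s t ihs iht =>
    have h : evl (fun _ => (1 : K)) (hP W s + hP W t) = ((e1 s + e1 t : ℕ) : K) := by
      rw [evl_add, ihs, iht, Nat.cast_add]
    exact h
  | mul s t ihs iht =>
    have h : evl (fun _ => (1 : K)) (hP W s * hP W t) = ((e1 s * e1 t : ℕ) : K) := by
      rw [evl_mul Md_mo (Md_su _) (Md_su _), ihs, iht, Nat.cast_mul]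
    exact h
  | pow s t ihs _ =>
    have h : evl (fun _ => (1 : K)) ((if Tr s t then h1 W (lr W (.pow s t)) else 1) *
        hP W s ^ cs t) = ((e1 s ^ cs t : ℕ) : K) := by
      rw [evl_mul Md_mo (Md_su _) (Md_su _), Md_pow, ihs, Nat.cast_pow]
      have h0 : evl (fun _ => (1 : K)) (if Tr s t then h1 W (lr W (.pow s t)) else 1) = 1 := by
        by_cases hT : Tr s t
        · rw [if_pos hT]
          exact Md_sg _
        · rw [if_neg hT, evl_one Md_mo]
      rw [h0, one_mul]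
    exact h

private theorem Md_w1 (s t : Tm) : wg (.pow s t) 1 = wg s 1 + wg t 2 + 1 := by
  simp [wg]

private theorem Md_w2 (s t : Tm) : wg (.pow s t) 2 = wg s 1 + wg t 2 + 1 + cs t * lg s := by
  simp [wg]

private theorem Md_wm (s t : Tm) (m : ℕ) : wg (.mul s t) m = wg s m + wg t m + 1 := rfl

private theorem Md_dn {r : ℕ} [Fact r.Prime] {m : ℕ} (hr : 2 ^ m < r) (t : Tm) :
    (wg t 2 ≤ m → evl (fun _ => (1 : ZMod r)) (dm W t) ≠ 0) ∧
      (wg t 1 ≤ m → evl (fun _ => (1 : ZMod r)) (qd W t) ≠ 0) := by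
  have h10 : evl (fun _ => (1 : ZMod r)) (1 : Lx W) ≠ 0 := by
    rw [evl_one Md_mo]
    exact one_ne_zero
  induction t with
  | one => exact ⟨fun _ => h10, fun _ => h10⟩
  | var w => exact ⟨fun _ => h10, fun _ => h10⟩
  | add s t ihs iht =>
    obtain ⟨e1', e2'⟩ := wg_add s t
    constructor
    · intro hm
      have h : evl (fun _ => (1 : ZMod r)) (dm W s * dm W t) ≠ 0 := by
        rw [evl_mul Md_mo (Md_su _) (Md_su _)]
        exact mul_ne_zero (ihs.1 (by omega)) (iht.1 (by omega))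
      exact h
    · intro hm
      have h : evl (fun _ => (1 : ZMod r)) (dm W s * dm W t * hP W (.add s t)) ≠ 0 := by
        rw [evl_mul Md_mo (Md_su _) (Md_su _), evl_mul Md_mo (Md_su _) (Md_su _), Md_hP]
        refine mul_ne_zero (mul_ne_zero (ihs.1 (by omega)) (iht.1 (by omega))) ?_
        intro h0
        have h2 := (ZMod.natCast_eq_zero_iff _ _).1 h0
        have h3 := Nat.le_of_dvd (e1_pos (.add s t)) h2
        have h5 := lg_le2 (.add s t)
        have h4 := (e1_le (.add s t)).trans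
          (Nat.pow_le_pow_right two_pos (show lg (.add s t) ≤ m by omega))
        omega
      exact h
  | mul s t ihs iht =>
    have e1' := Md_wm s t 1
    have e2' := Md_wm s t 2
    constructor
    · intro hm
      have h : evl (fun _ => (1 : ZMod r)) (dm W s * dm W t) ≠ 0 := by
        rw [evl_mul Md_mo (Md_su _) (Md_su _)]
        exact mul_ne_zero (ihs.1 (by omega)) (iht.1 (by omega))
      exact h
    · intro hm
      have h : evl (fun _ => (1 : ZMod r)) (qd W s * qd W t) ≠ 0 := by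
        rw [evl_mul Md_mo (Md_su _) (Md_su _)]
        exact mul_ne_zero (ihs.2 (by omega)) (iht.2 (by omega))
      exact h
  | pow a b iha _ =>
    have e1' := Md_w1 a b
    have e2' := Md_w2 a b
    exact ⟨fun hm => iha.2 (by omega), fun hm => iha.2 (by omega)⟩

/-- The common denominator is not zero modulo `r`. -/
theorem Dw_ne {r : ℕ} [Fact r.Prime] (h : ∀ a, wg (ex a) 1 ≤ n + 1) (hr : 2 ^ (n + 1) < r)
    (i : ℕ) : ∃ g, (((Dw W ex i).coeff g : ℤ) : ZMod r) ≠ 0 := by
  have h1 : evl (fun _ => (1 : ZMod r)) (Dw W ex i) ≠ 0 := by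
    unfold Dw
    rw [evl_prod Md_mo _ _ fun j _ => Md_su _]
    exact Finset.prod_ne_zero_iff.2 fun b _ => (Md_dn hr (ex b)).2 (h b)
  by_contra hcon
  push Not at hcon
  apply h1
  unfold evl
  refine Finset.sum_eq_zero fun g _ => ?_
  show (((Dw W ex i).coeff g : ℤ) : ZMod r) * 1 = 0
  rw [hcon g, zero_mul]

private theorem Md_atom {u t : Tm} (h : u ∈ ats t) :
    (∃ w, u = .var w) ∨ ∃ a b, u = .pow a b := by
  induction t with
  | one => exact absurd h (Set.notMem_empty u)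
  | var w => exact Or.inl ⟨w, h⟩
  | add s t hs ht =>
    rcases h with h | h
    · exact hs h
    · exact ht h
  | mul s t hs ht =>
    rcases h with h | h
    · exact hs h
    · exact ht h
  | pow s t hs _ =>
    rcases h with h | h
    · exact Or.inr ⟨s, t, h.1⟩
    · exact hs h

private theorem Md_mono {i j : ℕ} (hij : i ≤ j) : exA ex i ⊆ exA ex j := by
  rintro u ⟨a, ha, h1, h2⟩
  exact ⟨a, lt_of_lt_of_le ha hij, h1, h2⟩

private theorem Md_at (h : FamR W n L ex) {i : ℕ} (hi : i < L) {a : ℕ} (ha : a ≤ i)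
    (hn1 : ∀ w, ex a ≠ .var w) (hn2 : ∀ b c, ex a ≠ .pow b c) : ats (ex a) ⊆ exA ex i := by
  intro x hx
  obtain ⟨c, hc, h1, h2⟩ := h.at1 a (lt_of_le_of_lt ha hi) hx
  refine ⟨c, ?_, h1, h2⟩
  have h3 : c ≠ a := by
    rintro rfl
    rcases Md_atom hx with ⟨w, h4⟩ | ⟨b, d, h4⟩
    · exact hn1 w (h1.symm.trans h4)
    · exact hn2 b d (h1.symm.trans h4)
  omega

private theorem Md_one {A : Set Tm} {m : ℕ} : Dg W A m (1 : Lx W) := by
  intro g hg
  rw [AddMonoidAlgebra.one_def, AddMonoidAlgebra.coeff_single] at hg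
  have e := Finset.mem_singleton.1 (Finsupp.support_single_subset hg)
  rw [e]
  exact ⟨[], [], Nat.zero_le m, Nat.zero_le m, by simp, by simp, rfl, rfl,
    fun x => Nat.zero_le m⟩

private theorem Md_zero {A : Set Tm} {m : ℕ} : Dg W A m (0 : Lx W) := by
  intro g hg
  rw [AddMonoidAlgebra.coeff_zero, Finsupp.support_zero] at hg
  exact absurd hg (Finset.notMem_empty g)

private theorem Md_al {A : Set Tm} (w : List Bool) : Dg W A 1 (al W w) := by
  classical
  intro g hg
  rw [al, AddMonoidAlgebra.coeff_single] at hg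
  have e := Finset.mem_singleton.1 (Finsupp.support_single_subset hg)
  rw [e]
  refine ⟨[], [], Nat.zero_le 1, Nat.zero_le 1, by simp, by simp, rfl, rfl, fun x => ?_⟩
  show (Finsupp.single (Sum.inl w) 1 : (List Bool ⊕ ℕ) →₀ ℕ) x ≤ 1
  rw [Finsupp.single_apply]
  split_ifs
  · exact le_rfl
  · exact Nat.zero_le 1

private theorem Md_dg (h : FamR W n L ex) {i : ℕ} (hi : i < L) {a : ℕ} (ha : a ≤ i) :
    Dg W (exA ex i) (2 ^ (3 * (n + 1))) (pN W κ mu (ex a)) ∧
      Dg W (exA ex i) (2 ^ (2 * (n + 1))) (qd W (ex a)) := by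
  have hcl : ClA (exA ex i) := h.clA hi.le
  have hsz := h.wt a
  have hat := Md_at h hi ha
  have h22 := h.at2 a (lt_of_le_of_lt ha hi)
  have hp : 1 ≤ 2 ^ (3 * (n + 1)) := Nat.one_le_two_pow
  have hq : 2 ^ (2 * wg (ex a) 1) ≤ 2 ^ (2 * (n + 1)) :=
    Nat.pow_le_pow_right two_pos (Nat.mul_le_mul_left 2 hsz)
  cases hx : ex a with
  | one => exact ⟨Md_zero, Md_one⟩
  | var w => exact ⟨(Md_al w).mono hp, Md_one⟩
  | add s t =>
    rw [hx] at hat hq
    have h1 := hat (fun w e => Tm.noConfusion e) (fun b c e => Tm.noConfusion e)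
    exact ⟨Md_zero, (dg_dm hcl h1).2.mono hq⟩
  | mul s t =>
    rw [hx] at hat hq
    have h1 := hat (fun w e => Tm.noConfusion e) (fun b c e => Tm.noConfusion e)
    exact ⟨Md_zero, (dg_dm hcl h1).2.mono hq⟩
  | pow s t =>
    obtain ⟨h1, h2⟩ := h22 s t hx
    have h3 := h1.trans (Md_mono ha)
    have h4 := h2.trans (Md_mono ha)
    rw [hx] at hsz
    refine ⟨(dg_pN hcl h3 h4).mono
      (Nat.pow_le_pow_right two_pos (Nat.mul_le_mul_left 3 hsz)), ?_⟩
    have e := Md_w1 s t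
    have h5 : Dg W (exA ex i) (2 ^ (2 * (n + 1))) (qd W s) :=
      (dg_dm hcl h3).2.mono (Nat.pow_le_pow_right two_pos (by omega))
    exact h5

/-- The exponents of the test polynomials are bounded. -/
theorem dg_cw (h : FamR W n L ex) {i : ℕ} (hi : i < L) {a : ℕ} (ha : a ≤ i) :
    Dg W (exA ex i) (2 ^ (4 * (n + 3))) (cw W κ mu ex (i + 1) a * Dw W ex (i + 1)) := by
  have h1 := (Md_dg (κ := κ) (mu := mu) h hi ha).1
  have h2 := Dg.prod (W := W) (A := exA ex i) ((range (i + 1)).erase a) (2 ^ (2 * (n + 1)))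
    (fun b => qd W (ex b)) fun b hb =>
      (Md_dg (κ := κ) (mu := mu) h hi
        (Nat.lt_succ_iff.1 (Finset.mem_range.1 (Finset.mem_of_mem_erase hb)))).2
  have h3 := Dg.prod (W := W) (A := exA ex i) (range (i + 1)) (2 ^ (2 * (n + 1)))
    (fun b => qd W (ex b)) fun b hb =>
      (Md_dg (κ := κ) (mu := mu) h hi (Nat.lt_succ_iff.1 (Finset.mem_range.1 hb))).2
  have h4 := Finset.card_erase_le (s := range (i + 1)) (a := a)
  rw [card_range] at h3 h4
  have h5 := h.le
  have h6 : ((range (i + 1)).erase a).card ≤ n := by omega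
  refine ((h1.mul h2).mul h3).mono ?_
  have h7 := Nat.mul_le_mul_right (2 ^ (2 * (n + 1))) h6
  have h8 := Nat.mul_le_mul_right (2 ^ (2 * (n + 1))) (show i + 1 ≤ n by omega)
  have h9 : n * 2 ^ (2 * (n + 1)) ≤ 2 ^ (3 * (n + 1)) := by
    have h10 : n ≤ 2 ^ (n + 1) := (Nat.lt_two_pow_self (n := n)).le.trans
      (Nat.pow_le_pow_right two_pos (Nat.le_succ n))
    calc n * 2 ^ (2 * (n + 1)) ≤ 2 ^ (n + 1) * 2 ^ (2 * (n + 1)) := Nat.mul_le_mul_right _ h10
      _ = 2 ^ (3 * (n + 1)) := by rw [← pow_add]; congr 1; ring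
  have h11 : 2 ^ (3 * (n + 1) + 2) ≤ 2 ^ (4 * (n + 3)) :=
    Nat.pow_le_pow_right two_pos (by omega)
  rw [pow_add] at h11
  omega

/-- The exponents of the numerators and denominators. -/
theorem su_cw (h : FamR W n L ex) {i : ℕ} (hi : i < L) {a : ℕ} (ha : a ≤ i) :
    Su (Sg W (exA ex i)) (pN W κ mu (ex a)) ∧ Su (Sg W (exA ex i)) (qd W (ex a)) := by
  have hcl : ClA (exA ex i) := h.clA hi.le
  have hat := Md_at h hi ha
  have h22 := h.at2 a (lt_of_le_of_lt ha hi)
  cases hx : ex a with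
  | one => exact ⟨Su.zero, Su.one⟩
  | var w =>
    refine ⟨Su.single (AddSubmonoid.mem_prod.2 ⟨(VA W (exA ex i)).zero_mem,
      AddSubmonoid.mem_prod.2 ⟨(VA W (exA ex i)).zero_mem, AddSubmonoid.mem_top _⟩⟩) 1,
      Su.one⟩
  | add s t =>
    rw [hx] at hat
    have h1 := hat (fun w e => Tm.noConfusion e) (fun b c e => Tm.noConfusion e)
    exact ⟨Su.zero, (su_V (κ := κ) (mu := mu) hcl h1).2.1⟩
  | mul s t =>
    rw [hx] at hat
    have h1 := hat (fun w e => Tm.noConfusion e) (fun b c e => Tm.noConfusion e)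
    exact ⟨Su.zero, (su_V (κ := κ) (mu := mu) hcl h1).2.1⟩
  | pow s t =>
    obtain ⟨h1, h2⟩ := h22 s t hx
    have h3 := h1.trans (Md_mono ha)
    have h4 := h2.trans (Md_mono ha)
    have h5 : Su (Sg W (exA ex i)) (qd W s) := (su_V (κ := κ) (mu := mu) hcl h3).2.1
    exact ⟨su_pN hcl h3 h4, h5⟩

end Pool.Agent.TV
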