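import Pool.Agent.H.MP_b2d7dd_lc.TV.Nu
import Pool.Agent.H.MP_b2d7dd_lc.TD.Nb

/-!
# Module Nb: bounds for the numerators

Compare TD/Nb (`Dg` is defined there).
-/

namespace Pool.Agent.TV

open Pool.Agent.TI (Tm)
open Pool.Agent.TC (Pt rf rf_pos evl Mo Su nrm Pr Gx Lx h1 h2 al ga lcP)
open Pool.Agent.TD

variable {W : Finset (List Bool)} {κ : ℕ} {mu : ℕ → ℕ → ℕ} {A : Set Tm}

/-- The numbers `e1` of the sums are products of powers of the coprime base with at most `lg`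
factors. -/
def MuV (κ : ℕ) (mu : ℕ → ℕ → ℕ) (t : Tm) : Prop :=
  ∀ a ∈ ad t, ∑ k ∈ Finset.range κ, mu k (e1 a) ≤ lg a

private theorem Nb_single {m : ℕ} {g : Gx W} (c : ℤ) (l1 l2 : List (Pt W → ℝ))
    (h1 : l1.length ≤ m) (h2 : l2.length ≤ m) (h3 : ∀ v ∈ l1, v ∈ lr W '' A)
    (h4 : ∀ v ∈ l2, v ∈ lr W '' A) (h5 : g.1 = l1.sum) (h6 : g.2.1 = l2.sum)
    (h7 : ∀ x, g.2.2 x ≤ m) : Dg W A m (AddMonoidAlgebra.single g c) := by
  intro h hh
  rw [AddMonoidAlgebra.coeff_single] at hh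
  have e := Finset.mem_singleton.1 (Finsupp.support_single_subset hh)
  rw [e]
  exact ⟨l1, l2, h1, h2, h3, h4, h5, h6, h7⟩

private theorem Nb_one {m : ℕ} : Dg W A m (1 : Lx W) := by
  rw [AddMonoidAlgebra.one_def]
  exact Nb_single 1 [] [] (Nat.zero_le m) (Nat.zero_le m) (by simp) (by simp) rfl rfl
    (fun x => Nat.zero_le m)

private theorem Nb_zero {m : ℕ} : Dg W A m (0 : Lx W) := by
  intro g hg
  rw [AddMonoidAlgebra.coeff_zero, Finsupp.support_zero] at hg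
  exact absurd hg (Finset.notMem_empty g)

private theorem Nb_zsmul {m : ℕ} {P : Lx W} (hP : Dg W A m P) (n : ℤ) : Dg W A m (n • P) := by
  intro g hg
  refine hP g ?_
  rw [Finsupp.mem_support_iff] at hg ⊢
  intro h0
  apply hg
  rw [AddMonoidAlgebra.coeff_smul_apply, smul_eq_mul, h0, mul_zero]

private theorem Nb_nat {m : ℕ} (n : ℕ) : Dg W A m ((n : ℕ) : Lx W) := by
  have e : ((n : ℕ) : Lx W) = (n : ℤ) • (1 : Lx W) := by
    rw [zsmul_one, Int.cast_natCast]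
  rw [e]
  exact Nb_zsmul Nb_one _

private theorem Nb_sub {m : ℕ} {P Q : Lx W} (hP : Dg W A m P) (hQ : Dg W A m Q) :
    Dg W A m (P - Q) := by
  have e : P - Q = P + (-1 : ℤ) • Q := by
    rw [neg_one_zsmul, sub_eq_add_neg]
  rw [e]
  exact hP.add (Nb_zsmul hQ _)

private theorem Nb_pow {m : ℕ} {P : Lx W} (hP : Dg W A m P) (k : ℕ) :
    Dg W A (k * m) (P ^ k) := by
  induction k with
  | zero =>
    rw [pow_zero]
    exact Nb_one
  | succ k ih =>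
    rw [pow_succ]
    exact (ih.mul hP).mono (le_of_eq (by ring))

private theorem Nb_h1 {a : Tm} (ha : a ∈ A) : Dg W A 1 (h1 W (lr W a)) := by
  refine Nb_single 1 [lr W a] [] le_rfl (Nat.zero_le 1) ?_ (by simp) ?_ rfl
    (fun x => Nat.zero_le 1)
  · intro v hv
    rw [List.mem_singleton] at hv
    rw [hv]
    exact Set.mem_image_of_mem _ ha
  · rw [List.sum_singleton]

private theorem Nb_h2 {a : Tm} (ha : a ∈ A) : Dg W A 1 (h2 W (lr W a)) := by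
  refine Nb_single 1 [] [lr W a] (Nat.zero_le 1) le_rfl (by simp) ?_ rfl ?_
    (fun x => Nat.zero_le 1)
  · intro v hv
    rw [List.mem_singleton] at hv
    rw [hv]
    exact Set.mem_image_of_mem _ ha
  · rw [List.sum_singleton]

private theorem Nb_fs (y x : List Bool ⊕ ℕ) :
    (Finsupp.single y 1 : (List Bool ⊕ ℕ) →₀ ℕ) x ≤ 1 := by
  classical
  rw [Finsupp.single_apply]
  split_ifs
  · exact le_rfl
  · exact Nat.zero_le 1

private theorem Nb_al (w : List Bool) : Dg W A 1 (al W w) :=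
  Nb_single 1 [] [] (Nat.zero_le 1) (Nat.zero_le 1) (by simp) (by simp) rfl rfl
    (fun x => Nb_fs _ x)

private theorem Nb_ga (k : ℕ) : Dg W A 1 (ga W k) :=
  Nb_single 1 [] [] (Nat.zero_le 1) (Nat.zero_le 1) (by simp) (by simp) rfl rfl
    (fun x => Nb_fs _ x)

private theorem Nb_lcP (n : ℕ) : Dg W A 1 (lcP W κ mu n) :=
  Dg.sum _ _ _ fun k _ => Nb_zsmul (Nb_ga k) _

private theorem Nb_two {x y z : ℕ} (hx : x + 1 ≤ z) (hy : y + 1 ≤ z) :
    2 ^ x + 2 ^ y ≤ 2 ^ z := by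
  have h1 : 2 ^ x ≤ 2 ^ (z - 1) := Nat.pow_le_pow_right (by norm_num) (by omega)
  have h2 : 2 ^ y ≤ 2 ^ (z - 1) := Nat.pow_le_pow_right (by norm_num) (by omega)
  have h3 : 2 ^ z = 2 ^ (z - 1) + 2 ^ (z - 1) := by
    have : z = (z - 1) + 1 := by omega
    conv_lhs => rw [this]
    rw [pow_succ]
    ring
  omega

private theorem Nb_le {x y : ℕ} (h : x ≤ y) : 2 ^ x ≤ 2 ^ y :=
  Nat.pow_le_pow_right (by norm_num) h

private theorem Nb_pw {a b : Tm} (ht : ats (Tm.pow a b) ⊆ A) :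
    ats a ⊆ A ∧ (Tr a b → Tm.pow a b ∈ A) :=
  ⟨fun _ hx => ht (Or.inr hx), fun h => ht (Or.inl ⟨rfl, h⟩)⟩

private theorem Nb_if1 {a b : Tm} (h : Tr a b → Tm.pow a b ∈ A) :
    Dg W A 1 (if Tr a b then h1 W (lr W (.pow a b)) else 1) := by
  by_cases hT : Tr a b
  · rw [if_pos hT]
    exact Nb_h1 (h hT)
  · rw [if_neg hT]
    exact Nb_one

private theorem Nb_if2 {a b : Tm} (h : Tr a b → Tm.pow a b ∈ A) :
    Dg W A 1 (if Tr a b then h2 W (lr W (.pow a b)) else 1) := by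
  by_cases hT : Tr a b
  · rw [if_pos hT]
    exact Nb_h2 (h hT)
  · rw [if_neg hT]
    exact Nb_one

private theorem Nb_mul {P Q : Lx W} {x y : ℕ} (hP : nrm P ≤ 2 ^ x) (hQ : nrm Q ≤ 2 ^ y) :
    nrm (P * Q) ≤ 2 ^ (x + y) := by
  rw [pow_add]
  exact TC.nrm_mul.trans (Nat.mul_le_mul hP hQ)

private theorem Nb_add {P Q : Lx W} {x y z : ℕ} (hP : nrm P ≤ 2 ^ x) (hQ : nrm Q ≤ 2 ^ y)
    (hx : x + 1 ≤ z) (hy : y + 1 ≤ z) : nrm (P + Q) ≤ 2 ^ z :=
  TC.nrm_add.trans ((Nat.add_le_add hP hQ).trans (Nb_two hx hy))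

private theorem Nb_n1 (g : Gx W) (x : ℕ) : nrm (AddMonoidAlgebra.single g 1 : Lx W) ≤ 2 ^ x := by
  rw [TC.nrm_single, Int.natAbs_one]
  exact Nat.one_le_two_pow

private theorem Nb_no (x : ℕ) : nrm (1 : Lx W) ≤ 2 ^ x := by
  rw [TC.nrm_one]
  exact Nat.one_le_two_pow

private theorem Nb_nz (x : ℕ) : nrm (0 : Lx W) ≤ 2 ^ x := by
  rw [TC.nrm_zero]
  exact Nat.zero_le _

private theorem Nb_npow {P : Lx W} {x : ℕ} (hP : nrm P ≤ 2 ^ x) (k : ℕ) :
    nrm (P ^ k) ≤ 2 ^ (k * x) := by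
  induction k with
  | zero =>
    rw [pow_zero]
    exact Nb_no _
  | succ k ih =>
    rw [pow_succ]
    exact (Nb_mul ih hP).trans (Nb_le (le_of_eq (by ring)))

private theorem Nb_nnat (n : ℕ) : nrm ((n : ℕ) : Lx W) = n := by
  have e : ((n : ℕ) : Lx W) = (n : ℤ) • (1 : Lx W) := by
    rw [zsmul_one, Int.cast_natCast]
  rw [e, TC.nrm_zsmul, TC.nrm_one, Int.natAbs_natCast, mul_one]

private theorem Nb_nsub {P Q : Lx W} {x y z : ℕ} (hP : nrm P ≤ 2 ^ x) (hQ : nrm Q ≤ 2 ^ y)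
    (hx : x + 1 ≤ z) (hy : y + 1 ≤ z) : nrm (P - Q) ≤ 2 ^ z := by
  have e : P - Q = P + (-1 : ℤ) • Q := by
    rw [neg_one_zsmul, sub_eq_add_neg]
  rw [e]
  refine Nb_add hP ?_ hx hy
  rw [TC.nrm_zsmul]
  change 1 * nrm Q ≤ _
  rw [one_mul]
  exact hQ

private theorem Nb_q1 (x y : ℕ) : x ^ 2 + y ^ 2 + (x + y + 1) ≤ (x + y + 1) ^ 2 := by
  nlinarith [Nat.zero_le (x * y)]

private theorem Nb_q2 (x y : ℕ) : 3 * x ^ 2 + 3 * y ^ 2 + 3 * (x + y + 1) ≤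
    3 * (x + y + 1) ^ 2 := by
  nlinarith [Nat.zero_le (x * y)]

private theorem Nb_q3 (x y c : ℕ) : c + 3 * (x + y + 1) ^ 2 ≤ 3 * (x + y + 1 + c) ^ 2 := by
  nlinarith [Nat.zero_le (x * c), Nat.zero_le (y * c), Nat.zero_le (c ^ 2)]

private theorem Nb_q4 {x : ℕ} (h : 1 ≤ x) : x + x ^ 2 ≤ 3 * x ^ 2 := by
  nlinarith

private theorem Nb_cs (b : Tm) : cs b ≤ 2 ^ wg b 2 := cs_le2 b

/-- `cs b * 2 ^ x ≤ 2 ^ (x + wg b 2)` -/
private theorem Nb_csm (b : Tm) (x : ℕ) : cs b * 2 ^ x ≤ 2 ^ (x + wg b 2) := by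
  rw [pow_add, mul_comm]
  exact Nat.mul_le_mul_left _ (Nb_cs b)

private theorem Nb_wp1 (a b : Tm) : wg (.pow a b) 1 = wg a 1 + wg b 2 + 1 := rfl

private theorem Nb_wp2 (a b : Tm) : wg (.pow a b) 2 = wg a 1 + wg b 2 + 1 + cs b * lg a := rfl

private theorem Nb_wm (a b : Tm) (m : ℕ) : wg (.mul a b) m = wg a m + wg b m + 1 := rfl

private theorem Nb_nlc {a : Tm} (h : ∑ k ∈ Finset.range κ, mu k (e1 a) ≤ lg a) :
    nrm (lcP W κ mu (e1 a)) ≤ lg a := by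
  refine (TC.nrm_sum _ _).trans (le_trans ?_ h)
  refine Finset.sum_le_sum fun k _ => ?_
  rw [TC.nrm_zsmul, Int.natAbs_natCast, ga, TC.nrm_single, Int.natAbs_one, mul_one]

theorem dg_hP {t : Tm} (ht : ats t ⊆ A) :
    Dg W A (2 ^ wg t 1) (hP W t) ∧ Dg W A (2 ^ wg t 1) (rP W t) := by
  induction t with
  | one => exact ⟨Nb_one, Nb_one⟩
  | var w =>
    have hw : Tm.var w ∈ A := ht rfl
    exact ⟨(Nb_h1 hw).mono Nat.one_le_two_pow, (Nb_h2 hw).mono Nat.one_le_two_pow⟩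
  | add s t ihs iht =>
    obtain ⟨a1, a2⟩ := ihs (Set.subset_union_left.trans ht)
    obtain ⟨b1, b2⟩ := iht (Set.subset_union_right.trans ht)
    have hs := wg12 s
    have ht' := wg12 t
    rw [(wg_add s t).1]
    exact ⟨(a1.mono (Nb_le (by omega))).add (b1.mono (Nb_le (by omega))),
      (a2.mono (Nb_le (by omega))).add (b2.mono (Nb_le (by omega)))⟩
  | mul s t ihs iht =>
    obtain ⟨a1, a2⟩ := ihs (Set.subset_union_left.trans ht)
    obtain ⟨b1, b2⟩ := iht (Set.subset_union_right.trans ht)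
    rw [Nb_wm]
    exact ⟨(a1.mul b1).mono (Nb_two (by omega) (by omega)),
      (a2.mul b2).mono (Nb_two (by omega) (by omega))⟩
  | pow a b iha _ =>
    obtain ⟨hsa, hab⟩ := Nb_pw ht
    obtain ⟨a1, a2⟩ := iha hsa
    have k1 : 1 + cs b * 2 ^ wg a 1 ≤ 2 ^ (wg a 1 + wg b 2 + 1) :=
      (Nat.add_le_add_left (Nb_csm b (wg a 1)) 1).trans
        (Nb_two (x := 0) (by omega) (by omega))
    rw [Nb_wp1]
    exact ⟨((Nb_if1 hab).mul (Nb_pow a1 (cs b))).mono k1,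
      ((Nb_if2 hab).mul (Nb_pow a2 (cs b))).mono k1⟩

theorem dg_dm (hA : ClA A) {t : Tm} (ht : ats t ⊆ A) :
    Dg W A (2 ^ (2 * wg t 2)) (dm W t) ∧ Dg W A (2 ^ (2 * wg t 1)) (qd W t) := by
  induction t with
  | one => exact ⟨Nb_one, Nb_one⟩
  | var w => exact ⟨Nb_one, Nb_one⟩
  | add s t ihs iht =>
    obtain ⟨a1, a2⟩ := ihs (Set.subset_union_left.trans ht)
    obtain ⟨b1, b2⟩ := iht (Set.subset_union_right.trans ht)
    have c1 := (dg_hP (W := W) ht).1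
    have hs := wg_pos s 2
    have ht' := wg_pos t 2
    rw [(wg_add s t).1] at c1
    rw [(wg_add s t).1, (wg_add s t).2]
    refine ⟨(a1.mul b1).mono (Nb_two (by omega) (by omega)), ?_⟩
    exact ((a1.mul b1).mul c1).mono ((Nat.add_le_add_right (Nb_two
      (z := 2 * (wg s 2 + wg t 2)) (by omega) (by omega)) _).trans
        (Nb_two (by omega) (by omega)))
  | mul s t ihs iht =>
    obtain ⟨a1, a2⟩ := ihs (Set.subset_union_left.trans ht)
    obtain ⟨b1, b2⟩ := iht (Set.subset_union_right.trans ht)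
    rw [Nb_wm, Nb_wm]
    exact ⟨(a1.mul b1).mono (Nb_two (by omega) (by omega)),
      (a2.mul b2).mono (Nb_two (by omega) (by omega))⟩
  | pow a b iha _ =>
    obtain ⟨a1, a2⟩ := iha (Nb_pw ht).1
    rw [Nb_wp1, Nb_wp2]
    exact ⟨a2.mono (Nb_le (by omega)), a2.mono (Nb_le (by omega))⟩

theorem dg_lcQ (t : Tm) : Dg W A 1 (lcQ W κ mu t) := by
  induction t with
  | one => exact Nb_zero
  | var w => exact Nb_zero
  | add s t _ _ => exact Nb_lcP _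
  | mul s t ihs iht => exact ihs.add iht
  | pow a b iha _ => exact ((Nb_nat (m := 0) (cs b)).mul iha).mono (by omega)

private theorem Nb_dgp {a b : Tm} (ha : Dg W A (2 ^ (3 * wg a 1)) (qn W κ mu a))
    (hd : Dg W A (2 ^ (2 * wg a 1)) (qd W a)) (hb : Tr a b → ats b ⊆ A) :
    Dg W A (2 ^ wg b 2 + 2 ^ (3 * wg a 1))
      (if Tr a b then (rP W b - cs b) * (qn W κ mu a + lcQ W κ mu a * qd W a) else 0) := by
  have h0 := wg_pos a 1
  by_cases hT : Tr a b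
  · rw [if_pos hT]
    refine (Nb_sub ((dg_hP (hb hT)).2.mono (Nb_le (wg12 b))) (Nb_nat _)).mul
      (ha.add (((dg_lcQ a).mul hd).mono ?_))
    exact Nb_two (x := 0) (by omega) (by omega)
  · rw [if_neg hT]
    exact Nb_zero

private theorem Nb_dgq {a b : Tm} (ha : Dg W A (2 ^ (3 * wg a 1)) (qn W κ mu a))
    (hd : Dg W A (2 ^ (2 * wg a 1)) (qd W a)) (hb : Tr a b → ats b ⊆ A) :
    Dg W A (2 ^ wg b 2 + 2 ^ (3 * wg a 1)) (qn W κ mu (.pow a b)) := by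
  refine (Nb_dgp ha hd hb).add (((Nb_nat (m := 0) (cs b)).mul ha).mono ?_)
  rw [zero_add]
  exact Nat.le_add_left _ _

theorem dg_dN (hA : ClA A) {t : Tm} (ht : ats t ⊆ A) :
    Dg W A (2 ^ (3 * wg t 2)) (dN W κ mu t) ∧ Dg W A (2 ^ (3 * wg t 1)) (qn W κ mu t) := by
  induction t with
  | one => exact ⟨Nb_zero, Nb_zero⟩
  | var w =>
    have hw : Tm.var w ∈ A := ht rfl
    refine ⟨((Nb_h1 hw).mul (Nb_al w)).mono ?_, (Nb_al w).mono Nat.one_le_two_pow⟩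
    have := wg_pos (.var w) 2
    exact Nb_two (x := 0) (y := 0) (by omega) (by omega)
  | add s t ihs iht =>
    obtain ⟨a1, _⟩ := ihs (Set.subset_union_left.trans ht)
    obtain ⟨b1, _⟩ := iht (Set.subset_union_right.trans ht)
    obtain ⟨a2, _⟩ := dg_dm (W := W) hA (Set.subset_union_left.trans ht)
    obtain ⟨b2, _⟩ := dg_dm (W := W) hA (Set.subset_union_right.trans ht)
    rw [(wg_add s t).1, (wg_add s t).2]
    have k : Dg W A (2 ^ (3 * (wg s 2 + wg t 2 + 1)))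
        (dN W κ mu s * dm W t + dm W s * dN W κ mu t) :=
      ((a1.mul b2).mono (Nb_two (by omega) (by omega))).add
        ((a2.mul b1).mono (Nb_two (by omega) (by omega)))
    exact ⟨k, k⟩
  | mul s t ihs iht =>
    obtain ⟨a1, a2⟩ := ihs (Set.subset_union_left.trans ht)
    obtain ⟨b1, b2⟩ := iht (Set.subset_union_right.trans ht)
    obtain ⟨a3, a4⟩ := dg_dm (W := W) hA (Set.subset_union_left.trans ht)
    obtain ⟨b3, b4⟩ := dg_dm (W := W) hA (Set.subset_union_right.trans ht)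
    have a5 := ((dg_hP (W := W) (Set.subset_union_left.trans ht)).1).mono (Nb_le (wg12 s))
    have b5 := ((dg_hP (W := W) (Set.subset_union_right.trans ht)).1).mono (Nb_le (wg12 t))
    rw [Nb_wm, Nb_wm]
    refine ⟨?_, ?_⟩
    · exact (((a1.mul b5).mul b3).mono ((Nat.add_le_add_right (Nb_two
          (z := 3 * (wg s 2 + wg t 2) + 1) (by omega) (by omega)) _).trans
            (Nb_two (by omega) (by omega)))).add
        (((a5.mul a3).mul b1).mono ((Nat.add_le_add_right (Nb_two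
          (z := 3 * (wg s 2 + wg t 2) + 1) (by omega) (by omega)) _).trans
            (Nb_two (by omega) (by omega))))
    · exact ((a2.mul b4).mono (Nb_two (by omega) (by omega))).add
        ((a4.mul b2).mono (Nb_two (by omega) (by omega)))
  | pow a b iha _ =>
    obtain ⟨hsa, hab⟩ := Nb_pw ht
    obtain ⟨a1, a2⟩ := iha hsa
    have k := Nb_dgq (b := b) a2 (dg_dm (W := W) hA hsa).2 (fun hT => (hA a b (hab hT)).2)
    have k1 : 1 + cs b * 2 ^ wg a 1 ≤ 2 ^ (wg a 1 + wg b 2 + 1) :=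
      (Nat.add_le_add_left (Nb_csm b (wg a 1)) 1).trans
        (Nb_two (x := 0) (by omega) (by omega))
    have k2 : 2 ^ wg b 2 + 2 ^ (3 * wg a 1) ≤ 2 ^ (3 * wg a 1 + wg b 2 + 1) :=
      Nb_two (by omega) (by omega)
    have c1 := (dg_hP (W := W) ht).1
    rw [Nb_wp1] at c1
    rw [Nb_wp1, Nb_wp2]
    refine ⟨?_, k.mono (Nb_two (by omega) (by omega))⟩
    exact (c1.mul k).mono ((Nat.add_le_add_left k2 _).trans (Nb_two (by omega) (by omega)))

theorem dg_pN (hA : ClA A) {a b : Tm} (ha : ats a ⊆ A) (hb : ats b ⊆ A) :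
    Dg W A (2 ^ (3 * wg (.pow a b) 1)) (pN W κ mu (.pow a b)) := by
  rw [Nb_wp1]
  exact (Nb_dgp (dg_dN (W := W) (κ := κ) (mu := mu) hA ha).2 (dg_dm (W := W) hA ha).2
    (fun _ => hb)).mono (Nb_two (by omega) (by omega))

theorem nrm_dm (t : Tm) : nrm (dm W t) ≤ 2 ^ wg t 2 ^ 2 ∧ nrm (qd W t) ≤ 2 ^ wg t 1 ^ 2 := by
  induction t with
  | one => exact ⟨Nb_no _, Nb_no _⟩
  | var w => exact ⟨Nb_no _, Nb_no _⟩
  | add s t ihs iht =>
    obtain ⟨a1, a2⟩ := ihs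
    obtain ⟨b1, b2⟩ := iht
    have c1 := (nrm_P (W := W) (.add s t)).1
    have c2 := lg_le2 (.add s t)
    rw [(wg_add s t).2] at c2
    rw [(wg_add s t).1, (wg_add s t).2]
    have q := Nb_q1 (wg s 2) (wg t 2)
    refine ⟨(Nb_mul a1 b1).trans (Nb_le (by omega)), ?_⟩
    exact (Nb_mul (Nb_mul a1 b1) c1).trans (Nb_le (by omega))
  | mul s t ihs iht =>
    obtain ⟨a1, a2⟩ := ihs
    obtain ⟨b1, b2⟩ := iht
    have q := Nb_q1 (wg s 2) (wg t 2)
    have q' := Nb_q1 (wg s 1) (wg t 1)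
    rw [Nb_wm, Nb_wm]
    exact ⟨(Nb_mul a1 b1).trans (Nb_le (by omega)),
      (Nb_mul a2 b2).trans (Nb_le (by omega))⟩
  | pow a b iha _ =>
    obtain ⟨a1, a2⟩ := iha
    rw [Nb_wp1, Nb_wp2]
    exact ⟨a2.trans (Nb_le (Nat.pow_le_pow_left (by omega) 2)),
      a2.trans (Nb_le (Nat.pow_le_pow_left (by omega) 2))⟩

theorem nrm_lcQ {t : Tm} (h : MuV κ mu t) : nrm (lcQ W κ mu t) ≤ 2 ^ wg t 1 := by
  induction t with
  | one => exact Nb_nz _
  | var w => exact Nb_nz _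
  | add s t _ _ =>
    have h5 := Nb_nlc (W := W) (h (.add s t) (Or.inl rfl))
    have c2 := lg_le2 (.add s t)
    rw [(wg_add s t).2, ← (wg_add s t).1] at c2
    exact (h5.trans c2).trans Nat.lt_two_pow_self.le
  | mul s t ihs iht =>
    have a4 := ihs fun a ha => h a (Or.inl ha)
    have b4 := iht fun a ha => h a (Or.inr ha)
    rw [Nb_wm]
    exact Nb_add a4 b4 (by omega) (by omega)
  | pow a b iha _ =>
    have h' : MuV κ mu a := h
    have a4 := iha h'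
    rw [Nb_wp1]
    refine (Nb_mul (x := wg b 2) ?_ a4).trans (Nb_le (by omega))
    rw [Nb_nnat]
    exact cs_le2 b

private theorem Nb_nph {a b : Tm} (h : MuV κ mu a)
    (hd : nrm (qn W κ mu a) ≤ 2 ^ (3 * wg a 1 ^ 2)) :
    nrm (if Tr a b then (rP W b - cs b) * (qn W κ mu a + lcQ W κ mu a * qd W a)
      else 0 : Lx W) ≤ 2 ^ ((wg b 2 + 1) + (3 * wg a 1 ^ 2 + 1)) := by
  have h0 := wg_pos a 1
  have h1 := nrm_lcQ (W := W) h
  have h2 := (nrm_dm (W := W) a).2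
  have h3 := (nrm_P (W := W) b).2.1.trans (Nb_le (lg_le2 b))
  split_ifs
  · refine Nb_mul (Nb_nsub h3 (y := wg b 2) ?_ le_rfl le_rfl)
      (Nb_add hd (Nb_mul h1 h2) le_rfl (Nat.succ_le_succ (Nb_q4 h0)))
    rw [Nb_nnat]
    exact cs_le2 b
  · exact Nb_nz _

private theorem Nb_nq {a b : Tm} (h : MuV κ mu a)
    (hd : nrm (qn W κ mu a) ≤ 2 ^ (3 * wg a 1 ^ 2)) :
    nrm (qn W κ mu (.pow a b)) ≤ 2 ^ (3 * (wg a 1 + wg b 2 + 1) ^ 2) := by
  have k1 : nrm ((cs b : Lx W) * qn W κ mu a) ≤ 2 ^ (wg b 2 + 3 * wg a 1 ^ 2) := by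
    refine Nb_mul ?_ hd
    rw [Nb_nnat]
    exact cs_le2 b
  have q := Nb_q2 (wg a 1) (wg b 2)
  have h0 := wg_pos a 1
  exact Nb_add (Nb_nph (b := b) h hd) k1 (by omega) (by omega)

theorem nrm_dN {t : Tm} (h : MuV κ mu t) : nrm (dN W κ mu t) ≤ 2 ^ (3 * wg t 2 ^ 2) ∧
    nrm (qn W κ mu t) ≤ 2 ^ (3 * wg t 1 ^ 2) := by
  induction t with
  | one => exact ⟨Nb_nz _, Nb_nz _⟩
  | var w =>
    refine ⟨(Nb_mul (x := 0) (y := 0) (Nb_n1 _ _) (Nb_n1 _ _)).trans (Nb_le ?_), Nb_n1 _ _⟩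
    exact Nat.zero_le _
  | add s t ihs iht =>
    obtain ⟨a1, _⟩ := ihs fun a ha => h a (Or.inr (Or.inl ha))
    obtain ⟨b1, _⟩ := iht fun a ha => h a (Or.inr (Or.inr ha))
    have a2 := (nrm_dm (W := W) s).1
    have b2 := (nrm_dm (W := W) t).1
    rw [(wg_add s t).1, (wg_add s t).2]
    have q := Nb_q2 (wg s 2) (wg t 2)
    have k : nrm (dN W κ mu s * dm W t + dm W s * dN W κ mu t) ≤
        2 ^ (3 * (wg s 2 + wg t 2 + 1) ^ 2) :=
      Nb_add (Nb_mul a1 b2) (Nb_mul a2 b1) (by omega) (by omega)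
    exact ⟨k, k⟩
  | mul s t ihs iht =>
    obtain ⟨a1, a2⟩ := ihs fun a ha => h a (Or.inl ha)
    obtain ⟨b1, b2⟩ := iht fun a ha => h a (Or.inr ha)
    obtain ⟨a3, a4⟩ := nrm_dm (W := W) s
    obtain ⟨b3, b4⟩ := nrm_dm (W := W) t
    have a5 := (nrm_P (W := W) s).1.trans (Nb_le (lg_le2 s))
    have b5 := (nrm_P (W := W) t).1.trans (Nb_le (lg_le2 t))
    have q := Nb_q2 (wg s 2) (wg t 2)
    have q' := Nb_q2 (wg s 1) (wg t 1)
    rw [Nb_wm, Nb_wm]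
    exact ⟨Nb_add (Nb_mul (Nb_mul a1 b5) b3) (Nb_mul (Nb_mul a5 a3) b1) (by omega)
        (by omega),
      Nb_add (Nb_mul a2 b4) (Nb_mul a4 b2) (by omega) (by omega)⟩
  | pow a b iha _ =>
    have h' : MuV κ mu a := h
    obtain ⟨a1, a2⟩ := iha h'
    have k := Nb_nq (W := W) (b := b) h' a2
    have c1 := (nrm_P (W := W) (.pow a b)).1
    rw [Nb_wp1, Nb_wp2]
    refine ⟨(Nb_mul c1 k).trans (Nb_le ?_), k⟩
    have e' : lg (Tm.pow a b) = cs b * lg a := rfl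
    rw [e']
    exact Nb_q3 _ _ _

theorem nrm_pN {t : Tm} (h : MuV κ mu t) : nrm (pN W κ mu t) ≤ 2 ^ (3 * wg t 1 ^ 2) := by
  cases t with
  | one => exact Nb_nz _
  | var w => exact Nb_n1 _ _
  | add s t => exact Nb_nz _
  | mul s t => exact Nb_nz _
  | pow a b =>
    have h' : MuV κ mu a := h
    have q := Nb_q2 (wg a 1) (wg b 2)
    rw [Nb_wp1]
    exact (Nb_nph (W := W) (b := b) h' (nrm_dN (W := W) h').2).trans (Nb_le (by omega))

end Pool.Agent.TV
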