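import Pool.Agent.H.MP_b2d7dd_lc.TV.Dd
import Pool.Agent.H.MP_b2d7dd_lc.TV.Wg
import Pool.Agent.H.MP_b2d7dd_lc.TD.Nu

/-!
# Module Nu: numerators of the first order data

Compare TD/Nu (`hP`, `rP`, `Fit`, `Sg`, `ClA` are defined there). `dm`, `qd` = the denominators of the
derivation and of the logarithmic derivative, `dN`, `qn` = their numerators, `lcQ` = the logarithm of the
constant, `pN` = the numerator of `pw` (with the denominator `qd`).
-/

namespace Pool.Agent.TV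

open Pool.Agent.TI (Tm)
open Pool.Agent.TC (Pt rf rf_pos evl Mo Su nrm Pr Gx Lx h1 h2 al ga lcP evl_add evl_zsmul evl_zero
  evl_sum evl_single evl_one evl_mul)
open Pool.Agent.TD

variable (W : Finset (List Bool)) (κ : ℕ) (mu : ℕ → ℕ → ℕ)

/-- The denominators. -/
noncomputable def dq : Tm → Lx W × Lx W
  | .one => (1, 1)
  | .var _ => (1, 1)
  | .add s t => ((dq s).1 * (dq t).1, (dq s).1 * (dq t).1 * hP W (.add s t))
  | .mul s t => ((dq s).1 * (dq t).1, (dq s).2 * (dq t).2)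
  | .pow a _ => ((dq a).2, (dq a).2)

/-- The denominator of the derivation. -/
noncomputable def dm (t : Tm) : Lx W := (dq W t).1

/-- The denominator of the logarithmic derivative. -/
noncomputable def qd (t : Tm) : Lx W := (dq W t).2

/-- The logarithm of the constant. -/
noncomputable def lcQ : Tm → Lx W
  | .one => 0
  | .var _ => 0
  | .add s t => lcP W κ mu (e1 (.add s t))
  | .mul s t => lcQ s + lcQ t
  | .pow s t => cs t * lcQ s

/-- The numerators. -/
noncomputable def nq : Tm → Lx W × Lx W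
  | .one => (0, 0)
  | .var w => (h1 W (lr W (.var w)) * al W w, al W w)
  | .add s t => ((nq s).1 * dm W t + dm W s * (nq t).1, (nq s).1 * dm W t + dm W s * (nq t).1)
  | .mul s t => ((nq s).1 * hP W t * dm W t + hP W s * dm W s * (nq t).1,
      (nq s).2 * qd W t + qd W s * (nq t).2)
  | .pow a b => (hP W (.pow a b) * ((if Tr a b then (rP W b - cs b) *
      ((nq a).2 + lcQ W κ mu a * qd W a) else 0) + cs b * (nq a).2),
      (if Tr a b then (rP W b - cs b) * ((nq a).2 + lcQ W κ mu a * qd W a) else 0) +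
        cs b * (nq a).2)

/-- The numerator of the derivation. -/
noncomputable def dN (t : Tm) : Lx W := (nq W κ mu t).1

/-- The numerator of the logarithmic derivative. -/
noncomputable def qn (t : Tm) : Lx W := (nq W κ mu t).2

/-- The numerator of the logarithmic derivative of a variable or of a virtual power. -/
noncomputable def pN : Tm → Lx W
  | .var w => al W w
  | .pow a b => if Tr a b then (rP W b - cs b) * (qn W κ mu a + lcQ W κ mu a * qd W a) else 0
  | _ => 0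

variable {W κ mu} {K : Type} [CommRing K] {A : Set Tm} {f : Gx W → K} {P : Pr K}

private theorem Nu_h1 {v : Pt W → ℝ} (hv : v ∈ VA W A) : Su (Sg W A) (h1 W v) :=
  Su.single (AddSubmonoid.mem_prod.2
    ⟨hv, AddSubmonoid.mem_prod.2 ⟨(VA W A).zero_mem, AddSubmonoid.mem_top _⟩⟩) 1

private theorem Nu_h2 {v : Pt W → ℝ} (hv : v ∈ VA W A) : Su (Sg W A) (h2 W v) :=
  Su.single (AddSubmonoid.mem_prod.2
    ⟨(VA W A).zero_mem, AddSubmonoid.mem_prod.2 ⟨hv, AddSubmonoid.mem_top _⟩⟩) 1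

private theorem Nu_al (w : List Bool) : Su (Sg W A) (al W w) :=
  Su.single (AddSubmonoid.mem_prod.2
    ⟨(VA W A).zero_mem, AddSubmonoid.mem_prod.2
      ⟨(VA W A).zero_mem, AddSubmonoid.mem_top _⟩⟩) 1

private theorem Nu_ga (k : ℕ) : Su (Sg W A) (ga W k) :=
  Su.single (AddSubmonoid.mem_prod.2
    ⟨(VA W A).zero_mem, AddSubmonoid.mem_prod.2
      ⟨(VA W A).zero_mem, AddSubmonoid.mem_top _⟩⟩) 1

private theorem Nu_lc (n : ℕ) : Su (Sg W A) (lcP W κ mu n) :=
  Su.sum _ _ fun k _ => Su.zsmul (Nu_ga k) _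

section aux

variable {G : Type} [AddCommMonoid G] {S : AddSubmonoid G} {f₀ : G → K}
  {p q : AddMonoidAlgebra ℤ G}

private theorem Nu_supow (hp : Su S p) (n : ℕ) : Su S (p ^ n) := by
  induction n with
  | zero => rw [pow_zero]; exact Su.one
  | succ n ih => rw [pow_succ]; exact Su.mul ih hp

private theorem Nu_cast (n : ℕ) : ((n : ℕ) : AddMonoidAlgebra ℤ G) = (n : ℤ) • 1 := by
  rw [zsmul_one, Int.cast_natCast]

private theorem Nu_sucast (n : ℕ) : Su S ((n : ℕ) : AddMonoidAlgebra ℤ G) := by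
  rw [Nu_cast]
  exact Su.zsmul Su.one _

private theorem Nu_subeq (p q : AddMonoidAlgebra ℤ G) : p - q = p + (-1 : ℤ) • q := by
  rw [neg_one_zsmul, sub_eq_add_neg]

private theorem Nu_susub (hp : Su S p) (hq : Su S q) : Su S (p - q) := by
  rw [Nu_subeq]
  exact Su.add hp (Su.zsmul hq _)

private theorem Nu_evpow (hf : Mo S f₀) (hp : Su S p) (n : ℕ) :
    evl f₀ (p ^ n) = evl f₀ p ^ n := by
  induction n with
  | zero => rw [pow_zero, pow_zero]; exact evl_one hf
  | succ n ih => rw [pow_succ, pow_succ, evl_mul hf (Nu_supow hp n) hp, ih]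

private theorem Nu_evcast (hf : Mo S f₀) (n : ℕ) :
    evl f₀ ((n : ℕ) : AddMonoidAlgebra ℤ G) = (n : K) := by
  rw [Nu_cast, evl_zsmul, evl_one hf, mul_one, Int.cast_natCast]

private theorem Nu_evsub : evl f₀ (p - q) = evl f₀ p - evl f₀ q := by
  rw [Nu_subeq, evl_add, evl_zsmul, Int.cast_neg, Int.cast_one]
  ring

end aux

private theorem Nu_pa {a b : Tm} (ht : ats (.pow a b) ⊆ A) : ats a ⊆ A :=
  fun _ hx => ht (Or.inr hx)

private theorem Nu_pt {a b : Tm} (ht : ats (.pow a b) ⊆ A) (h : Tr a b) : Tm.pow a b ∈ A :=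
  ht (Or.inl ⟨rfl, h⟩)

private theorem Nu_hr {t : Tm} (ht : ats t ⊆ A) :
    Su (Sg W A) (hP W t) ∧ Su (Sg W A) (rP W t) := by
  induction t with
  | one => exact ⟨Su.one, Su.one⟩
  | var w =>
    have hw : Tm.var w ∈ A := ht (Set.mem_singleton _)
    exact ⟨Nu_h1 (lr_mem_VA hw), Nu_h2 (lr_mem_VA hw)⟩
  | add s t hs ht' =>
    obtain ⟨a1, a2⟩ := hs (fun x hx => ht (Or.inl hx))
    obtain ⟨b1, b2⟩ := ht' (fun x hx => ht (Or.inr hx))
    exact ⟨Su.add a1 b1, Su.add a2 b2⟩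
  | mul s t hs ht' =>
    obtain ⟨a1, a2⟩ := hs (fun x hx => ht (Or.inl hx))
    obtain ⟨b1, b2⟩ := ht' (fun x hx => ht (Or.inr hx))
    exact ⟨Su.mul a1 b1, Su.mul a2 b2⟩
  | pow s t hs _ =>
    obtain ⟨a1, a2⟩ := hs (Nu_pa ht)
    change Su (Sg W A) ((if Tr s t then h1 W (lr W (.pow s t)) else 1) * hP W s ^ cs t) ∧
      Su (Sg W A) ((if Tr s t then h2 W (lr W (.pow s t)) else 1) * rP W s ^ cs t)
    by_cases h : Tr s t
    · rw [if_pos h, if_pos h]
      exact ⟨Su.mul (Nu_h1 (lr_mem_VA (Nu_pt ht h))) (Nu_supow a1 _),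
        Su.mul (Nu_h2 (lr_mem_VA (Nu_pt ht h))) (Nu_supow a2 _)⟩
    · rw [if_neg h, if_neg h]
      exact ⟨Su.mul Su.one (Nu_supow a1 _), Su.mul Su.one (Nu_supow a2 _)⟩

private theorem Nu_one (g : Gx W) : evl f (AddMonoidAlgebra.single g 1) = f g := by
  rw [evl_single, Int.cast_one, one_mul]

/-- The numerators are given by exponents in `Sg`. -/
theorem su_V (hA : ClA A) {t : Tm} (ht : ats t ⊆ A) : Su (Sg W A) (dm W t) ∧
    Su (Sg W A) (qd W t) ∧ Su (Sg W A) (dN W κ mu t) ∧ Su (Sg W A) (qn W κ mu t) ∧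
      Su (Sg W A) (lcQ W κ mu t) := by
  induction t with
  | one => exact ⟨Su.one, Su.one, Su.zero, Su.zero, Su.zero⟩
  | var w =>
    have hw : Tm.var w ∈ A := ht (Set.mem_singleton _)
    exact ⟨Su.one, Su.one, Su.mul (Nu_h1 (lr_mem_VA hw)) (Nu_al w), Nu_al w, Su.zero⟩
  | add s t hs ht' =>
    obtain ⟨a1, a2, a3, a4, a5⟩ := hs (fun x hx => ht (Or.inl hx))
    obtain ⟨b1, b2, b3, b4, b5⟩ := ht' (fun x hx => ht (Or.inr hx))
    exact ⟨Su.mul a1 b1, Su.mul (Su.mul a1 b1) (Nu_hr ht).1,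
      Su.add (Su.mul a3 b1) (Su.mul a1 b3), Su.add (Su.mul a3 b1) (Su.mul a1 b3), Nu_lc _⟩
  | mul s t hs ht' =>
    have cs : ats s ⊆ A := fun x hx => ht (Or.inl hx)
    have ct : ats t ⊆ A := fun x hx => ht (Or.inr hx)
    obtain ⟨a1, a2, a3, a4, a5⟩ := hs cs
    obtain ⟨b1, b2, b3, b4, b5⟩ := ht' ct
    exact ⟨Su.mul a1 b1, Su.mul a2 b2, Su.add (Su.mul (Su.mul a3 (Nu_hr ct).1) b1)
      (Su.mul (Su.mul (Nu_hr cs).1 a1) b3), Su.add (Su.mul a4 b2) (Su.mul a2 b4),
      Su.add a5 b5⟩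
  | pow a b ha _ =>
    have ca := Nu_pa ht
    obtain ⟨a1, a2, a3, a4, a5⟩ := ha ca
    have key : Su (Sg W A) ((if Tr a b then (rP W b - cs b) *
        (qn W κ mu a + lcQ W κ mu a * qd W a) else 0) + cs b * qn W κ mu a) := by
      refine Su.add ?_ (Su.mul (Nu_sucast _) a4)
      by_cases h : Tr a b
      · rw [if_pos h]
        exact Su.mul (Nu_susub (Nu_hr (hA a b (Nu_pt ht h)).2).2 (Nu_sucast _))
          (Su.add a4 (Su.mul a5 a2))
      · rw [if_neg h]
        exact Su.zero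
    exact ⟨a2, a2, Su.mul (Nu_hr ht).1 key, key, Su.mul (Nu_sucast _) a5⟩

theorem su_pN (hA : ClA A) {a b : Tm} (ha : ats a ⊆ A) (hb : ats b ⊆ A) :
    Su (Sg W A) (pN W κ mu (.pow a b)) := by
  change Su (Sg W A) (if Tr a b then (rP W b - cs b) *
    (qn W κ mu a + lcQ W κ mu a * qd W a) else 0)
  obtain ⟨a1, a2, a3, a4, a5⟩ := su_V (W := W) (κ := κ) (mu := mu) hA ha
  split_ifs
  · exact Su.mul (Nu_susub (Nu_hr hb).2 (Nu_sucast _)) (Su.add a4 (Su.mul a5 a2))
  · exact Su.zero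

/-- The value of the numerator of a virtual power. -/
private theorem Nu_Y (hA : ClA A) (hF : Fit W κ mu A f P) {a b : Tm} (ca : ats a ⊆ A)
    (cb : ats b ⊆ A) (a2 : evl f (qn W κ mu a) = (dd P a).2 * evl f (qd W a))
    (a3 : evl f (lcQ W κ mu a) = lcS P a) :
    evl f ((rP W b - cs b) * (qn W κ mu a + lcQ W κ mu a * qd W a)) =
      ((av P.g b - cs b) * ((dd P a).2 + lcS P a)) * evl f (qd W a) := by
  obtain ⟨-, s2, -, s4, s5⟩ := su_V (W := W) (κ := κ) (mu := mu) hA ca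
  rw [evl_mul hF.mo (Nu_susub (Nu_hr cb).2 (Nu_sucast _)) (Su.add s4 (Su.mul s5 s2)), evl_add,
    evl_mul hF.mo s5 s2, a2, a3, Nu_evsub, Nu_evcast hF.mo, (evl_hP hF cb).2]
  ring

/-- The values of the numerators. -/
theorem evl_V (hA : ClA A) (hF : Fit W κ mu A f P) {t : Tm} (ht : ats t ⊆ A)
    (hb : ∀ a ∈ ad t, av P.f a * P.iv (av P.f a) = 1 ∧
      P.lc (e1 a) = ∑ k ∈ Finset.range κ, (mu k (e1 a) : K) *
        f (0, 0, Finsupp.single (Sum.inr k) 1)) :
    evl f (dN W κ mu t) = (dd P t).1 * evl f (dm W t) ∧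
      evl f (qn W κ mu t) = (dd P t).2 * evl f (qd W t) ∧ evl f (lcQ W κ mu t) = lcS P t := by
  induction t with
  | one =>
    have h : evl f (0 : Lx W) = 0 * evl f (1 : Lx W) := by rw [evl_zero, zero_mul]
    exact ⟨h, h, evl_zero⟩
  | var w =>
    have hw : Tm.var w ∈ A := ht (Set.mem_singleton _)
    have h0 : evl f (al W w) = P.α w := by
      rw [hF.hα w]
      exact Nu_one _
    have h : evl f (h1 W (lr W (.var w)) * al W w) =
        P.f (.var w) * P.α w * evl f (1 : Lx W) := by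
      rw [evl_mul hF.mo (Nu_h1 (lr_mem_VA hw)) (Nu_al w), evl_one hF.mo, mul_one, hF.hf _ hw, h0]
      congr 1
      exact Nu_one _
    have h' : evl f (al W w) = P.α w * evl f (1 : Lx W) := by
      rw [evl_one hF.mo, mul_one, h0]
    exact ⟨h, h', evl_zero⟩
  | add s t hs ht' =>
    have cs : ats s ⊆ A := fun x hx => ht (Or.inl hx)
    have ct : ats t ⊆ A := fun x hx => ht (Or.inr hx)
    obtain ⟨x1, -, -⟩ := hs cs (fun a ha => hb a (Or.inr (Or.inl ha)))
    obtain ⟨y1, -, -⟩ := ht' ct (fun a ha => hb a (Or.inr (Or.inr ha)))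
    obtain ⟨b1, b2⟩ := hb (.add s t) (Or.inl rfl)
    obtain ⟨s1, -, s3, -, -⟩ := su_V (W := W) (κ := κ) (mu := mu) hA cs
    obtain ⟨t1, -, t3, -, -⟩ := su_V (W := W) (κ := κ) (mu := mu) hA ct
    have h0 : evl f (dN W κ mu s * dm W t + dm W s * dN W κ mu t) =
        ((dd P s).1 + (dd P t).1) * (evl f (dm W s) * evl f (dm W t)) := by
      rw [evl_add, evl_mul hF.mo s3 t1, evl_mul hF.mo s1 t3, x1, y1]
      ring
    have h : evl f (dN W κ mu s * dm W t + dm W s * dN W κ mu t) =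
        ((dd P s).1 + (dd P t).1) * evl f (dm W s * dm W t) := by
      rw [h0, evl_mul hF.mo s1 t1]
    have h' : evl f (dN W κ mu s * dm W t + dm W s * dN W κ mu t) =
        (((dd P s).1 + (dd P t).1) * P.iv (av P.f (.add s t))) *
          evl f (dm W s * dm W t * hP W (.add s t)) := by
      rw [h0, evl_mul hF.mo (Su.mul s1 t1) (Nu_hr ht).1, evl_mul hF.mo s1 t1, (evl_hP hF ht).1]
      linear_combination (-(((dd P s).1 + (dd P t).1) * (evl f (dm W s) * evl f (dm W t)))) * b1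
    refine ⟨h, h', ?_⟩
    have h3 : evl f (lcP W κ mu (e1 (.add s t))) = P.lc (e1 (.add s t)) := by
      rw [evl_lcP hF, b2]
    exact h3
  | mul s t hs ht' =>
    have cs : ats s ⊆ A := fun x hx => ht (Or.inl hx)
    have ct : ats t ⊆ A := fun x hx => ht (Or.inr hx)
    obtain ⟨x1, x2, x3⟩ := hs cs (fun a ha => hb a (Or.inl ha))
    obtain ⟨y1, y2, y3⟩ := ht' ct (fun a ha => hb a (Or.inr ha))
    obtain ⟨s1, s2, s3, s4, s5⟩ := su_V (W := W) (κ := κ) (mu := mu) hA cs
    obtain ⟨t1, t2, t3, t4, t5⟩ := su_V (W := W) (κ := κ) (mu := mu) hA ct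
    have s6 := (Nu_hr (W := W) cs).1
    have t6 := (Nu_hr (W := W) ct).1
    have h : evl f (dN W κ mu s * hP W t * dm W t + hP W s * dm W s * dN W κ mu t) =
        ((dd P s).1 * av P.f t + av P.f s * (dd P t).1) * evl f (dm W s * dm W t) := by
      rw [evl_add, evl_mul hF.mo (Su.mul s3 t6) t1, evl_mul hF.mo s3 t6,
        evl_mul hF.mo (Su.mul s6 s1) t3, evl_mul hF.mo s6 s1, evl_mul hF.mo s1 t1,
        x1, y1, (evl_hP hF cs).1, (evl_hP hF ct).1]
      ring
    have h' : evl f (qn W κ mu s * qd W t + qd W s * qn W κ mu t) =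
        ((dd P s).2 + (dd P t).2) * evl f (qd W s * qd W t) := by
      rw [evl_add, evl_mul hF.mo s4 t2, evl_mul hF.mo s2 t4, evl_mul hF.mo s2 t2, x2, y2]
      ring
    have h'' : evl f (lcQ W κ mu s + lcQ W κ mu t) = lcS P s + lcS P t := by
      rw [evl_add, x3, y3]
    exact ⟨h, h', h''⟩
  | pow a b ha _ =>
    have ca := Nu_pa ht
    obtain ⟨-, x2, x3⟩ := ha ca (fun c hc => hb c hc)
    obtain ⟨s1, s2, s3, s4, s5⟩ := su_V (W := W) (κ := κ) (mu := mu) hA ca
    have s7 : Su (Sg W A) (if Tr a b then (rP W b - cs b) *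
        (qn W κ mu a + lcQ W κ mu a * qd W a) else 0) := by
      by_cases h : Tr a b
      · rw [if_pos h]
        exact Su.mul (Nu_susub (Nu_hr (hA a b (Nu_pt ht h)).2).2 (Nu_sucast _))
          (Su.add s4 (Su.mul s5 s2))
      · rw [if_neg h]
        exact Su.zero
    have h1 : evl f (if Tr a b then (rP W b - cs b) *
        (qn W κ mu a + lcQ W κ mu a * qd W a) else 0) =
        (if Tr a b then (av P.g b - cs b) * ((dd P a).2 + lcS P a) else 0) * evl f (qd W a) := by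
      by_cases h : Tr a b
      · rw [if_pos h, if_pos h]
        exact Nu_Y hA hF ca (hA a b (Nu_pt ht h)).2 x2 x3
      · rw [if_neg h, if_neg h, evl_zero, zero_mul]
    have h2 : evl f ((if Tr a b then (rP W b - cs b) *
        (qn W κ mu a + lcQ W κ mu a * qd W a) else 0) + cs b * qn W κ mu a) =
        ((if Tr a b then (av P.g b - cs b) * ((dd P a).2 + lcS P a) else 0) +
          cs b * (dd P a).2) * evl f (qd W a) := by
      rw [evl_add, h1, evl_mul hF.mo (Nu_sucast _) s4, Nu_evcast hF.mo, x2]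
      ring
    have h3 : evl f (hP W (.pow a b) * ((if Tr a b then (rP W b - cs b) *
        (qn W κ mu a + lcQ W κ mu a * qd W a) else 0) + cs b * qn W κ mu a)) =
        (av P.f (.pow a b) * ((if Tr a b then (av P.g b - cs b) * ((dd P a).2 + lcS P a) else 0) +
          cs b * (dd P a).2)) * evl f (qd W a) := by
      rw [evl_mul hF.mo (Nu_hr ht).1 (Su.add s7 (Su.mul (Nu_sucast _) s4)), h2,
        (evl_hP hF ht).1, mul_assoc]
    have h4 : evl f (cs b * lcQ W κ mu a) = cs b * lcS P a := by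
      rw [evl_mul hF.mo (Nu_sucast _) s5, Nu_evcast hF.mo, x3]
    exact ⟨h3, h2, h4⟩

theorem evl_pN (hA : ClA A) (hF : Fit W κ mu A f P) {a b : Tm} (ha : ats a ⊆ A)
    (hb' : ats b ⊆ A) (hb : ∀ c ∈ ad a, av P.f c * P.iv (av P.f c) = 1 ∧
      P.lc (e1 c) = ∑ k ∈ Finset.range κ, (mu k (e1 c) : K) *
        f (0, 0, Finsupp.single (Sum.inr k) 1)) :
    evl f (pN W κ mu (.pow a b)) = pw P (.pow a b) * evl f (qd W (.pow a b)) := by
  obtain ⟨-, x2, x3⟩ := evl_V hA hF ha hb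
  change evl f (if Tr a b then (rP W b - cs b) *
      (qn W κ mu a + lcQ W κ mu a * qd W a) else 0) =
    (if Tr a b then (av P.g b - cs b) * ((dd P a).2 + lcS P a) else 0) * evl f (qd W a)
  by_cases h : Tr a b
  · rw [if_pos h, if_pos h]
    exact Nu_Y hA hF ha hb' x2 x3
  · rw [if_neg h, if_neg h, evl_zero, zero_mul]

/-- The denominators are units if the values of the sums are units. -/
theorem qd_unit (hA : ClA A) (hF : Fit W κ mu A f P) {t : Tm} (ht : ats t ⊆ A)
    (hb : ∀ a ∈ ad t, IsUnit (av P.f a)) :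
    IsUnit (evl f (dm W t)) ∧ IsUnit (evl f (qd W t)) := by
  have h1 : evl f (1 : Lx W) = 1 := evl_one hF.mo
  have h2 : IsUnit (evl f (1 : Lx W)) := by
    rw [h1]
    exact isUnit_one
  induction t with
  | one => exact ⟨h2, h2⟩
  | var w => exact ⟨h2, h2⟩
  | add s t hs ht' =>
    have cs : ats s ⊆ A := fun x hx => ht (Or.inl hx)
    have ct : ats t ⊆ A := fun x hx => ht (Or.inr hx)
    have x1 := (hs cs (fun a ha => hb a (Or.inr (Or.inl ha)))).1
    have y1 := (ht' ct (fun a ha => hb a (Or.inr (Or.inr ha)))).1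
    have s1 := (su_V (W := W) (κ := κ) (mu := mu) hA cs).1
    have t1 := (su_V (W := W) (κ := κ) (mu := mu) hA ct).1
    have h3 : IsUnit (evl f (dm W s * dm W t)) := by
      rw [evl_mul hF.mo s1 t1]
      exact x1.mul y1
    have h4 : IsUnit (evl f (dm W s * dm W t * hP W (.add s t))) := by
      rw [evl_mul hF.mo (Su.mul s1 t1) (Nu_hr ht).1, (evl_hP hF ht).1]
      exact h3.mul (hb (.add s t) (Or.inl rfl))
    exact ⟨h3, h4⟩
  | mul s t hs ht' =>
    have cs : ats s ⊆ A := fun x hx => ht (Or.inl hx)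
    have ct : ats t ⊆ A := fun x hx => ht (Or.inr hx)
    obtain ⟨x1, x2⟩ := hs cs (fun a ha => hb a (Or.inl ha))
    obtain ⟨y1, y2⟩ := ht' ct (fun a ha => hb a (Or.inr ha))
    obtain ⟨s1, s2, -, -, -⟩ := su_V (W := W) (κ := κ) (mu := mu) hA cs
    obtain ⟨t1, t2, -, -, -⟩ := su_V (W := W) (κ := κ) (mu := mu) hA ct
    have h3 : IsUnit (evl f (dm W s * dm W t)) := by
      rw [evl_mul hF.mo s1 t1]
      exact x1.mul y1
    have h4 : IsUnit (evl f (qd W s * qd W t)) := by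
      rw [evl_mul hF.mo s2 t2]
      exact x2.mul y2
    exact ⟨h3, h4⟩
  | pow a b ha _ =>
    have x2 := (ha (Nu_pa ht) (fun c hc => hb c hc)).2
    exact ⟨x2, x2⟩

/-- If the value of the denominator is not zero, then the value of the sum is not zero. -/
theorem add_ne (hA : ClA A) (hF : Fit W κ mu A f P) {s t : Tm} (ht : ats (.add s t) ⊆ A)
    (h : evl f (qd W (.add s t)) ≠ 0) : av P.f (.add s t) ≠ 0 := by
  have s1 := (su_V (W := W) (κ := κ) (mu := mu) hA
    (show ats s ⊆ A from fun x hx => ht (Or.inl hx))).1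
  have t1 := (su_V (W := W) (κ := κ) (mu := mu) hA
    (show ats t ⊆ A from fun x hx => ht (Or.inr hx))).1
  change evl f (dm W s * dm W t * hP W (.add s t)) ≠ 0 at h
  rw [evl_mul hF.mo (Su.mul s1 t1) (Nu_hr ht).1, (evl_hP hF ht).1] at h
  exact right_ne_zero_of_mul h

end Pool.Agent.TV
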