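import Pool.Agent.H.MP_b2d7dd_lc.TV.Mach
import Pool.Agent.H.MP_b2d7dd_lc.TQ.Nxt

/-!
# Module Nxt: the test

Compare TQ, TD/Nxt. `hrun` computes the numbers `e1` of the small sums, `baseV` = their
coprime base. `nxt` = one stage: the table for the subterms number `0, ..., i` from the table for the
subterms before `i` and the random bits `zz`. `tabI` = all stages. `fin1` = the comparison of the two
terms. `test1` = one round. `accept` = all rounds.
-/

namespace Pool.Agent.TV

open Pool.Agent.TI (Tm Tok names tokz bmod beqv bpw)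
open Pool.Agent.TE (bl)
open Pool.Agent.TW (SI ltab pivots pow2 md rad rmu)
open Pool.Agent.TC (MB muB Pb Stk subs exF cob eN eP uu vv Kc Qw Rr kk SS AA KK)
open Pool.Agent.TD (Ed ed0 enew Mn cst big cs lg wt e1 Tr)
open Pool.Agent.H.MP_5be563_lc.PT

/-- One step: the data of the terms of the stack and the numbers `e1` of the small sums. -/
def hstep (M : List Bool) (q : Tok × Bool) (s : List Ed × List (List Bool)) :
    List Ed × List (List Bool) :=
  (enew M q.1 s.1 :: (bif decide (q.1.1 = 0) || decide (q.1.1 = 4) then s.1 else s.1.tail.tail),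
    s.2 ++ [bif q.2 && decide (q.1.1 = 1) then (enew M q.1 s.1).1.1 else [true]])

/-- The numbers `e1` of the small sums. -/
def hrun (M : List Bool) (T : List (Tok × Bool)) : List Ed × List (List Bool) :=
  T.foldr (hstep M) ([], [])

/-- The coprime base. -/
def baseV (n : ℕ) (T : List (Tok × Bool)) : List (List Bool) :=
  cob (4 * (n + 7) + 2) (Kc n) (hrun (Mn n) T).2

/-- One stage. -/
def nxt (n : ℕ) (e : List Bool) (N B : List (List Bool)) (T : List (Tok × Bool))
    (i : ℕ) (tab : List (List SI)) (zz : List Bool) : List (List SI) :=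
  ltab e (pow2 (eN n)) (pow2 (eP n)) (kk n) (i + 1)
    (pivots e (i + 1) ((List.range (Rr n)).map fun j =>
      vrow e (Mn n) (vv n) (n + 1) n N B tab T i (bl (Qw n * vv n) zz j)))

/-- All stages. -/
def tabI (n : ℕ) (e : List Bool) (N B : List (List Bool)) (T : List (Tok × Bool))
    (z : List Bool) : ℕ → List (List SI)
  | 0 => []
  | i + 1 => nxt n e N B T i (tabI n e N B T z i) (bl (SS n) z i)

/-- The two terms have the same value. -/
def fin1 (n : ℕ) (e : List Bool) (N B : List (List Bool)) (T : List (Tok × Bool))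
    (tab : List (List SI)) (zz : List Bool) : Bool :=
  beqv
    (bmod ((vrun e (Mn n) (vv n) (n + 1) n N B (bl (Qw n * vv n) zz 0) tab T).1.headD vy0).1.1
      (md e))
    (bmod ((vrun e (Mn n) (vv n) (n + 1) n N B (bl (Qw n * vv n) zz 0) tab T).1.tail.headD
      vy0).1.1 (md e))

/-- The test for given bits of the modulus and of the stages. -/
def test0 (n : ℕ) (T : List Tok) (e z : List Bool) : Bool :=
  bif ble (pow2 (vv n)) e then
    fin1 n e (names T) (baseV n (zf n T)) (zf n T)
      (tabI n e (names T) (baseV n (zf n T)) (zf n T) z T.length) (bl (SS n) z T.length)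
  else true

/-- One round. -/
def test1 (n : ℕ) (T : List Tok) (z : List Bool) : Bool :=
  test0 n T (z.take (2 * vv n)) (z.drop (2 * vv n))

/-- The test on tokens. -/
def acceptT (n : ℕ) (T : List Tok) (r : List Bool) : Bool :=
  shapeG n T && (List.range (KK n)).all fun j => test1 n T (bl (AA n) r j)

/-- The test. -/
def accept (k : ℕ) (x r : List Bool) : Bool :=
  match tokz x with
  | none => false
  | some T => acceptT (x.length ^ k) T r

private theorem Nxt_cons (M : List Bool) (q : Tok × Bool) (T : List (Tok × Bool)) :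
    hrun M (q :: T) = hstep M q (hrun M T) := rfl

private def Nxt_R (M : List Bool) (x : Ed) (u : Tm) : Prop :=
  x.2.1 = big u ∧ x.2.2 = cst u ∧ bval x.1.1 = e1 u % (bval M + 2) ∧
    bval x.1.2 = cs u % (bval M + 2)

private def Nxt_S (n : ℕ) (x : List Bool) (u : Tm) : Prop :=
  (∀ a b, thr n u = Tm.add a b → bval x = e1 (.add a b)) ∧
    ((∀ a b, thr n u ≠ Tm.add a b) → bval x = 1)

private theorem Nxt_h {M : List Bool} {l : List Ed} {st : List Tm} {a b : Tm}
    (h : List.Forall₂ (Nxt_R M) l (a :: b :: st)) :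
    ∃ x y r, l = x :: y :: r ∧ Nxt_R M x a ∧ Nxt_R M y b ∧ List.Forall₂ (Nxt_R M) r st := by
  obtain ⟨x, l', h1, h2, rfl⟩ := List.forall₂_cons_right_iff.1 h
  obtain ⟨y, r, h3, h4, rfl⟩ := List.forall₂_cons_right_iff.1 h2
  exact ⟨x, y, r, rfl, h1, h3, h4⟩

private theorem Nxt_one : bval [true] = 1 := rfl

private theorem Nxt_app {R : List Bool → Tm → Prop} {l : List (List Bool)} {U : List Tm}
    (h : List.Forall₂ R l U) {x : List Bool} {u : Tm} (hx : R x u) :
    List.Forall₂ R (l ++ [x]) (U ++ [u]) :=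
  List.rel_append h (List.Forall₂.cons hx List.Forall₂.nil)

private theorem Nxt_mem {R : List Bool → Tm → Prop} {l : List (List Bool)} {U : List Tm}
    (h : List.Forall₂ R l U) : (∀ x ∈ l, ∃ u ∈ U, R x u) ∧ ∀ u ∈ U, ∃ x ∈ l, R x u := by
  induction h with
  | nil => exact ⟨fun x hx => absurd hx List.not_mem_nil, fun u hu => absurd hu List.not_mem_nil⟩
  | cons h1 _ ih =>
    refine ⟨fun x hx => ?_, fun u hu => ?_⟩
    · rcases List.mem_cons.1 hx with hx | hx
      · rw [hx]
        exact ⟨_, List.mem_cons_self, h1⟩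
      · obtain ⟨u, hu, hr⟩ := ih.1 x hx
        exact ⟨u, List.mem_cons_of_mem _ hu, hr⟩
    · rcases List.mem_cons.1 hu with hu | hu
      · rw [hu]
        exact ⟨_, List.mem_cons_self, h1⟩
      · obtain ⟨x, hx, hr⟩ := ih.2 u hu
        exact ⟨x, List.mem_cons_of_mem _ hx, hr⟩

/-- The flags of one more token. -/
private theorem Nxt_zf {n : ℕ} {q : Tok} {T : List Tok} {st st' U : List Tm} {u : Tm}
    (h : Stk T st U) (h' : Stk (q :: T) st' (U ++ [u])) (hU : ∀ v ∈ U ++ [u], Gd n v) :
    zf n (q :: T) = (q, decide (wg u 1 ≤ n)) :: zf n T := by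
  have h1 := flags_stk h fun v hv => hU v (List.mem_append_left _ hv)
  have h2 := flags_stk h' hU
  rw [List.map_append, List.reverse_append, List.map_singleton, List.reverse_singleton,
    List.singleton_append, ← h1] at h2
  unfold zf
  rw [h2, List.zip_cons_cons]

/-- A term which is not a sum has the number `1` in the second list. -/
private theorem Nxt_np {n : ℕ} {u : Tm} (h : ∀ a b, u ≠ Tm.add a b) : Nxt_S n [true] u := by
  refine ⟨fun a b hab => ?_, fun _ => Nxt_one⟩
  unfold thr at hab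
  by_cases hw : wg u 1 ≤ n
  · rw [if_pos hw] at hab
    exact absurd hab (h a b)
  · rw [if_neg hw] at hab
    exact absurd hab (by simp)

private theorem Nxt_rad (M : List Bool) {x y : List Bool} {a b : ℕ}
    (hx : bval x = a % (bval M + 2)) (hy : bval y = b % (bval M + 2)) :
    bval (rad M x y) = (a + b) % (bval M + 2) := by
  rw [rad, TW.bval_bmod_md, bval_badd, hx, hy, ← Nat.add_mod]

private theorem Nxt_rmu (M : List Bool) {x y : List Bool} {a b : ℕ}
    (hx : bval x = a % (bval M + 2)) (hy : bval y = b % (bval M + 2)) :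
    bval (rmu M x y) = (a * b) % (bval M + 2) := by
  rw [rmu, TW.bval_bmod_md, bval_bmul, hx, hy, ← Nat.mul_mod]

private theorem Nxt_rpw (M : List Bool) {x y : List Bool} {a b : ℕ}
    (hx : bval x = a % (bval M + 2)) (hy : bval y = b) :
    bval (bpw x y (md M)) = (a ^ b) % (bval M + 2) := by
  rw [TI.bval_bpw, TW.bval_md, hx, hy, ← Nat.pow_mod]

private theorem Nxt_val {n : ℕ} {M : List Bool} {T : List Tok} {st U : List Tm} (h : Stk T st U)
    (hU : ∀ u ∈ U, Gd n u) (hM : 2 ^ n < bval M + 2) :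
    List.Forall₂ (Nxt_R M) (hrun M (zf n T)).1 st ∧
      List.Forall₂ (Nxt_S n) (hrun M (zf n T)).2 U := by
  have hle : ∀ u : Tm, wg u 2 ≤ n → 2 ^ lg u < bval M + 2 := fun u hu =>
    lt_of_le_of_lt (Nat.pow_le_pow_right (by norm_num) ((lg_le2 u).trans hu)) hM
  have h1m : (1 : ℕ) % (bval M + 2) = 1 := Nat.mod_eq_of_lt (by omega)
  induction h with
  | nil => exact ⟨List.Forall₂.nil, List.Forall₂.nil⟩
  | @one T st U h ih =>
    obtain ⟨h1, h2⟩ := ih fun u hu => hU u (List.mem_append_left _ hu)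
    have h3 : hrun M (zf n ((0, []) :: T)) =
        (ed0 :: (hrun M (zf n T)).1, (hrun M (zf n T)).2 ++ [[true]]) := by
      rw [Nxt_zf h (Stk.one h) hU, Nxt_cons]
      simp [hstep, enew]
    rw [h3]
    exact ⟨List.Forall₂.cons ⟨rfl, rfl, h1m.symm, h1m.symm⟩ h1,
      Nxt_app h2 (Nxt_np fun a b h => by simp at h)⟩
  | @var T st U w h ih =>
    obtain ⟨h1, h2⟩ := ih fun u hu => hU u (List.mem_append_left _ hu)
    have h3 : hrun M (zf n ((4, w) :: T)) =
        ((([true], []), (true, false)) :: (hrun M (zf n T)).1,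
          (hrun M (zf n T)).2 ++ [[true]]) := by
      rw [Nxt_zf h (Stk.var w h) hU, Nxt_cons]
      simp [hstep, enew]
    rw [h3]
    exact ⟨List.Forall₂.cons ⟨rfl, rfl, h1m.symm, (Nat.zero_mod _).symm⟩ h1,
      Nxt_app h2 (Nxt_np fun a b h => by simp at h)⟩
  | @add T st U a b h ih =>
    obtain ⟨h1, h2⟩ := ih fun u hu => hU u (List.mem_append_left _ hu)
    obtain ⟨x, y, r, hl, ⟨x3, x4, x1, x2⟩, ⟨y3, y4, y1, y2⟩, hr⟩ := Nxt_h h1
    have h3 : hrun M (zf n ((1, []) :: T)) =
        (((rad M x.1.1 y.1.1, rad M x.1.2 y.1.2), (true, x.2.2 && y.2.2)) :: r,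
          (hrun M (zf n T)).2 ++
            [bif decide (wg (.add a b) 1 ≤ n) then rad M x.1.1 y.1.1 else [true]]) := by
      rw [Nxt_zf h (Stk.add h) hU, Nxt_cons]
      simp [hstep, enew, hl]
    have h7 : (x.2.2 && y.2.2) = cst (.add a b) := by
      rw [x4, y4]
      rfl
    have h5 : bval (rad M x.1.1 y.1.1) = e1 (.add a b) % (bval M + 2) := Nxt_rad M x1 y1
    rw [h3]
    refine ⟨List.Forall₂.cons ⟨rfl, h7, h5, Nxt_rad M x2 y2⟩ hr, Nxt_app h2 ?_⟩
    by_cases hw : wg (.add a b) 1 ≤ n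
    · have e2 : thr n (.add a b) = .add a b := if_pos hw
      have hw2 : wg (.add a b) 2 ≤ n := hw
      rw [decide_eq_true hw, cond_true]
      refine ⟨fun a' b' h => ?_, fun h => absurd e2 (h a b)⟩
      rw [e2] at h
      rw [← h, h5]
      exact Nat.mod_eq_of_lt ((TD.e1_le (.add a b)).trans_lt (hle _ hw2))
    · have e2 : thr n (.add a b) = .one := if_neg hw
      rw [decide_eq_false hw, cond_false]
      refine ⟨fun a' b' h => ?_, fun _ => Nxt_one⟩
      rw [e2] at h
      exact absurd h (by simp)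
  | @mul T st U a b h ih =>
    obtain ⟨h1, h2⟩ := ih fun u hu => hU u (List.mem_append_left _ hu)
    obtain ⟨x, y, r, hl, ⟨x3, x4, x1, x2⟩, ⟨y3, y4, y1, y2⟩, hr⟩ := Nxt_h h1
    have h3 : hrun M (zf n ((2, []) :: T)) =
        (((rmu M x.1.1 y.1.1, rmu M x.1.2 y.1.2), (x.2.1 || y.2.1, x.2.2 && y.2.2)) :: r,
          (hrun M (zf n T)).2 ++ [[true]]) := by
      rw [Nxt_zf h (Stk.mul h) hU, Nxt_cons]
      simp [hstep, enew, hl]
    have h7 : (x.2.2 && y.2.2) = cst (.mul a b) := by
      rw [x4, y4]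
      rfl
    have h8 : (x.2.1 || y.2.1) = big (.mul a b) := by
      rw [x3, y3]
      rfl
    rw [h3]
    exact ⟨List.Forall₂.cons ⟨h8, h7, Nxt_rmu M x1 y1, Nxt_rmu M x2 y2⟩ hr,
      Nxt_app h2 (Nxt_np fun a b h => by simp at h)⟩
  | @pow T st U a b h ih =>
    obtain ⟨h1, h2⟩ := ih fun u hu => hU u (List.mem_append_left _ hu)
    obtain ⟨x, y, r, hl, ⟨x3, x4, x1, x2⟩, ⟨y3, y4, y1, y2⟩, hr⟩ := Nxt_h h1
    have h3 : hrun M (zf n ((3, []) :: T)) =
        (TD.epow M x y :: r, (hrun M (zf n T)).2 ++ [[true]]) := by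
      rw [Nxt_zf h (Stk.pow h) hU, Nxt_cons]
      simp [hstep, enew, hl]
    have h7 : (TD.epow M x y).2.2 = cst (.pow a b) := by
      show ((x.2.2 && y.2.2) || !x.2.1) = cst (.pow a b)
      rw [x4, y4, x3]
      rfl
    have hb : wg b 2 ≤ n :=
      ((hU (.pow a b) (List.mem_append_right _ (List.mem_singleton.2 rfl))).2 a b rfl).1
    have y5 : bval y.1.2 = cs b := by
      rw [y2]
      exact Nat.mod_eq_of_lt ((TD.cs_le b).trans_lt (hle _ hb))
    rw [h3]
    refine ⟨List.Forall₂.cons ⟨x3, h7, Nxt_rpw M x1 y5, ?_⟩ hr,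
      Nxt_app h2 (Nxt_np fun a b h => by simp at h)⟩
    show bval (bif y.2.2 || !x.2.1 then bpw x.1.2 y.1.2 (md M) else []) =
      (if (cst b || !big a) = true then cs a ^ cs b else 0) % (bval M + 2)
    rw [y4, x3]
    cases hc : (cst b || !big a) with
    | true =>
      rw [cond_true, if_pos rfl]
      exact Nxt_rpw M x2 y5
    | false => exact (Nat.zero_mod _).symm

/-- The numbers of the sums. -/
theorem hrun_val {n : ℕ} {M : List Bool} {T : List Tok} {st U : List Tm} (h : Stk T st U)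
    (hU : ∀ u ∈ U, Gd n u) (hM : 2 ^ n < bval M + 2) :
    List.Forall₂ (fun (x : Ed) u => x.2.1 = big u ∧ x.2.2 = cst u ∧
      bval x.1.1 = e1 u % (bval M + 2) ∧ bval x.1.2 = cs u % (bval M + 2))
        (hrun M (zf n T)).1 st ∧
      List.Forall₂ (fun x u => (∀ a b, thr n u = Tm.add a b → bval x = e1 (.add a b)) ∧
        ((∀ a b, thr n u ≠ Tm.add a b) → bval x = 1)) (hrun M (zf n T)).2 U := by
  exact Nxt_val h hU hM

private theorem Nxt_bpw (M r e : List Bool) : (bpw r e (md M)).length ≤ M.length + 4 := by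
  have h1 := TI.length_bpw_le r e (md M)
  have h2 := TW.length_md_le M
  omega

private theorem Nxt_pw (M : List Bool) (a b : Ed) :
    (TD.epow M a b).1.1.length ≤ M.length + 4 ∧ (TD.epow M a b).1.2.length ≤ M.length + 4 := by
  refine ⟨Nxt_bpw _ _ _, ?_⟩
  unfold TD.epow
  cases (b.2.2 || !a.2.1) with
  | true => exact Nxt_bpw _ _ _
  | false => exact Nat.zero_le _

private theorem Nxt_new (M : List Bool) (q : Tok) (s : List Ed) :
    (enew M q s).1.1.length ≤ M.length + 4 ∧ (enew M q s).1.2.length ≤ M.length + 4 := by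
  have ht : ([true] : List Bool).length ≤ M.length + 4 := Nat.succ_le_succ (Nat.zero_le _)
  unfold enew
  cases decide (q.1 = 0) with
  | true => exact ⟨ht, ht⟩
  | false =>
    cases decide (q.1 = 4) with
    | true => exact ⟨ht, Nat.zero_le _⟩
    | false =>
      cases decide (q.1 = 1) with
      | true => exact ⟨TW.length_rad_le _ _ _, TW.length_rad_le _ _ _⟩
      | false =>
        cases decide (q.1 = 2) with
        | true => exact ⟨TW.length_rmu_le _ _ _, TW.length_rmu_le _ _ _⟩
        | false => exact Nxt_pw _ _ _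

theorem hrun_len (M : List Bool) (T : List (Tok × Bool)) : (hrun M T).1.length ≤ T.length ∧
    (hrun M T).2.length = T.length ∧
      (∀ x ∈ (hrun M T).1, x.1.1.length ≤ M.length + 4 ∧ x.1.2.length ≤ M.length + 4) ∧
        ∀ x ∈ (hrun M T).2, x.length ≤ M.length + 4 := by
  induction T with
  | nil =>
    exact ⟨le_rfl, rfl, fun x hx => absurd hx List.not_mem_nil,
      fun x hx => absurd hx List.not_mem_nil⟩
  | cons q T ih =>
    obtain ⟨i1, i2, i3, i4⟩ := ih
    have ht : ([true] : List Bool).length ≤ M.length + 4 := Nat.succ_le_succ (Nat.zero_le _)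
    rw [Nxt_cons]
    unfold hstep
    refine ⟨?_, ?_, ?_, ?_⟩
    · dsimp only
      rw [List.length_cons, List.length_cons]
      cases (decide (q.1.1 = 0) || decide (q.1.1 = 4)) with
      | true => exact Nat.succ_le_succ i1
      | false =>
        rw [cond_false, List.length_tail, List.length_tail]
        omega
    · dsimp only
      rw [List.length_append, List.length_singleton, List.length_cons, i2]
    · intro x hx
      rcases List.mem_cons.1 hx with hx | hx
      · rw [hx]
        exact Nxt_new _ _ _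
      · revert hx
        cases (decide (q.1.1 = 0) || decide (q.1.1 = 4)) with
        | true => exact fun hx => i3 x hx
        | false => exact fun hx => i3 x (List.mem_of_mem_tail (List.mem_of_mem_tail hx))
    · intro x hx
      rcases List.mem_append.1 hx with hx | hx
      · exact i4 x hx
      · rw [List.mem_singleton.1 hx]
        cases (q.2 && decide (q.1.1 = 1)) with
        | true => exact (Nxt_new _ _ _).1
        | false => exact ht

private theorem Nxt_all {s t : Tm} {n : ℕ} (hn : wg s 0 + wg t 0 ≤ n) :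
    (∀ x ∈ (hrun (Mn n) (zf n (s.toks ++ t.toks))).2, x.length ≤ n + 7) ∧
      (∀ x ∈ (hrun (Mn n) (zf n (s.toks ++ t.toks))).2, 1 ≤ bval x) ∧
      (n + 7) * (hrun (Mn n) (zf n (s.toks ++ t.toks))).2.length ≤ Kc n ∧
      ∀ m ∈ Bs2 (exT n s t) (s.sz + t.sz),
        ∃ x ∈ (hrun (Mn n) (zf n (s.toks ++ t.toks))).2, m = bval x := by
  have hst := TC.stk_pair s t
  have hsz : s.sz + t.sz ≤ n := (Nat.add_le_add (sz_le_wg s 0) (sz_le_wg t 0)).trans hn
  have hlen : (subs t ++ subs s).length = s.sz + t.sz := by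
    rw [List.length_append, TC.length_subs, TC.length_subs, add_comm]
  have hU : ∀ u ∈ subs t ++ subs s, Gd n u := by
    intro u hu
    rcases List.mem_append.1 hu with h | h
    · exact gd_subs (by omega) h
    · exact gd_subs (by omega) h
  have hM : 2 ^ n < bval (Mn n) + 2 := by
    rw [TD.bval_Mn]
    have : 2 ^ n ≤ 2 ^ (n + 2) := Nat.pow_le_pow_right (by norm_num) (by omega)
    omega
  obtain ⟨-, hv⟩ := hrun_val hst hU hM
  obtain ⟨-, l2, -, l4⟩ := hrun_len (Mn n) (zf n (s.toks ++ t.toks))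
  have hml : (Mn n).length = n + 3 := by
    unfold Mn pow2
    rw [List.length_append, List.length_replicate, List.length_singleton]
  refine ⟨fun x hx => ?_, fun x hx => ?_, ?_, ?_⟩
  · have h1 := l4 x hx
    rw [hml] at h1
    exact h1
  · obtain ⟨u, -, h1, h2⟩ := (Nxt_mem hv).1 x hx
    by_cases hu : ∃ a b, thr n u = Tm.add a b
    · obtain ⟨a, b, hab⟩ := hu
      rw [h1 a b hab]
      exact TD.e1_pos _
    · rw [h2 fun a b hab => hu ⟨a, b, hab⟩]
  · rw [l2, zf_length, ← hst.length, hlen]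
    unfold Kc
    exact Nat.mul_le_mul_left _ (by omega)
  · rintro m ⟨a, ha, c, b, hab, rfl⟩
    have h1 : exF s t a ∈ subs t ++ subs s := by
      unfold exF
      rw [List.getD_eq_getElem _ _ (by rw [hlen]; exact ha)]
      exact List.getElem_mem _
    obtain ⟨x, hx, h2, -⟩ := (Nxt_mem hv).2 _ h1
    exact ⟨x, hx, (h2 c b hab).symm⟩

theorem baseV_two {s t : Tm} {n : ℕ} (hn : wg s 0 + wg t 0 ≤ n) :
    (∀ P ∈ baseV n (zf n (s.toks ++ t.toks)), 2 ≤ bval P) ∧
      (baseV n (zf n (s.toks ++ t.toks))).length ≤ Kc n := by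
  obtain ⟨h1, h2, h3, -⟩ := Nxt_all hn
  obtain ⟨c1, -, c3, -⟩ := TC.cob_spec h1 h2 le_rfl h3
  exact ⟨c1, c3⟩

/-- The coprime base is a base for the numbers of the sums. -/
theorem baseV_mb {s t : Tm} {n : ℕ} (hn : wg s 0 + wg t 0 ≤ n) :
    MB (baseV n (zf n (s.toks ++ t.toks))).length (Pb (baseV n (zf n (s.toks ++ t.toks))))
      (muB (baseV n (zf n (s.toks ++ t.toks)))) (Bs2 (exT n s t) (s.sz + t.sz)) := by
  obtain ⟨h1, h2, h3, h4⟩ := Nxt_all hn
  have h5 := TC.mb_cob h1 h2 le_rfl h3
  exact ⟨h5.two, h5.cop, fun m hm => h5.fac m (h4 m hm)⟩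

end Pool.Agent.TV
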