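import Pool.Agent.H.MP_b2d7dd_lc.TV.Rl
import Pool.Agent.H.MP_b2d7dd_lc.TD.Rf

/-!
# Module Rf: relations between the logarithms hold for the numerators

Compare TD/Rf.
-/

namespace Pool.Agent.TV

open Pool.Agent.TI (Tm)
open Pool.Agent.TC (Pt rf rf_pos evl Mo Su nrm Pr Gx Lx h1 h2 al ga lcP MB Vn Coh Fai Eqv Bas crd chi)
open Pool.Agent.TD
open Finset

variable {W : Finset (List Bool)} {n L : ℕ} {ex : ℕ → Tm} {κ : ℕ} {Pk : ℕ → ℕ} {mu : ℕ → ℕ → ℕ}

theorem rel_fwd (h : FamR W n L ex) (hM : MB κ Pk mu (Bs2 ex L)) {i : ℕ} (hi : i ≤ L) (k : ℕ → ℤ)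
    (hk : ∑ a ∈ range i, k a • lr W (ex a) = 0) : ∑ a ∈ range i, k a • cw W κ mu ex i a = 0 := by
  classical
  have hcz := Pool.Agent.TC.Rf_cz (W := W)
  obtain ⟨F, hF, hC, j, hj⟩ : ∃ (F : Type) (_ : Field F) (_ : CharZero F) (j : Lx W →+* F),
      Function.Injective j :=
    ⟨FractionRing (Lx W), inferInstance,
      charZero_of_injective_algebraMap (IsFractionRing.injective (Lx W) (FractionRing (Lx W))),
      algebraMap (Lx W) (FractionRing (Lx W)), IsFractionRing.injective _ _⟩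
  obtain ⟨lc, hlc, hlc2⟩ := hM.lc (fun k => j (ga W k))
  obtain ⟨P, hPf, hPg, hPa, hPl, hPi⟩ : ∃ P : Pr F, (P.f = fun a => j (h1 W (lr W a))) ∧
      (P.g = fun a => j (h2 W (lr W a))) ∧ (P.α = fun w => j (al W w)) ∧ P.lc = lc ∧
      P.iv = fun x => x⁻¹ := ⟨⟨fun a => j (h1 W (lr W a)), fun a => j (h2 W (lr W a)),
        fun w => j (al W w), lc, fun x => x⁻¹⟩, rfl, rfl, rfl, rfl, rfl⟩
  have hne : ∀ t : Tm, av P.f t ≠ 0 := by
    intro t
    rw [hPf, Rf_map j (fun a => h1 W (lr W a))]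
    intro h0
    refine Rf_ne (W := W) (f := fun a => h1 W (lr W a)) (fun a => ?_) t
      (hj (h0.trans (map_zero j).symm))
    show evl (fun _ => (1 : ℤ)) (AddMonoidAlgebra.single (lr W a, 0, 0) 1 : Lx W) = 1
    rw [Pool.Agent.TC.evl_single]
    rfl
  have hne2 : ∀ t : Tm, av P.g t ≠ 0 := by
    intro t
    rw [hPg, Rf_map j (fun a => h2 W (lr W a))]
    intro h0
    refine Rf_ne (W := W) (f := fun a => h2 W (lr W a)) (fun a => ?_) t
      (hj (h0.trans (map_zero j).symm))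
    show evl (fun _ => (1 : ℤ)) (AddMonoidAlgebra.single (0, lr W a, 0) 1 : Lx W) = 1
    rw [Pool.Agent.TC.evl_single]
    rfl
  obtain ⟨as, has, hsub⟩ := h.cl hi
  have hch := ch_F (W := W) (P := P) (f := fun v => j (h1 W v)) (g := fun v => j (h2 W v))
    ⟨by
      show j (AddMonoidAlgebra.single (0, 0, 0) 1) = 1
      exact (Pool.Agent.TC.Rf_mo j ⊤).zero, fun v _ w _ => by
      show j (AddMonoidAlgebra.single (v + w, 0, 0) 1) = j (AddMonoidAlgebra.single (v, 0, 0) 1) *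
        j (AddMonoidAlgebra.single (w, 0, 0) 1)
      rw [← (Pool.Agent.TC.Rf_mo j ⊤).add _ (AddSubmonoid.mem_top _) _ (AddSubmonoid.mem_top _)]
      simp⟩
    ⟨by
      show j (AddMonoidAlgebra.single (0, 0, 0) 1) = 1
      exact (Pool.Agent.TC.Rf_mo j ⊤).zero, fun v _ w _ => by
      show j (AddMonoidAlgebra.single (0, v + w, 0) 1) = j (AddMonoidAlgebra.single (0, v, 0) 1) *
        j (AddMonoidAlgebra.single (0, w, 0) 1)
      rw [← (Pool.Agent.TC.Rf_mo j ⊤).add _ (AddSubmonoid.mem_top _) _ (AddSubmonoid.mem_top _)]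
      simp⟩
    (fun a => by rw [hPf]) (fun a => by rw [hPg]) hPi hne hne2 (by rw [hPl]; exact hlc) as has
  have hsum := Rf_group hch (fun t ht => Rf_ph0 P ht) hsub k hk
  have hfit : Fit W κ mu Set.univ (fun g => j (AddMonoidAlgebra.single g 1)) P := by
    refine ⟨Pool.Agent.TC.Rf_mo j _, fun a _ => ?_, fun a _ => ?_, fun w => ?_⟩
    · rw [hPf]
      rfl
    · rw [hPg]
      rfl
    · rw [hPa]
      rfl
  have hcl : ClA Set.univ := fun _ _ _ => ⟨Set.subset_univ _, Set.subset_univ _⟩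
  have hlc' : ∀ m n : ℕ, m ≠ 0 → n ≠ 0 → P.lc (m * n) = P.lc m + P.lc n := by
    rw [hPl]
    exact hlc
  have key : ∀ a < L, j (pN W κ mu (ex a)) = ph P (ex a) * j (qd W (ex a)) := by
    intro a ha
    rw [← Pool.Agent.TC.Rf_evl j, ← Pool.Agent.TC.Rf_evl j (qd W (ex a))]
    cases hx : ex a with
    | one =>
      show evl _ (0 : Lx W) = 0 * _
      rw [Pool.Agent.TC.evl_zero, zero_mul]
    | var w =>
      show evl _ (al W w) = P.α w * evl _ (1 : Lx W)
      rw [Pool.Agent.TC.Rf_evl, Pool.Agent.TC.Rf_evl, map_one, mul_one, hPa]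
    | add s t =>
      show evl _ (0 : Lx W) = 0 * _
      rw [Pool.Agent.TC.evl_zero, zero_mul]
    | mul s t =>
      show evl _ (0 : Lx W) = 0 * _
      rw [Pool.Agent.TC.evl_zero, zero_mul]
    | pow s t =>
      rw [← pw_eq hPi hne hlc' (.pow s t)]
      refine evl_pN hcl hfit (Set.subset_univ _) (Set.subset_univ _) fun c hc => ⟨?_, ?_⟩
      · rw [hPi]
        exact mul_inv_cancel₀ (hne c)
      · rw [hPl]
        refine hlc2 _ ?_
        obtain ⟨x, y, hxy⟩ := (ad_wg hc).2.2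
        have hc' : c ∈ ad (ex a) := by
          rw [hx]
          exact hc
        obtain ⟨a', ha', hb⟩ := h.ad a ha c hc'
        refine ⟨a', lt_of_le_of_lt ha' ha, x, y, ?_, ?_⟩
        · rw [hb, hxy]
        · rw [hxy]
  refine hj ?_
  rw [map_zero, map_sum]
  have e : ∀ a ∈ range i, j (k a • cw W κ mu ex i a) =
      ((k a : F) * ph P (ex a)) * ∏ b ∈ range i, j (qd W (ex b)) := by
    intro a ha
    rw [map_zsmul, zsmul_eq_mul, cw, map_mul, map_prod,
      key a (lt_of_lt_of_le (Finset.mem_range.1 ha) hi), ← Finset.mul_prod_erase _ _ ha]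
    ring
  rw [Finset.sum_congr rfl e, ← Finset.sum_mul, hsum, zero_mul]

end Pool.Agent.TV
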