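import Pool.Agent.H.MP_b2d7dd_lc.TC.Sml
import Pool.Agent.H.MP_b2d7dd_lc.TV.Nb
import Pool.Agent.H.MP_b2d7dd_lc.TD.Rl
import Pool.Agent.H.MP_b2d7dd_lc.TC.Mb
import Pool.Agent.H.MP_b2d7dd_lc.TC.Cf

/-!
# Module Rl: the relations between the logarithms and between the numerators

Compare TD/Rl (`exA` is defined there). `cw i a` = the numerator of `pw (ex a)` over the common
denominator of the first `i` subterms.
-/

namespace Pool.Agent.TV

open Pool.Agent.TI (Tm)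
open Pool.Agent.TC (Pt rf rf_pos evl Mo Su nrm Pr Gx Lx h1 h2 al ga lcP MB Vn Coh Fai Eqv Bas crd chi)
open Pool.Agent.TD
open Finset

/-- Families of subterms. -/
structure FamR (W : Finset (List Bool)) (n L : ℕ) (ex : ℕ → Tm) : Prop where
  wt : ∀ a, wg (ex a) 1 ≤ n + 1
  le : L ≤ n
  at1 : ∀ i < L, ats (ex i) ⊆ exA ex (i + 1)
  at2 : ∀ i < L, ∀ a b, ex i = .pow a b → ats a ⊆ exA ex i ∧ ats b ⊆ exA ex i
  ad : ∀ i < L, ∀ c ∈ ad (ex i), ∃ a ≤ i, ex a = c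
  var : ∀ i < L, ∀ w, ex i = .var w → w ∈ W

/-- The numbers `e1` of the sums. -/
def Bs2 (ex : ℕ → Tm) (L : ℕ) : Set ℕ :=
  {m | ∃ a < L, ∃ s t, ex a = .add s t ∧ m = e1 (.add s t)}

variable {W : Finset (List Bool)} {n L : ℕ} {ex : ℕ → Tm} {κ : ℕ} {Pk : ℕ → ℕ} {mu : ℕ → ℕ → ℕ}

/-- The numerators over the common denominator. -/
noncomputable def cw (W : Finset (List Bool)) (κ : ℕ) (mu : ℕ → ℕ → ℕ) (ex : ℕ → Tm) (i a : ℕ) :
    Lx W :=
  pN W κ mu (ex a) * ∏ b ∈ (range i).erase a, qd W (ex b)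

/-- The common denominator. -/
noncomputable def Dw (W : Finset (List Bool)) (ex : ℕ → Tm) (i : ℕ) : Lx W :=
  ∏ b ∈ range i, qd W (ex b)

private theorem Rl_mono {i j : ℕ} (hij : i ≤ j) : exA ex i ⊆ exA ex j := by
  rintro u ⟨a, ha, h1, h2⟩
  exact ⟨a, lt_of_lt_of_le ha hij, h1, h2⟩

private theorem Rl_atom {u t : Tm} (h : u ∈ ats t) :
    (∃ w, u = .var w) ∨ ∃ a b, u = .pow a b ∧ Tr a b := by
  induction t with
  | one => exact absurd h (Set.notMem_empty u)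
  | var w => exact Or.inl ⟨w, h⟩
  | add s t hs ht =>
    rcases h with h | h
    · exact hs h
    · exact ht h
  | mul s t hs ht =>
    rcases h with h | h
    · exact hs h
    · exact ht h
  | pow s t hs _ =>
    rcases h with h | h
    · exact Or.inr ⟨s, t, h⟩
    · exact hs h

theorem FamR.clA (h : FamR W n L ex) {i : ℕ} (hi : i ≤ L) : ClA (exA ex i) := by
  intro a b hab
  obtain ⟨c, hc, h1, -⟩ := hab
  obtain ⟨h2, h3⟩ := h.at2 c (lt_of_lt_of_le hc hi) a b h1.symm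
  exact ⟨h2.trans (Rl_mono hc.le), h3.trans (Rl_mono hc.le)⟩

/-- The atoms of the first subterms are atoms of a closed list. -/
theorem FamR.cl (h : FamR W n L ex) {i : ℕ} (hi : i ≤ L) :
    ∃ as, Cl W as ∧ exA ex i ⊆ At W as := by
  induction i with
  | zero =>
    refine ⟨[], trivial, ?_⟩
    rintro u ⟨a, ha, -⟩
    exact absurd ha (Nat.not_lt_zero a)
  | succ i ih =>
    obtain ⟨as, h1, h2⟩ := ih (by omega)
    have hiL : i < L := by omega
    by_cases hp : ∃ a b, ex i = .pow a b ∧ Tr a b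
    · obtain ⟨a, b, hab, hTr⟩ := hp
      obtain ⟨h3, h4⟩ := h.at2 i hiL a b hab
      refine ⟨.pow a b :: as, ⟨⟨a, b, rfl, h3.trans h2, h4.trans h2, hTr⟩, h1⟩, ?_⟩
      rintro u ⟨c, hc, hu, hu'⟩
      rcases Nat.lt_succ_iff_lt_or_eq.1 hc with hc | hc
      · exact Cl.at_cons _ (h2 ⟨c, hc, hu, hu'⟩)
      · rw [hc, hab] at hu
        rw [hu]
        exact Or.inr List.mem_cons_self
    · refine ⟨as, h1, ?_⟩
      rintro u ⟨c, hc, hu, hu'⟩
      rcases Nat.lt_succ_iff_lt_or_eq.1 hc with hc | hc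
      · exact h2 ⟨c, hc, hu, hu'⟩
      · rw [hc] at hu
        rcases Rl_atom hu' with ⟨w, hw⟩ | ⟨a, b, hab, hTr⟩
        · exact Or.inl ⟨w, h.var i hiL w (hu.symm.trans hw), hw⟩
        · exact absurd ⟨a, b, hu.symm.trans hab, hTr⟩ hp

theorem cw_bound (h : FamR W n L ex) (hM : MB κ Pk mu (Bs2 ex L)) {i : ℕ} (hi : i ≤ L) {a : ℕ}
    (ha : a < i) (g : Gx W) :
    |(cw W κ mu ex i a).coeff g| ≤ ((2 ^ (n + 3) ^ 3 : ℕ) : ℤ) := by
  have hMu : MuV κ mu (ex a) := by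
    intro c hc
    obtain ⟨a', ha', hb⟩ := h.ad a (by omega) c hc
    obtain ⟨-, -, s, t, hst⟩ := ad_wg hc
    rw [hst] at hb ⊢
    exact hM.sum_le ⟨a', by omega, s, t, hb, rfl⟩ (e1_le _)
  have h1 : nrm (pN W κ mu (ex a)) ≤ 2 ^ (3 * (n + 1) ^ 2) :=
    (nrm_pN hMu).trans (Nat.pow_le_pow_right two_pos
      (Nat.mul_le_mul_left 3 (Nat.pow_le_pow_left (h.wt a) 2)))
  have h2 : ∀ b, nrm (qd W (ex b)) ≤ 2 ^ (n + 1) ^ 2 := fun b =>
    (nrm_dm (ex b)).2.trans (Nat.pow_le_pow_right two_pos (Nat.pow_le_pow_left (h.wt b) 2))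
  have h3 : nrm (∏ b ∈ (range i).erase a, qd W (ex b)) ≤ 2 ^ (n * (n + 1) ^ 2) := by
    refine (Pool.Agent.TC.nrm_prod _ _).trans
      ((Finset.prod_le_pow_card _ _ _ fun b _ => h2 b).trans ?_)
    rw [← pow_mul, mul_comm]
    refine Nat.pow_le_pow_right two_pos (Nat.mul_le_mul_right _ ?_)
    have h4 := Finset.card_erase_le (s := range i) (a := a)
    rw [card_range] at h4
    have h5 := h.le
    omega
  have h6 : nrm (cw W κ mu ex i a) ≤ 2 ^ (n + 3) ^ 3 := by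
    refine Pool.Agent.TC.nrm_mul.trans ((Nat.mul_le_mul h1 h3).trans ?_)
    rw [← pow_add]
    refine Nat.pow_le_pow_right two_pos ?_
    nlinarith
  exact (Pool.Agent.TC.coeff_le_nrm g).trans (by exact_mod_cast h6)

end Pool.Agent.TV
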